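import Mathlib

/-! Finite differences of a continuous function: a Baire category argument. -/

set_option autoImplicit false
open MeasureTheory Set Filter Topology

namespace U506.RT

/-- The forward difference with step `s`. -/
def dl (s : ℝ) (g : ℝ → ℂ) : ℝ → ℂ := fun t => g (t + s) - g t

/-- The sum of two consecutive values. -/
def ts (s : ℝ) (g : ℝ → ℂ) : ℝ → ℂ := fun t => g (t + s) + g t

lemma dl_two (s : ℝ) (g : ℝ → ℂ) : dl (2 * s) g = ts s (dl s g) := by
  funext t
  simp only [dl, ts]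
  have : t + 2 * s = t + s + s := by ring
  rw [this]; ring

lemma dl_ts_comm (s : ℝ) : Function.Commute (ts s) (dl s) := by
  intro g
  funext t
  simp only [dl, ts]; ring

lemma dl_two_iter (s : ℝ) (k : ℕ) (g : ℝ → ℂ) :
    (dl (2 * s))^[k] g = (ts s)^[k] ((dl s)^[k] g) := by
  have h : dl (2 * s) = (ts s) ∘ (dl s) := by funext g; exact dl_two s g
  rw [h, (dl_ts_comm s).comp_iterate k]
  rfl

lemma dl_continuous {s : ℝ} {g : ℝ → ℂ} (hg : Continuous g) : Continuous (dl s g) := by
  unfold dl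
  exact (hg.comp (continuous_id.add continuous_const)).sub hg

lemma ts_continuous {s : ℝ} {g : ℝ → ℂ} (hg : Continuous g) : Continuous (ts s g) := by
  unfold ts
  exact (hg.comp (continuous_id.add continuous_const)).add hg

lemma dl_iter_continuous (s : ℝ) (k : ℕ) : ∀ {g : ℝ → ℂ}, Continuous g →
    Continuous ((dl s)^[k] g) := by
  induction k with
  | zero => intro g hg; exact hg
  | succ k ih => intro g hg; rw [Function.iterate_succ]; exact ih (dl_continuous hg)

lemma ts_iter_zero (s : ℝ) (hs : 0 ≤ s) (k : ℕ) : ∀ (g : ℝ → ℂ) (t : ℝ),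
    (∀ x, t ≤ x → x ≤ t + k * s → g x = 0) → (ts s)^[k] g t = 0 := by
  induction k with
  | zero =>
    intro g t h
    exact h t le_rfl (by simp)
  | succ k ih =>
    intro g t h
    rw [Function.iterate_succ]
    apply ih
    intro x hx1 hx2
    have h1 : g x = 0 := h x hx1 (by push_cast; nlinarith)
    have h2 : g (x + s) = 0 := h (x + s) (by linarith) (by push_cast; nlinarith)
    simp [ts, h1, h2]

lemma ts_integral (s : ℝ) (hs : 0 ≤ s) (g : ℝ → ℂ) (hg : Continuous g) (a b : ℝ) (hab : a ≤ b) :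
    ∫ t in a..b, ‖ts s g t‖ ≤ 2 * ∫ t in a..(b + s), ‖g t‖ := by
  have h1 : ∫ t in a..b, ‖ts s g t‖ ≤ ∫ t in a..b, (‖g (t + s)‖ + ‖g t‖) := by
    apply intervalIntegral.integral_mono_on hab
    · exact ((ts_continuous hg).norm).intervalIntegrable _ _
    · exact (((hg.comp (continuous_id.add continuous_const)).norm).add hg.norm).intervalIntegrable _ _
    · intro x _
      exact norm_add_le _ _
  have h2 : ∫ t in a..b, (‖g (t + s)‖ + ‖g t‖)
      = (∫ t in a..b, ‖g (t + s)‖) + ∫ t in a..b, ‖g t‖ := by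
    apply intervalIntegral.integral_add
    · exact ((hg.comp (continuous_id.add continuous_const)).norm).intervalIntegrable _ _
    · exact hg.norm.intervalIntegrable _ _
  have h3 : (∫ t in a..b, ‖g (t + s)‖) = ∫ t in (a + s)..(b + s), ‖g t‖ := by
    rw [intervalIntegral.integral_comp_add_right (fun t => ‖g t‖) s]
  have h4 : ∫ t in (a + s)..(b + s), ‖g t‖ ≤ ∫ t in a..(b + s), ‖g t‖ := by
    have := intervalIntegral.integral_add_adjacent_intervals
      (hg.norm.intervalIntegrable (μ := volume) a (a + s))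
      (hg.norm.intervalIntegrable (μ := volume) (a + s) (b + s))
    have h0 : 0 ≤ ∫ t in a..(a + s), ‖g t‖ :=
      intervalIntegral.integral_nonneg (by linarith) (fun _ _ => norm_nonneg _)
    linarith
  have h5 : ∫ t in a..b, ‖g t‖ ≤ ∫ t in a..(b + s), ‖g t‖ := by
    have := intervalIntegral.integral_add_adjacent_intervals
      (hg.norm.intervalIntegrable (μ := volume) a b)
      (hg.norm.intervalIntegrable (μ := volume) b (b + s))
    have h0 : 0 ≤ ∫ t in b..(b + s), ‖g t‖ :=
      intervalIntegral.integral_nonneg (by linarith) (fun _ _ => norm_nonneg _)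
    linarith
  linarith

lemma ts_iter_integral (s : ℝ) (hs : 0 ≤ s) (k : ℕ) : ∀ (g : ℝ → ℂ), Continuous g →
    ∀ (a b : ℝ), a ≤ b →
    ∫ t in a..b, ‖(ts s)^[k] g t‖ ≤ 2 ^ k * ∫ t in a..(b + k * s), ‖g t‖ := by
  induction k with
  | zero => intro g hg a b hab; simp
  | succ k ih =>
    intro g hg a b hab
    rw [Function.iterate_succ]
    have h1 := ih (ts s g) (ts_continuous hg) a b hab
    have h2 := ts_integral s hs g hg a (b + k * s) (by nlinarith [mul_nonneg (Nat.cast_nonneg k : (0:ℝ) ≤ k) hs])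
    have e : b + k * s + s = b + ((k + 1 : ℕ) : ℝ) * s := by push_cast; ring
    rw [e] at h2
    calc _ ≤ 2 ^ k * ∫ t in a..(b + k * s), ‖ts s g t‖ := h1
      _ ≤ 2 ^ k * (2 * ∫ t in a..(b + ((k + 1 : ℕ) : ℝ) * s), ‖g t‖) := by gcongr
      _ = _ := by rw [pow_succ]; ring

lemma halve (k : ℕ) (L : ℝ → ℂ) (hL : Continuous L) (r : ℝ) (hr : 0 ≤ r) (a b : ℝ) (hab : a ≤ b)
    (n : ℕ) :
    ∫ t in a..b, ‖(dl r)^[k] L t‖
      ≤ (2 ^ k) ^ n * ∫ t in a..(b + k * r * (1 - 1 / 2 ^ n)), ‖(dl (r / 2 ^ n))^[k] L t‖ := by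
  induction n with
  | zero => simp
  | succ n ih =>
    set s : ℝ := r / 2 ^ (n + 1) with hs
    have hs0 : 0 ≤ s := by positivity
    have e1 : r / 2 ^ n = 2 * s := by rw [hs, pow_succ]; field_simp
    have hb : a ≤ b + k * r * (1 - 1 / 2 ^ n) := by
      have : (0:ℝ) ≤ 1 - 1 / 2 ^ n := by
        have : (1:ℝ) / 2 ^ n ≤ 1 := by
          rw [div_le_one (by positivity)]; exact one_le_pow₀ (by norm_num)
        linarith
      have := mul_nonneg (mul_nonneg (Nat.cast_nonneg k : (0:ℝ) ≤ k) hr) this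
      linarith
    have h2 := ts_iter_integral s hs0 k ((dl s)^[k] L) (dl_iter_continuous s k hL) a
      (b + k * r * (1 - 1 / 2 ^ n)) hb
    rw [← dl_two_iter, ← e1] at h2
    have e2 : b + k * r * (1 - 1 / 2 ^ n) + k * s = b + k * r * (1 - 1 / 2 ^ (n + 1)) := by
      rw [hs, pow_succ]; field_simp; ring
    rw [e2] at h2
    calc _ ≤ _ := ih
      _ ≤ (2 ^ k) ^ n * (2 ^ k * ∫ t in a..(b + k * r * (1 - 1 / 2 ^ (n + 1))), ‖(dl s)^[k] L t‖) := by
          gcongr
      _ = _ := by rw [pow_succ ((2:ℝ) ^ k) n]; ring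

/-- The points near which all `k`-th differences vanish. -/
def Good (k : ℕ) (L : ℝ → ℂ) : Set ℝ :=
  {x | 0 < x ∧ ∃ δ > 0, ∀ t r : ℝ, 0 < r → x - δ < t → t + k * r < x + δ → 0 < t →
    (dl r)^[k] L t = 0}

lemma good_open (k : ℕ) (L : ℝ → ℂ) : IsOpen (Good k L) := by
  rw [Metric.isOpen_iff]
  rintro x ⟨hx, δ, hδ, h⟩
  refine ⟨min x (δ / 2), lt_min hx (by linarith), ?_⟩
  intro y hy
  rw [Metric.mem_ball, Real.dist_eq] at hy
  have h1 := lt_of_lt_of_le hy (min_le_left _ _)
  have h2 := lt_of_lt_of_le hy (min_le_right _ _)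
  rw [abs_lt] at h1 h2
  refine ⟨by linarith, δ / 2, by linarith, ?_⟩
  intro t r hr ht1 ht2 ht0
  exact h t r hr (by linarith) (by linarith) ht0

lemma local_global (k : ℕ) (L : ℝ → ℂ) (t r : ℝ) (ht : 0 < t) (hr : 0 < r)
    (hg : ∀ x, t ≤ x → x ≤ t + k * r → x ∈ Good k L) : (dl r)^[k] L t = 0 := by
  -- Lebesgue number
  have hcomp : IsCompact (Icc t (t + k * r)) := isCompact_Icc
  have hk0 : (0:ℝ) ≤ k := Nat.cast_nonneg k
  choose! d hd using fun x (hx : x ∈ Good k L) => hx.2
  have hcover : Icc t (t + k * r) ⊆ ⋃ x : Icc t (t + k * r), Metric.ball (x:ℝ) (d x) := by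
    intro x hx
    rw [mem_iUnion]
    exact ⟨⟨x, hx⟩, Metric.mem_ball_self (hd x (hg x hx.1 hx.2)).1⟩
  obtain ⟨δ, hδ, hleb⟩ := lebesgue_number_lemma_of_metric hcomp
    (fun x : Icc t (t + k * r) => Metric.isOpen_ball) hcover
  have key : ∀ n : ℕ, ∀ t' r' : ℝ, 0 < r' → t ≤ t' → t' + k * r' ≤ t + k * r →
      k * r' / 2 ^ n < δ → (dl r')^[k] L t' = 0 := by
    intro n
    induction n with
    | zero =>
      intro t' r' hr' h1 h2 h3
      simp only [pow_zero, div_one] at h3
      have hkr' : 0 ≤ k * r' := by positivity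
      have hmem : t' ∈ Icc t (t + k * r) := ⟨h1, by linarith⟩
      obtain ⟨x, hx⟩ := hleb t' hmem
      have hx1 : t' ∈ Metric.ball (x:ℝ) (d x) := hx (Metric.mem_ball_self hδ)
      have hx2 : t' + k * r' ∈ Metric.ball (x:ℝ) (d x) := by
        apply hx
        rw [Metric.mem_ball, Real.dist_eq, add_sub_cancel_left, abs_of_nonneg hkr']
        exact h3
      rw [Metric.mem_ball, Real.dist_eq, abs_lt] at hx1 hx2
      exact (hd x (hg x x.2.1 x.2.2)).2 t' r' hr' (by linarith) (by linarith) (by linarith)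
    | succ n ih =>
      intro t' r' hr' h1 h2 h3
      have e : r' = 2 * (r' / 2) := by ring
      rw [e, dl_two_iter]
      apply ts_iter_zero _ (by positivity)
      intro x hx1 hx2
      apply ih x (r' / 2) (by positivity) (by linarith)
      · have : k * (r' / 2) + k * (r' / 2) = k * r' := by ring
        linarith
      · rw [pow_succ] at h3
        calc k * (r' / 2) / 2 ^ n = k * r' / (2 ^ n * 2) := by field_simp
          _ < δ := h3
  obtain ⟨n, hn⟩ : ∃ n : ℕ, k * r / 2 ^ n < δ := by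
    have : Tendsto (fun n : ℕ => k * r / (2:ℝ) ^ n) atTop (𝓝 0) := by
      have h := (tendsto_pow_atTop_nhds_zero_of_lt_one (r := (1/2:ℝ)) (by norm_num) (by norm_num)).const_mul (k * r)
      simp only [mul_zero] at h
      refine h.congr ?_
      intro n
      rw [div_pow, one_pow, mul_one_div]
    exact ((tendsto_order.1 this).2 δ hδ).exists
  exact key n t r hr le_rfl le_rfl hn

end U506.RT
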