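import Pool.Agent.U506.RT.A

/-! The Baire category argument for finite differences. -/

set_option autoImplicit false
open MeasureTheory Set Filter Topology

namespace U506.RT

lemma portion (k : ℕ) (L : ℝ → ℂ) (Kn : ℕ → Set ℝ) (hclosed : ∀ n, IsClosed (Kn n))
    (hcover : ∀ t, 0 < t → ∃ n, t ∈ Kn n) (x₁ : ℝ) (hx₁ : 0 < x₁) (hbad : x₁ ∉ Good k L) :
    ∃ n : ℕ, ∃ x₀ : ℝ, 0 < x₀ ∧ x₀ ∉ Good k L ∧ ∃ ρ > 0, ρ < x₀ ∧
      ∀ x, x₀ - ρ < x → x < x₀ + ρ → x ∉ Good k L → x ∈ Kn n := by
  set K : Set ℝ := Real.exp ⁻¹' (Good k L)ᶜ with hK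
  have hKc : IsClosed K := (good_open k L).isClosed_compl.preimage Real.continuous_exp
  have hne : Nonempty K := ⟨⟨Real.log x₁, by
    show Real.exp (Real.log x₁) ∈ (Good k L)ᶜ
    rw [Real.exp_log hx₁]; exact hbad⟩⟩
  haveI : CompleteSpace K := hKc.completeSpace_coe
  set F : ℕ → Set K := fun n => {s : K | Real.exp (s:ℝ) ∈ Kn n} with hF
  have hFc : ∀ n, IsClosed (F n) := by
    intro n
    exact (hclosed n).preimage (Real.continuous_exp.comp continuous_subtype_val)
  have hFu : ⋃ n, F n = univ := by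
    rw [eq_univ_iff_forall]
    intro s
    obtain ⟨n, hn⟩ := hcover (Real.exp (s:ℝ)) (Real.exp_pos _)
    exact mem_iUnion.2 ⟨n, hn⟩
  obtain ⟨n, s₀, hs₀⟩ := nonempty_interior_of_iUnion_of_closed hFc hFu
  rw [mem_interior_iff_mem_nhds, Metric.mem_nhds_iff] at hs₀
  obtain ⟨η, hη, hball⟩ := hs₀
  set x₀ := Real.exp (s₀:ℝ) with hx₀
  have hx₀p : 0 < x₀ := Real.exp_pos _
  have hx₀b : x₀ ∉ Good k L := s₀.2
  -- continuity of log at x₀
  have hlog : ContinuousAt Real.log x₀ := Real.continuousAt_log hx₀p.ne'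
  rw [Metric.continuousAt_iff] at hlog
  obtain ⟨ρ, hρ, hlog⟩ := hlog η hη
  refine ⟨n, x₀, hx₀p, hx₀b, min ρ (x₀ / 2), lt_min hρ (by linarith),
    lt_of_le_of_lt (min_le_right _ _) (by linarith), ?_⟩
  intro x hx1 hx2 hxb
  have hm1 := min_le_left ρ (x₀ / 2)
  have hm2 := min_le_right ρ (x₀ / 2)
  have hxp : 0 < x := by linarith
  have hmem : Real.log x ∈ K := by
    show Real.exp (Real.log x) ∈ (Good k L)ᶜ
    rw [Real.exp_log hxp]; exact hxb
  have hd : dist x x₀ < ρ := by
    rw [Real.dist_eq, abs_lt]; constructor <;> linarith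
  have hd2 := hlog hd
  have : (⟨Real.log x, hmem⟩ : K) ∈ Metric.ball s₀ η := by
    rw [Metric.mem_ball, Subtype.dist_eq]
    simpa [hx₀, Real.log_exp] using hd2
  have := hball this
  simp only [hF, mem_setOf_eq] at this
  rwa [Real.exp_log hxp] at this

theorem baire_diff (k : ℕ) (L : ℝ → ℂ) (hL : Continuous L) (Kn : ℕ → Set ℝ)
    (hclosed : ∀ n, IsClosed (Kn n)) (hcover : ∀ t, 0 < t → ∃ n, t ∈ Kn n)
    (hb : ∀ n, ∃ C : ℝ, ∀ a ∈ Kn n, ∀ t r : ℝ, 0 < t → 0 < r → t ≤ a → a ≤ t + k * r →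
      ‖(dl r)^[k] L t‖ ≤ C * r ^ k)
    (hlim : ∀ t, 0 < t → Tendsto (fun r => ‖(dl r)^[k] L t‖ / r ^ k) (𝓝[>] 0) (𝓝 0)) :
    ∀ t r : ℝ, 0 < t → 0 < r → (dl r)^[k] L t = 0 := by
  suffices hall : ∀ x, 0 < x → x ∈ Good k L by
    intro t r ht hr
    exact local_global k L t r ht hr (fun x hx1 _ => hall x (by linarith))
  by_contra hcon
  push Not at hcon
  obtain ⟨x₁, hx₁, hbad⟩ := hcon
  obtain ⟨n, x₀, hx₀p, hx₀b, ρ, hρ, hρx, hI⟩ := portion k L Kn hclosed hcover x₁ hx₁ hbad
  obtain ⟨C, hC⟩ := hb n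
  have hk0 : (0:ℝ) ≤ k := Nat.cast_nonneg k
  -- claim 1
  have claim1 : ∀ t r : ℝ, 0 < r → x₀ - ρ < t → t + k * r < x₀ + ρ →
      ‖(dl r)^[k] L t‖ ≤ |C| * r ^ k := by
    intro t r hr ht1 ht2
    have ht : 0 < t := by linarith
    have hkr : 0 ≤ k * r := by positivity
    by_cases h : ∀ x, t ≤ x → x ≤ t + k * r → x ∈ Good k L
    · rw [local_global k L t r ht hr h, norm_zero]
      positivity
    · push Not at h
      obtain ⟨a, ha1, ha2, ha3⟩ := h
      have ha := hI a (by linarith) (by linarith) ha3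
      refine (hC a ha t r ht hr ha1 ha2).trans ?_
      gcongr
      exact le_abs_self C
  -- claim 2
  apply hx₀b
  refine ⟨hx₀p, ρ / 8, by positivity, ?_⟩
  intro t r hr ht1 ht2 ht0
  have hkr : 0 ≤ k * r := by positivity
  have hkr2 : k * r < ρ / 4 := by linarith
  have hzero : ∀ a b : ℝ, a ≤ b → x₀ - ρ / 2 < a → b < x₀ + ρ / 4 →
      ∫ t in a..b, ‖(dl r)^[k] L t‖ = 0 := by
    intro a b hab ha hbb
    apply le_antisymm _ (intervalIntegral.integral_nonneg hab (fun _ _ => norm_nonneg _))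
    -- the bound for every n
    have hbn : ∀ n : ℕ, ∫ t in a..b, ‖(dl r)^[k] L t‖
        ≤ r ^ k * ∫ t in a..(b + k * r), ‖(dl (r / 2 ^ n))^[k] L t‖ / (r / 2 ^ n) ^ k := by
      intro n
      refine (halve k L hL r hr.le a b hab n).trans ?_
      have hcont : Continuous (fun t => ‖(dl (r / 2 ^ n))^[k] L t‖) :=
        (dl_iter_continuous _ k hL).norm
      have e1 : (0:ℝ) ≤ 1 / 2 ^ n := by positivity
      have e0 : (1:ℝ) / 2 ^ n ≤ 1 := by
        rw [div_le_one (by positivity)]; exact one_le_pow₀ (by norm_num)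
      have h1 : ∫ t in a..(b + k * r * (1 - 1 / 2 ^ n)), ‖(dl (r / 2 ^ n))^[k] L t‖
          ≤ ∫ t in a..(b + k * r), ‖(dl (r / 2 ^ n))^[k] L t‖ := by
        have hle : b + k * r * (1 - 1 / 2 ^ n) ≤ b + k * r := by
          have := mul_nonneg hkr e1
          linarith
        have := intervalIntegral.integral_add_adjacent_intervals
          (hcont.intervalIntegrable (μ := volume) a (b + k * r * (1 - 1 / 2 ^ n)))
          (hcont.intervalIntegrable (μ := volume) (b + k * r * (1 - 1 / 2 ^ n)) (b + k * r))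
        have h0 : 0 ≤ ∫ t in (b + k * r * (1 - 1 / 2 ^ n))..(b + k * r),
            ‖(dl (r / 2 ^ n))^[k] L t‖ :=
          intervalIntegral.integral_nonneg hle (fun _ _ => norm_nonneg _)
        linarith
      calc (2 ^ k) ^ n * ∫ t in a..(b + k * r * (1 - 1 / 2 ^ n)), ‖(dl (r / 2 ^ n))^[k] L t‖
          ≤ (2 ^ k) ^ n * ∫ t in a..(b + k * r), ‖(dl (r / 2 ^ n))^[k] L t‖ := by gcongr
        _ = r ^ k * ∫ t in a..(b + k * r), ‖(dl (r / 2 ^ n))^[k] L t‖ / (r / 2 ^ n) ^ k := by
            rw [intervalIntegral.integral_div, div_pow, ← pow_mul, ← pow_mul, mul_comm k n]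
            field_simp
    -- the limit
    have hlim2 : Tendsto (fun n : ℕ => ∫ t in a..(b + k * r),
        ‖(dl (r / 2 ^ n))^[k] L t‖ / (r / 2 ^ n) ^ k) atTop (𝓝 0) := by
      have hr0 : Tendsto (fun n : ℕ => r / (2:ℝ) ^ n) atTop (𝓝[>] 0) := by
        rw [tendsto_nhdsWithin_iff]
        constructor
        · have h := (tendsto_pow_atTop_nhds_zero_of_lt_one (r := (1/2:ℝ)) (by norm_num)
            (by norm_num)).const_mul r
          simp only [mul_zero] at h
          refine h.congr ?_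
          intro n
          rw [div_pow, one_pow, mul_one_div]
        · filter_upwards with n
          show 0 < r / 2 ^ n
          positivity
      have := intervalIntegral.tendsto_integral_filter_of_dominated_convergence
        (μ := volume) (a := a) (b := b + k * r) (l := atTop)
        (F := fun (n : ℕ) t => ‖(dl (r / 2 ^ n))^[k] L t‖ / (r / 2 ^ n) ^ k)
        (f := fun _ => (0:ℝ)) (fun _ => |C|) ?_ ?_ ?_ ?_
      · simpa using this
      · filter_upwards with n
        exact (((dl_iter_continuous _ k hL).norm).div_const _).aestronglyMeasurable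
      · filter_upwards with n
        filter_upwards with x hx
        rw [uIoc_of_le (by linarith)] at hx
        have hrn : 0 < r / 2 ^ n := by positivity
        have hle : k * (r / 2 ^ n) ≤ k * r := by
          apply mul_le_mul_of_nonneg_left _ hk0
          exact div_le_self hr.le (one_le_pow₀ (by norm_num))
        have := claim1 x (r / 2 ^ n) hrn (by linarith [hx.1]) (by linarith [hx.2])
        rw [Real.norm_of_nonneg (by positivity), div_le_iff₀ (by positivity)]
        exact this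
      · exact intervalIntegrable_const
      · filter_upwards with x hx
        rw [uIoc_of_le (by linarith)] at hx
        exact (hlim x (by linarith [hx.1])).comp hr0
    have := le_of_tendsto_of_tendsto (tendsto_const_nhds (x := ∫ t in a..b, ‖(dl r)^[k] L t‖))
      (hlim2.const_mul (r ^ k)) (Filter.Eventually.of_forall hbn)
    simpa using this
  -- conclusion by continuity
  have hcont : Continuous (fun t => ‖(dl r)^[k] L t‖) := (dl_iter_continuous _ k hL).norm
  by_contra hne
  have hpos : 0 < ‖(dl r)^[k] L t‖ := norm_pos_iff.2 hne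
  have := intervalIntegral.integral_pos (a := t - ρ / 16) (b := t + ρ / 16) (f := fun t => ‖(dl r)^[k] L t‖)
    (by linarith) hcont.continuousOn (fun _ _ => norm_nonneg _) ⟨t, ⟨by linarith, by linarith⟩, hpos⟩
  rw [hzero _ _ (by linarith) (by linarith) (by linarith)] at this
  exact lt_irrefl _ this

end U506.RT
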