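import Pool.Agent.U506.RT.B

/-! Finite differences of Cauchy kernels, and the vanishing of the kernel integral. -/

set_option autoImplicit false
open MeasureTheory Set Filter Topology

namespace U506.RT

/-- Partial fractions: the `k`-th difference of `s ↦ 1/(A + s B)`. -/
lemma dl_kernel (A B : ℂ) (hD : ∀ s : ℝ, 0 ≤ s → A + s * B ≠ 0) (r : ℝ) (hr : 0 ≤ r) (k : ℕ) :
    ∀ t : ℝ, 0 ≤ t →
    (dl r)^[k] (fun s : ℝ => (A + ((max s 0 : ℝ) : ℂ) * B)⁻¹) t
      = (-1) ^ k * (k.factorial : ℂ) * ((r : ℂ) * B) ^ k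
        * ∏ j ∈ Finset.range (k + 1), (A + ((t + j * r : ℝ) : ℂ) * B)⁻¹ := by
  induction k with
  | zero =>
    intro t ht
    simp [max_eq_left ht]
  | succ k ih =>
    intro t ht
    rw [Function.iterate_succ', Function.comp_apply]
    unfold dl
    have e1 := ih t ht
    have e2 := ih (t + r) (by linarith)
    unfold dl at e1 e2
    rw [e1, e2]
    set P : ℂ := ∏ j ∈ Finset.range k, (A + ((t + (j + 1 : ℕ) * r : ℝ) : ℂ) * B)⁻¹ with hP
    have h1 : ∏ j ∈ Finset.range (k + 1), (A + ((t + r + j * r : ℝ) : ℂ) * B)⁻¹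
        = P * (A + ((t + (k + 1 : ℕ) * r : ℝ) : ℂ) * B)⁻¹ := by
      have e : ∀ j : ℕ, t + r + j * r = t + (j + 1 : ℕ) * r := by
        intro j; push_cast; ring
      simp_rw [e]
      rw [Finset.prod_range_succ]
    have h2 : ∏ j ∈ Finset.range (k + 1), (A + ((t + j * r : ℝ) : ℂ) * B)⁻¹
        = P * (A + (t : ℂ) * B)⁻¹ := by
      rw [Finset.prod_range_succ']
      simp [hP]
    have h3 : ∏ j ∈ Finset.range (k + 1 + 1), (A + ((t + j * r : ℝ) : ℂ) * B)⁻¹
        = P * (A + ((t + (k + 1 : ℕ) * r : ℝ) : ℂ) * B)⁻¹ * (A + (t : ℂ) * B)⁻¹ := by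
      rw [Finset.prod_range_succ', Finset.prod_range_succ]
      simp [hP]
    rw [h1, h2, h3]
    have n1 : A + (t : ℂ) * B ≠ 0 := hD t ht
    have n2 : A + ((t + (k + 1 : ℕ) * r : ℝ) : ℂ) * B ≠ 0 := hD _ (by positivity)
    have key : (A + ((t + (k + 1 : ℕ) * r : ℝ) : ℂ) * B)⁻¹ - (A + (t : ℂ) * B)⁻¹
        = -((k : ℂ) + 1) * (r * B) * ((A + ((t + (k + 1 : ℕ) * r : ℝ) : ℂ) * B)⁻¹
          * (A + (t : ℂ) * B)⁻¹) := by
      rw [← mul_inv, inv_sub_inv n2 n1, div_eq_mul_inv]
      congr 1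
      push_cast
      ring
    rw [Nat.factorial_succ]
    push_cast at key ⊢
    calc _ = (-1) ^ k * (k.factorial : ℂ) * ((r : ℂ) * B) ^ k * P
          * ((A + ((t : ℂ) + ((k : ℂ) + 1) * r) * B)⁻¹ - (A + (t : ℂ) * B)⁻¹) := by ring
      _ = _ := by rw [key]; ring

/-- Lower bound for the product of the shifted denominators. -/
lemma prod_lower (A B : ℂ) (ε : ℝ) (hε : 0 < ε) (hD : ∀ s : ℝ, 0 ≤ s → ε ≤ ‖A + s * B‖)
    (k : ℕ) (t r a : ℝ) (ht : 0 ≤ t) (hr : 0 < r) (ha1 : t ≤ a) (ha2 : a ≤ t + k * r) :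
    ε * (1 / (2 * k + 1)) ^ (k + 1) * ‖A + a * B‖ ^ k
      ≤ ∏ j ∈ Finset.range (k + 1), ‖A + ((t + j * r : ℝ) : ℂ) * B‖ := by
  set c : ℝ := 1 / (2 * k + 1) with hc
  have hk0 : (0:ℝ) ≤ k := Nat.cast_nonneg k
  have hc0 : 0 < c := by positivity
  have hc1 : c ≤ 1 := by
    rw [hc, div_le_one (by positivity)]; linarith
  have hck : (2 * k + 1) * c = 1 := by rw [hc]; field_simp
  set M : ℝ := ‖A + a * B‖ with hM
  have hM0 : ε ≤ M := hD a (by linarith)
  have hMpos : 0 < M := lt_of_lt_of_le hε hM0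
  have hrw : ε * c ^ (k + 1) * M ^ k = (c * ε) * (c * M) ^ k := by rw [mul_pow, pow_succ]; ring
  rw [hrw]
  -- difference estimates
  have hdiff : ∀ x y : ℝ, ‖A + (x : ℂ) * B‖ ≤ ‖A + (y : ℂ) * B‖ + |x - y| * ‖B‖ := by
    intro x y
    have : A + (x : ℂ) * B = (A + (y : ℂ) * B) + ((x - y : ℝ) : ℂ) * B := by push_cast; ring
    rw [this]
    refine (norm_add_le _ _).trans ?_
    rw [norm_mul, Complex.norm_real, Real.norm_eq_abs]
  have hdiff2 : ∀ x y : ℝ, |x - y| * ‖B‖ ≤ ‖A + (x : ℂ) * B‖ + ‖A + (y : ℂ) * B‖ := by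
    intro x y
    have : ((x - y : ℝ) : ℂ) * B = (A + (x : ℂ) * B) - (A + (y : ℂ) * B) := by push_cast; ring
    rw [← Real.norm_eq_abs, ← Complex.norm_real, ← norm_mul, this]
    exact norm_sub_le _ _
  by_cases h : ∃ j₀ ∈ Finset.range (k + 1), ‖A + ((t + j₀ * r : ℝ) : ℂ) * B‖ < c * M
  · obtain ⟨j₀, hj₀, hsmall⟩ := h
    rw [← Finset.mul_prod_erase _ _ hj₀]
    have h1 : c * ε ≤ ‖A + ((t + j₀ * r : ℝ) : ℂ) * B‖ := by
      have := hD (t + j₀ * r) (by positivity)
      nlinarith
    have h2 : (c * M) ^ k ≤ ∏ j ∈ (Finset.range (k + 1)).erase j₀,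
        ‖A + ((t + j * r : ℝ) : ℂ) * B‖ := by
      have hcard : ((Finset.range (k + 1)).erase j₀).card = k := by
        rw [Finset.card_erase_of_mem hj₀, Finset.card_range]; simp
      have hpc : (c * M) ^ k = ∏ _j ∈ (Finset.range (k + 1)).erase j₀, (c * M) := by
        rw [Finset.prod_const, hcard]
      rw [hpc]
      apply Finset.prod_le_prod
      · intro i _; positivity
      · intro j hj
        rw [Finset.mem_erase, Finset.mem_range] at hj
        obtain ⟨hjne, hjk⟩ := hj
        by_contra hlt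
        push Not at hlt
        -- two small denominators force `r ‖B‖` small
        have h3 := hdiff2 (t + j * r) (t + j₀ * r)
        have h4 : r * ‖B‖ ≤ |t + j * r - (t + j₀ * r)| * ‖B‖ := by
          apply mul_le_mul_of_nonneg_right _ (norm_nonneg _)
          have : t + j * r - (t + j₀ * r) = ((j:ℝ) - j₀) * r := by ring
          rw [this, abs_mul, abs_of_pos hr]
          have h5 : (1:ℝ) ≤ |(j:ℝ) - j₀| := by
            have : (1:ℤ) ≤ |(j:ℤ) - j₀| := by
              apply Int.one_le_abs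
              intro h0
              apply hjne
              omega
            have h6 : ((1:ℤ):ℝ) ≤ ((|(j:ℤ) - j₀| : ℤ) : ℝ) := by exact_mod_cast this
            push_cast at h6
            exact h6
          nlinarith
        have h7 : r * ‖B‖ < 2 * (c * M) := by linarith
        have h8 := hdiff a (t + j * r)
        have h9 : |a - (t + j * r)| * ‖B‖ ≤ k * (r * ‖B‖) := by
          have : |a - (t + j * r)| ≤ k * r := by
            have hjk' : (j:ℝ) ≤ k := by exact_mod_cast Nat.lt_succ_iff.1 hjk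
            have hj0 : (0:ℝ) ≤ j := Nat.cast_nonneg j
            have hjr : (j:ℝ) * r ≤ k * r := by nlinarith
            have hjr0 : 0 ≤ (j:ℝ) * r := by positivity
            rw [abs_le]; constructor <;> linarith
          nlinarith [norm_nonneg B]
        have h10 : (k:ℝ) * (r * ‖B‖) ≤ k * (2 * (c * M)) := by
          apply mul_le_mul_of_nonneg_left h7.le hk0
        have h11 : c * M + k * (2 * (c * M)) = M := by
          have : c * M + k * (2 * (c * M)) = ((2 * k + 1) * c) * M := by ring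
          rw [this, hck, one_mul]
        linarith
    exact mul_le_mul h1 h2 (by positivity) (norm_nonneg _)
  · push Not at h
    rw [Finset.prod_range_succ]
    have h2 : (c * M) ^ k ≤ ∏ j ∈ Finset.range k, ‖A + ((t + j * r : ℝ) : ℂ) * B‖ := by
      calc (c * M) ^ k = ∏ j ∈ Finset.range k, (c * M) := by simp
        _ ≤ _ := by
            apply Finset.prod_le_prod
            · intro i _; positivity
            · intro j hj
              exact h j (Finset.mem_range.2 (lt_trans (Finset.mem_range.1 hj) (Nat.lt_succ_self k)))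
    have h1 : c * ε ≤ ‖A + ((t + k * r : ℝ) : ℂ) * B‖ := by
      have := h k (Finset.self_mem_range_succ k)
      nlinarith
    rw [mul_comm (c * ε)]
    exact mul_le_mul h2 h1 (by positivity) (Finset.prod_nonneg (fun _ _ => norm_nonneg _))

/-- If the `k`-th differences vanish and the function tends to `0` at infinity, it vanishes. -/
lemma zero_of_diff (k : ℕ) (g : ℝ → ℂ) (hg : Tendsto g atTop (𝓝 0)) (t : ℝ)
    (h : ∀ r : ℝ, 0 < r → (dl r)^[k] g t = 0) : g t = 0 := by
  have hsum : ∀ r : ℝ, (dl r)^[k] g t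
      = ∑ j ∈ Finset.range (k + 1), ((-1 : ℤ) ^ (k - j) * k.choose j) • g (t + j • r) := by
    intro r
    exact fwdDiff_iter_eq_sum_shift r g k t
  have hlim : Tendsto (fun r : ℝ => ∑ j ∈ Finset.range (k + 1),
      ((-1 : ℤ) ^ (k - j) * k.choose j) • g (t + j • r)) atTop
      (𝓝 (∑ j ∈ Finset.range (k + 1), if j = 0 then ((-1 : ℤ) ^ k) • g t else 0)) := by
    apply tendsto_finset_sum
    intro j hj
    by_cases hj0 : j = 0
    · subst hj0
      simp
    · simp only [hj0, if_false]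
      have h1 : Tendsto (fun r : ℝ => t + j • r) atTop atTop := by
        apply tendsto_atTop_add_const_left
        have hjp : (0:ℝ) < j := by exact_mod_cast Nat.pos_of_ne_zero hj0
        have h3 : Tendsto (fun r : ℝ => (j:ℝ) * r) atTop atTop := tendsto_id.const_mul_atTop hjp
        refine h3.congr ?_
        intro r
        rw [nsmul_eq_mul]
      have h2 := (hg.comp h1).const_smul (((-1 : ℤ) ^ (k - j) * k.choose j))
      simpa using h2
  have hzero : Tendsto (fun r : ℝ => ∑ j ∈ Finset.range (k + 1),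
      ((-1 : ℤ) ^ (k - j) * k.choose j) • g (t + j • r)) atTop (𝓝 0) := by
    apply tendsto_const_nhds.congr'
    filter_upwards [eventually_gt_atTop (0:ℝ)] with r hr
    rw [← hsum r, h r hr]
  have := tendsto_nhds_unique hlim hzero
  rw [Finset.sum_ite_eq' ] at this
  simp only [Finset.mem_range, Nat.succ_pos, if_true] at this
  rcases neg_one_pow_eq_or ℤ k with h1 | h1 <;> rw [h1] at this <;> simpa using this

end U506.RT
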