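import Pool.Agent.U506.RT.C

/-! The abstract vanishing theorem. -/

set_option autoImplicit false
open MeasureTheory Set Filter Topology
open scoped ENNReal

namespace U506.RT

lemma dl_const_mul (r : ℝ) (n : ℕ) (c : ℂ) : ∀ (g : ℝ → ℂ) (t : ℝ),
    (dl r)^[n] (fun s => c * g s) t = c * (dl r)^[n] g t := by
  induction n with
  | zero => intro g t; rfl
  | succ n ih =>
    intro g t
    rw [Function.iterate_succ, Function.comp_apply, Function.comp_apply]
    have : dl r (fun s => c * g s) = fun s => c * dl r g s := by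
      funext s; simp only [dl]; ring
    rw [this, ih]

lemma dl_integral {X : Type*} [MeasurableSpace X] (μ : Measure X) (F : ℝ → X → ℂ)
    (hF : ∀ t, Integrable (F t) μ) (r : ℝ) (n : ℕ) : ∀ t : ℝ,
    Integrable (fun x => (dl r)^[n] (fun s => F s x) t) μ ∧
    (dl r)^[n] (fun s => ∫ x, F s x ∂μ) t = ∫ x, (dl r)^[n] (fun s => F s x) t ∂μ := by
  induction n with
  | zero => intro t; exact ⟨hF t, rfl⟩
  | succ n ih =>
    intro t
    have e : ∀ g : ℝ → ℂ, (dl r)^[n + 1] g t = (dl r)^[n] g (t + r) - (dl r)^[n] g t := by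
      intro g
      rw [Function.iterate_succ']
      rfl
    simp_rw [e]
    have h1 := ih (t + r)
    have h2 := ih t
    refine ⟨h1.1.sub h2.1, ?_⟩
    rw [integral_sub h1.1 h2.1, h1.2, h2.2]

theorem kernel_zero {X : Type*} [MeasurableSpace X] (μ : Measure X) (f A B : X → ℂ)
    (hf : AEStronglyMeasurable f μ) (hA : Measurable A) (hB : Measurable B)
    (ε : ℝ) (hε : 0 < ε) (hD : ∀ x, ∀ s : ℝ, 0 ≤ s → ε ≤ ‖A x + s * B x‖)
    (hBne : ∀ x, B x ≠ 0) (k : ℕ)
    (h1 : Integrable (fun x => f x / (B x) ^ k) μ)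
    (h2 : ∀ t : ℝ, 0 ≤ t → Integrable (fun x => f x / (A x + t * B x) ^ k) μ)
    (h3 : ∀ t : ℝ, 0 < t → ∫ x, f x / (A x + t * B x) ^ (k + 1) ∂μ = 0) :
    ∫ x, f x / ((B x) ^ k * A x) ∂μ = 0 := by
  have hDne : ∀ x, ∀ s : ℝ, 0 ≤ s → A x + s * B x ≠ 0 := by
    intro x s hs h
    have := hD x s hs
    rw [h, norm_zero] at this
    linarith
  set F : ℝ → X → ℂ := fun t x => f x / (B x) ^ k * (A x + ((max t 0 : ℝ) : ℂ) * B x)⁻¹ with hF
  have hFmeas : ∀ t, AEStronglyMeasurable (F t) μ := by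
    intro t
    apply h1.aestronglyMeasurable.mul
    exact ((hA.add (measurable_const.mul hB)).inv).aestronglyMeasurable
  have hFb : ∀ t x, ‖F t x‖ ≤ ‖f x / (B x) ^ k‖ * ε⁻¹ := by
    intro t x
    simp only [hF]
    rw [norm_mul, norm_inv]
    gcongr
    exact hD x _ (le_max_right _ _)
  have hFi : ∀ t, Integrable (F t) μ := fun t =>
    (h1.norm.mul_const ε⁻¹).mono' (hFmeas t) (Eventually.of_forall (hFb t))
  set L : ℝ → ℂ := fun t => ∫ x, F t x ∂μ with hL
  have hLc : Continuous L := by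
    apply continuous_of_dominated hFmeas (bound := fun x => ‖f x / (B x) ^ k‖ * ε⁻¹)
    · intro t; exact Eventually.of_forall (hFb t)
    · exact h1.norm.mul_const ε⁻¹
    · refine Eventually.of_forall (fun x => ?_)
      simp only [hF]
      apply continuous_const.mul
      apply Continuous.inv₀
      · exact continuous_const.add (((Complex.continuous_ofReal.comp
          (continuous_id.max continuous_const))).mul continuous_const)
      · intro t; exact hDne x _ (le_max_right _ _)
  -- the normalised difference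
  set G : ℝ → ℝ → X → ℂ := fun t r x =>
    f x * ∏ j ∈ Finset.range (k + 1), (A x + ((t + j * r : ℝ) : ℂ) * B x)⁻¹ with hG
  have hGmeas : ∀ t r, AEStronglyMeasurable (G t r) μ := by
    intro t r
    apply hf.mul
    apply Measurable.aestronglyMeasurable
    apply Finset.measurable_prod
    intro j _
    exact (hA.add (measurable_const.mul hB)).inv
  have hdiff : ∀ t r : ℝ, 0 ≤ t → 0 ≤ r →
      (dl r)^[k] L t = (-1) ^ k * (k.factorial : ℂ) * (r : ℂ) ^ k * ∫ x, G t r x ∂μ := by
    intro t r ht hr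
    rw [hL, (dl_integral μ F hFi r k t).2, ← integral_const_mul]
    congr 1
    funext x
    have e1 : (dl r)^[k] (fun s => F s x) t = f x / (B x) ^ k *
        (dl r)^[k] (fun s : ℝ => (A x + ((max s 0 : ℝ) : ℂ) * B x)⁻¹) t := by
      exact dl_const_mul r k (f x / (B x) ^ k) _ t
    rw [e1, dl_kernel (A x) (B x) (hDne x) r hr k t ht, hG]
    have hBk : (B x) ^ k ≠ 0 := pow_ne_zero _ (hBne x)
    simp only
    rw [mul_pow, div_mul_eq_mul_div, div_eq_iff hBk]
    ring
  set c : ℝ := ε * (1 / (2 * (k:ℝ) + 1)) ^ (k + 1) with hc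
  have hcpos : 0 < c := by positivity
  have hGb : ∀ t r a : ℝ, 0 ≤ t → 0 < r → t ≤ a → a ≤ t + k * r → ∀ x,
      ‖G t r x‖ ≤ c⁻¹ * ‖f x / (A x + a * B x) ^ k‖ := by
    intro t r a ht hr ha1 ha2 x
    have hlow := prod_lower (A x) (B x) ε hε (hD x) k t r a ht hr ha1 ha2
    have ha0 : 0 ≤ a := by linarith
    have hne : 0 < ‖A x + a * B x‖ := norm_pos_iff.2 (hDne x a ha0)
    simp only [hG]
    rw [norm_mul, norm_prod, norm_div, norm_pow]
    simp_rw [norm_inv]
    rw [Finset.prod_inv_distrib]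
    rw [← hc] at hlow
    have hp : 0 < c * ‖A x + a * B x‖ ^ k := by positivity
    calc ‖f x‖ * (∏ j ∈ Finset.range (k + 1), ‖A x + ((t + j * r : ℝ) : ℂ) * B x‖)⁻¹
        ≤ ‖f x‖ * (c * ‖A x + a * B x‖ ^ k)⁻¹ := by gcongr
      _ = c⁻¹ * (‖f x‖ / ‖A x + a * B x‖ ^ k) := by rw [mul_inv]; ring
  -- the closed sets
  set Kn : ℕ → Set ℝ := fun n =>
    {t | 0 ≤ t ∧ ∫⁻ x, ‖f x / (A x + t * B x) ^ k‖ₑ ∂μ ≤ n} with hKn
  have hclosed : ∀ n, IsClosed (Kn n) := by
    intro n
    apply IsSeqClosed.isClosed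
    intro u t hu hut
    have ht0 : 0 ≤ t := ge_of_tendsto' hut (fun i => (hu i).1)
    refine ⟨ht0, ?_⟩
    have hpt : ∀ x, Tendsto (fun i => ‖f x / (A x + (u i : ℂ) * B x) ^ k‖ₑ) atTop
        (𝓝 ‖f x / (A x + (t : ℂ) * B x) ^ k‖ₑ) := by
      intro x
      apply Tendsto.enorm
      apply Tendsto.div tendsto_const_nhds
      · apply Tendsto.pow
        exact tendsto_const_nhds.add
          (((Complex.continuous_ofReal.tendsto t).comp hut).mul tendsto_const_nhds)
      · exact pow_ne_zero _ (hDne x t ht0)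
    calc ∫⁻ x, ‖f x / (A x + t * B x) ^ k‖ₑ ∂μ
        = ∫⁻ x, liminf (fun i => ‖f x / (A x + (u i : ℂ) * B x) ^ k‖ₑ) atTop ∂μ := by
          congr 1; funext x; exact (hpt x).liminf_eq.symm
      _ ≤ liminf (fun i => ∫⁻ x, ‖f x / (A x + (u i : ℂ) * B x) ^ k‖ₑ ∂μ) atTop := by
          apply lintegral_liminf_le'
          intro i
          apply AEStronglyMeasurable.enorm
          exact (h2 (u i) (hu i).1).aestronglyMeasurable
      _ ≤ n := by
          apply liminf_le_of_frequently_le'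
          exact Frequently.of_forall (fun i => (hu i).2)
  have hcover : ∀ t, 0 < t → ∃ n, t ∈ Kn n := by
    intro t ht
    have hfin : ∫⁻ x, ‖f x / (A x + t * B x) ^ k‖ₑ ∂μ < ⊤ := (h2 t ht.le).hasFiniteIntegral
    obtain ⟨n, hn⟩ := ENNReal.exists_nat_gt hfin.ne
    exact ⟨n, ht.le, hn.le⟩
  have hnormdiff : ∀ t r : ℝ, 0 ≤ t → 0 < r →
      ‖(dl r)^[k] L t‖ = k.factorial * r ^ k * ‖∫ x, G t r x ∂μ‖ := by
    intro t r ht hr
    rw [hdiff t r ht hr.le]
    simp only [norm_mul, norm_pow, norm_neg, norm_one, one_pow, one_mul, Complex.norm_natCast,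
      Complex.norm_real, Real.norm_eq_abs, abs_of_pos hr]
  have hb : ∀ n, ∃ C : ℝ, ∀ a ∈ Kn n, ∀ t r : ℝ, 0 < t → 0 < r → t ≤ a → a ≤ t + k * r →
      ‖(dl r)^[k] L t‖ ≤ C * r ^ k := by
    intro n
    refine ⟨k.factorial * (c⁻¹ * n), ?_⟩
    intro a ha t r ht hr ha1 ha2
    rw [hnormdiff t r ht.le hr]
    have hi : ‖∫ x, G t r x ∂μ‖ ≤ c⁻¹ * n := by
      calc ‖∫ x, G t r x ∂μ‖ ≤ ∫ x, c⁻¹ * ‖f x / (A x + a * B x) ^ k‖ ∂μ := by
            apply norm_integral_le_of_norm_le ((h2 a ha.1).norm.const_mul _)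
            exact Eventually.of_forall (hGb t r a ht.le hr ha1 ha2)
        _ = c⁻¹ * ∫ x, ‖f x / (A x + a * B x) ^ k‖ ∂μ := by rw [integral_const_mul]
        _ ≤ c⁻¹ * n := by
            gcongr
            rw [integral_norm_eq_lintegral_enorm (h2 a ha.1).aestronglyMeasurable]
            have := ENNReal.toReal_mono (ENNReal.natCast_ne_top n) ha.2
            simpa using this
    calc (k.factorial : ℝ) * r ^ k * ‖∫ x, G t r x ∂μ‖ ≤ k.factorial * r ^ k * (c⁻¹ * n) := by gcongr
      _ = _ := by ring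
  have hlim : ∀ t, 0 < t → Tendsto (fun r => ‖(dl r)^[k] L t‖ / r ^ k) (𝓝[>] 0) (𝓝 0) := by
    intro t ht
    have hGlim : Tendsto (fun r => ∫ x, G t r x ∂μ) (𝓝[>] 0) (𝓝 0) := by
      have := tendsto_integral_filter_of_dominated_convergence (μ := μ) (l := 𝓝[>] (0:ℝ))
        (F := fun r x => G t r x) (f := fun x => f x / (A x + t * B x) ^ (k + 1))
        (fun x => c⁻¹ * ‖f x / (A x + t * B x) ^ k‖) ?_ ?_ ?_ ?_
      · rwa [h3 t ht] at this
      · exact Eventually.of_forall (fun r => hGmeas t r)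
      · filter_upwards [self_mem_nhdsWithin] with r hr
        have hr' : 0 < r := hr
        have hk0 : (0:ℝ) ≤ k := Nat.cast_nonneg k
        exact Eventually.of_forall (hGb t r t ht.le hr' le_rfl
          (by nlinarith))
      · exact (h2 t ht.le).norm.const_mul _
      · refine Eventually.of_forall (fun x => ?_)
        have hcont : ContinuousAt (fun r : ℝ => G t r x) 0 := by
          simp only [hG]
          apply ContinuousAt.mul continuousAt_const
          apply tendsto_finset_prod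
          intro j _
          apply ContinuousAt.inv₀
          · fun_prop
          · simp only [mul_zero, add_zero]; exact hDne x t ht.le
        have h0 : G t 0 x = f x / (A x + t * B x) ^ (k + 1) := by
          simp [hG, div_eq_mul_inv]
        rw [← h0]
        exact hcont.tendsto.mono_left nhdsWithin_le_nhds
    have hGn : Tendsto (fun r => (k.factorial : ℝ) * ‖∫ x, G t r x ∂μ‖) (𝓝[>] 0) (𝓝 0) := by
      have := (hGlim.norm).const_mul (k.factorial : ℝ)
      simpa using this
    refine hGn.congr' ?_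
    filter_upwards [self_mem_nhdsWithin] with r hr
    have hr' : 0 < r := hr
    rw [hnormdiff t r ht.le hr']
    field_simp
  have hall := baire_diff k L hLc Kn hclosed hcover hb hlim
  -- limit at infinity
  have hinf : Tendsto L atTop (𝓝 0) := by
    have := tendsto_integral_filter_of_dominated_convergence (μ := μ) (l := (atTop : Filter ℝ))
      (F := F) (f := fun _ => (0:ℂ)) (fun x => ‖f x / (B x) ^ k‖ * ε⁻¹)
      (Eventually.of_forall hFmeas) (Eventually.of_forall (fun t => Eventually.of_forall (hFb t)))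
      (h1.norm.mul_const ε⁻¹) ?_
    · simpa using this
    · refine Eventually.of_forall (fun x => ?_)
      have h0 : (0:ℂ) = f x / (B x) ^ k * 0 := by ring
      rw [h0]
      apply Tendsto.mul tendsto_const_nhds
      apply Filter.Tendsto.comp tendsto_inv₀_cobounded
      rw [← tendsto_norm_atTop_iff_cobounded]
      have hBn : 0 < ‖B x‖ := norm_pos_iff.2 (hBne x)
      have hlow : ∀ t : ℝ, 0 ≤ t → t * ‖B x‖ - ‖A x‖ ≤ ‖A x + ((max t 0 : ℝ) : ℂ) * B x‖ := by
        intro t ht
        rw [max_eq_left ht]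
        have h5 : t * ‖B x‖ = ‖((t : ℝ) : ℂ) * B x‖ := by
          rw [norm_mul, Complex.norm_real, Real.norm_eq_abs, abs_of_nonneg ht]
        have h7 := norm_sub_le (A x + (t : ℂ) * B x) (A x)
        rw [add_sub_cancel_left] at h7
        linarith
      have h6 : Tendsto (fun t : ℝ => t * ‖B x‖ - ‖A x‖) atTop atTop := by
        apply tendsto_atTop_add_const_right
        exact tendsto_id.atTop_mul_const hBn
      apply tendsto_atTop_mono' _ _ h6
      filter_upwards [eventually_ge_atTop (0:ℝ)] with t ht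
      exact hlow t ht
  have hzero : ∀ t, 0 < t → L t = 0 := fun t ht =>
    zero_of_diff k L hinf t (fun r hr => hall t r ht hr)
  have hL0 : L 0 = 0 := by
    have h5 : Tendsto L (𝓝[>] 0) (𝓝 (L 0)) := hLc.continuousAt.tendsto.mono_left nhdsWithin_le_nhds
    have h6 : Tendsto L (𝓝[>] 0) (𝓝 0) := by
      apply tendsto_const_nhds.congr'
      filter_upwards [self_mem_nhdsWithin] with t ht
      exact (hzero t ht).symm
    exact tendsto_nhds_unique h5 h6
  rw [← hL0, hL]
  simp only [hF]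
  congr 1
  funext x
  rw [max_self, Complex.ofReal_zero, zero_mul, add_zero, div_mul_eq_div_div,
    div_eq_mul_inv (f x / B x ^ k)]

end U506.RT
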