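import Pool.Agent.U506.RT.D

/-! The kernel integrals on the plane. -/

set_option autoImplicit false
open MeasureTheory Set Filter Topology

namespace U506.RT

lemma norm_sub_lower (v : ℝ) (z : ℂ) (hz : z.im ≠ 0) :
    (1 + (1 + ‖z‖) / |z.im|)⁻¹ * (1 + |v|) ≤ ‖(v : ℂ) - z‖ := by
  have him : 0 < |z.im| := abs_pos.2 hz
  have h1 : |z.im| ≤ ‖(v : ℂ) - z‖ := by
    have := Complex.abs_im_le_norm ((v : ℂ) - z)
    simpa using this
  have h2 : |v| ≤ ‖(v : ℂ) - z‖ + ‖z‖ := by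
    have := norm_add_le ((v : ℂ) - z) z
    rw [sub_add_cancel, Complex.norm_real, Real.norm_eq_abs] at this
    exact this
  rw [inv_mul_le_iff₀ (by positivity)]
  have h3 : 1 + ‖z‖ ≤ (1 + ‖z‖) / |z.im| * ‖(v : ℂ) - z‖ := by
    rw [div_mul_eq_mul_div, le_div_iff₀ him]
    gcongr
  nlinarith

lemma integrable_div_pow {f : ℝ × ℝ → ℝ} (hf : Measurable f) (q : ℝ × ℝ → ℝ) (hq : Measurable q)
    (k : ℕ) (h : Integrable (fun x => f x / (1 + |q x|) ^ k)) (z : ℂ) (hz : z.im ≠ 0) :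
    Integrable (fun x => (f x : ℂ) / ((q x : ℂ) - z) ^ k) := by
  have him : 0 < |z.im| := abs_pos.2 hz
  set C : ℝ := (1 + (1 + ‖z‖) / |z.im|) with hC
  have hCpos : 0 < C := by positivity
  apply Integrable.mono' (h.norm.const_mul (C ^ k))
  · exact (((Complex.measurable_ofReal.comp hf)).div
      (((Complex.measurable_ofReal.comp hq).sub measurable_const).pow_const k)).aestronglyMeasurable
  · refine Eventually.of_forall (fun x => ?_)
    have h1 := norm_sub_lower (q x) z hz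
    rw [← hC] at h1
    have h2 : 0 < 1 + |q x| := by positivity
    have h3 : 0 < ‖(q x : ℂ) - z‖ := lt_of_lt_of_le (by positivity) h1
    rw [norm_div, norm_pow, Complex.norm_real, norm_div, norm_pow, Real.norm_of_nonneg h2.le]
    rw [div_le_iff₀ (by positivity)]
    have h4 : (1 + |q x|) ^ k ≤ C ^ k * ‖(q x : ℂ) - z‖ ^ k := by
      rw [← mul_pow]
      gcongr
      rw [inv_mul_le_iff₀ hCpos] at h1
      exact h1
    have h5 : 0 < (1 + |q x|) ^ k := by positivity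
    calc ‖f x‖ = ‖f x‖ / (1 + |q x|) ^ k * (1 + |q x|) ^ k := by field_simp
      _ ≤ ‖f x‖ / (1 + |q x|) ^ k * (C ^ k * ‖(q x : ℂ) - z‖ ^ k) := by gcongr
      _ = _ := by ring

/-- The main vanishing statement on the plane. -/
theorem star (f : ℝ × ℝ → ℝ) (hf : Measurable f) (k : ℕ)
    (H1 : ∀ t : ℝ, Integrable (fun x : ℝ × ℝ => f x / (1 + |x.1 + t * x.2|) ^ k))
    (H2 : Integrable (fun x : ℝ × ℝ => f x / (1 + |x.2|) ^ k))
    (H3 : ∀ t : ℝ, ∀ z : ℂ, z.im ≠ 0 →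
      ∫ x : ℝ × ℝ, (f x : ℂ) / (((x.1 + t * x.2 : ℝ) : ℂ) - z) ^ (k + 1) = 0)
    (z₁ z₂ : ℂ) (hz₁ : z₁.im ≠ 0) (hz₂ : z₂.im ≠ 0) :
    ∫ x : ℝ × ℝ, (f x : ℂ) / (((x.2 : ℂ) - z₂) ^ k * ((x.1 : ℂ) - z₁)) = 0 := by
  -- the sign
  obtain ⟨σ, hσ, hσ2⟩ : ∃ σ : ℝ, σ ≠ 0 ∧ ∀ s : ℝ, 0 ≤ s →
      |z₁.im| ≤ |(z₁ + ((s * σ : ℝ) : ℂ) * z₂).im| := by
    rcases lt_or_gt_of_ne hz₁ with h1 | h1 <;> rcases lt_or_gt_of_ne hz₂ with h2 | h2
    · refine ⟨1, one_ne_zero, fun s hs => ?_⟩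
      simp only [Complex.add_im, Complex.re_ofReal_mul, Complex.im_ofReal_mul]
      rw [abs_of_neg h1, abs_of_neg (by nlinarith)]
      nlinarith
    · refine ⟨-1, by norm_num, fun s hs => ?_⟩
      simp only [Complex.add_im, Complex.im_ofReal_mul]
      rw [abs_of_neg h1, abs_of_neg (by nlinarith)]
      nlinarith
    · refine ⟨-1, by norm_num, fun s hs => ?_⟩
      simp only [Complex.add_im, Complex.im_ofReal_mul]
      rw [abs_of_pos h1, abs_of_pos (by nlinarith)]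
      nlinarith
    · refine ⟨1, one_ne_zero, fun s hs => ?_⟩
      simp only [Complex.add_im, Complex.im_ofReal_mul]
      rw [abs_of_pos h1, abs_of_pos (by nlinarith)]
      nlinarith
  have hσc : (σ : ℂ) ≠ 0 := by exact_mod_cast hσ
  have hne2 : ∀ x : ℝ × ℝ, (x.2 : ℂ) - z₂ ≠ 0 := by
    intro x h
    apply hz₂
    have := congrArg Complex.im h
    simpa using this
  have hid : ∀ (x : ℝ × ℝ) (s : ℝ), ((x.1 : ℂ) - z₁) + (s : ℂ) * ((σ : ℂ) * ((x.2 : ℂ) - z₂))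
      = ((x.1 + (s * σ) * x.2 : ℝ) : ℂ) - (z₁ + ((s * σ : ℝ) : ℂ) * z₂) := by
    intro x s; push_cast; ring
  have hbig : ∀ s : ℝ, 0 ≤ s → (z₁ + ((s * σ : ℝ) : ℂ) * z₂).im ≠ 0 := by
    intro s hs h
    have := hσ2 s hs
    rw [h, abs_zero] at this
    exact hz₁ (abs_eq_zero.1 (le_antisymm this (abs_nonneg _)))
  have main := kernel_zero (volume : Measure (ℝ × ℝ)) (fun x => (f x : ℂ))
    (fun x => (x.1 : ℂ) - z₁) (fun x => (σ : ℂ) * ((x.2 : ℂ) - z₂))
    (Complex.measurable_ofReal.comp hf).aestronglyMeasurable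
    ((Complex.measurable_ofReal.comp measurable_fst).sub measurable_const)
    (measurable_const.mul ((Complex.measurable_ofReal.comp measurable_snd).sub measurable_const))
    |z₁.im| (abs_pos.2 hz₁) ?_ ?_ k ?_ ?_ ?_
  · have e : ∀ x : ℝ × ℝ, (f x : ℂ) / (((x.2 : ℂ) - z₂) ^ k * ((x.1 : ℂ) - z₁))
        = (σ : ℂ) ^ k * ((f x : ℂ) / (((σ : ℂ) * ((x.2 : ℂ) - z₂)) ^ k * ((x.1 : ℂ) - z₁))) := by
      intro x
      have h1 : (x.1 : ℂ) - z₁ ≠ 0 := by
        intro h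
        apply hz₁
        have := congrArg Complex.im h
        simpa using this
      have h2 := hne2 x
      rw [mul_pow]
      field_simp
    simp_rw [e]
    rw [integral_const_mul, main, mul_zero]
  · intro x s hs
    rw [hid]
    have h1 := hσ2 s hs
    have h2 := Complex.abs_im_le_norm
      (((x.1 + (s * σ) * x.2 : ℝ) : ℂ) - (z₁ + ((s * σ : ℝ) : ℂ) * z₂))
    rw [Complex.sub_im, Complex.ofReal_im, zero_sub, abs_neg] at h2
    exact h1.trans h2
  · intro x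
    exact mul_ne_zero hσc (hne2 x)
  · have h := (integrable_div_pow hf (fun x => x.2) measurable_snd k H2 z₂ hz₂).const_mul
      (((σ : ℂ) ^ k)⁻¹)
    refine h.congr (Eventually.of_forall (fun x => ?_))
    simp only
    rw [mul_pow, div_eq_mul_inv, div_eq_mul_inv, mul_inv]
    ring
  · intro t ht
    have h := integrable_div_pow hf (fun x => x.1 + (t * σ) * x.2) (by fun_prop) k (H1 (t * σ))
      (z₁ + ((t * σ : ℝ) : ℂ) * z₂) (hbig t ht)
    refine h.congr (Eventually.of_forall (fun x => ?_))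
    simp only
    rw [hid]
  · intro t ht
    simp_rw [hid]
    exact H3 (t * σ) _ (hbig t ht.le)

end U506.RT
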