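import Pool.Agent.U506.RT.E

/-! Uniqueness for Cauchy-type integrals. -/

set_option autoImplicit false
open MeasureTheory Set Filter Topology

namespace U506.RT

variable {α : Type*} [MeasurableSpace α]

lemma integrable_cauchy {μ : Measure α} {W : α → ℂ} (hW : Integrable W μ) {q : α → ℝ}
    (hq : Measurable q) (j : ℕ) (z : ℂ) (hz : z.im ≠ 0) :
    Integrable (fun x => W x / ((q x : ℂ) - z) ^ j) μ := by
  have him : 0 < |z.im| := abs_pos.2 hz
  have h : Integrable (fun x => (((q x : ℂ) - z) ^ j)⁻¹ * W x) μ := by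
    refine Integrable.bdd_mul (c := (|z.im| ^ j)⁻¹) hW ?_ ?_
    · exact (((Complex.measurable_ofReal.comp hq).sub measurable_const).pow_const j).inv.aestronglyMeasurable
    · refine Eventually.of_forall (fun x => ?_)
      have h1 : |z.im| ≤ ‖(q x : ℂ) - z‖ := by
        have := Complex.abs_im_le_norm ((q x : ℂ) - z)
        simpa using this
      rw [norm_inv, norm_pow]
      gcongr
  refine h.congr (Eventually.of_forall (fun x => ?_))
  simp only [div_eq_mul_inv]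
  ring

lemma descent {μ : Measure α} {W : α → ℂ} (hW : Integrable W μ) {q : α → ℝ}
    (hq : Measurable q) (j : ℕ) (hj : 1 ≤ j)
    (H : ∀ z : ℂ, z.im ≠ 0 → ∫ x, W x / ((q x : ℂ) - z) ^ (j + 1) ∂μ = 0)
    (z : ℂ) (hz : z.im ≠ 0) :
    ∫ x, W x / ((q x : ℂ) - z) ^ j ∂μ = 0 := by
  -- the path
  set w : ℝ → ℂ := fun τ => (z.re : ℂ) + ((z.im * Real.exp τ : ℝ) : ℂ) * Complex.I with hw
  have hwim : ∀ τ, (w τ).im = z.im * Real.exp τ := by
    intro τ
    simp only [hw, Complex.add_im, Complex.ofReal_im, Complex.im_ofReal_mul, Complex.I_im, mul_one,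
      zero_add]
  have hwne : ∀ τ, (w τ).im ≠ 0 := by
    intro τ
    rw [hwim]
    exact mul_ne_zero hz (Real.exp_pos τ).ne'
  have hsub : ∀ τ x, |z.im| * Real.exp τ ≤ ‖(q x : ℂ) - w τ‖ := by
    intro τ x
    have := Complex.abs_im_le_norm ((q x : ℂ) - w τ)
    rw [Complex.sub_im, hwim, Complex.ofReal_im, zero_sub, abs_neg, abs_mul,
      abs_of_pos (Real.exp_pos τ)] at this
    exact this
  have him : 0 < |z.im| := abs_pos.2 hz
  have hne : ∀ τ x, (q x : ℂ) - w τ ≠ 0 := by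
    intro τ x h
    have := hsub τ x
    rw [h, norm_zero] at this
    have h2 := mul_pos him (Real.exp_pos τ)
    linarith
  have hw' : ∀ τ, HasDerivAt w (((z.im * Real.exp τ : ℝ) : ℂ) * Complex.I) τ := by
    intro τ
    have h1 : HasDerivAt (fun τ : ℝ => z.im * Real.exp τ) (z.im * Real.exp τ) τ :=
      (Real.hasDerivAt_exp τ).const_mul _
    have h2 := h1.ofReal_comp
    exact (h2.mul_const Complex.I).const_add _
  set F : ℝ → α → ℂ := fun τ x => W x / ((q x : ℂ) - w τ) ^ j with hF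
  set F' : ℝ → α → ℂ := fun τ x => ((j : ℂ) * (((z.im * Real.exp τ : ℝ) : ℂ) * Complex.I)) *
    (W x / ((q x : ℂ) - w τ) ^ (j + 1)) with hF'
  have hFi : ∀ τ, Integrable (F τ) μ := fun τ => integrable_cauchy hW hq j (w τ) (hwne τ)
  have hF'i : ∀ τ, Integrable (F' τ) μ := fun τ =>
    (integrable_cauchy hW hq (j + 1) (w τ) (hwne τ)).const_mul _
  have hF'0 : ∀ τ, ∫ x, F' τ x ∂μ = 0 := by
    intro τ
    simp only [hF']
    rw [integral_const_mul, H (w τ) (hwne τ), mul_zero]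
  have hder : ∀ τ x, HasDerivAt (fun τ => F τ x) (F' τ x) τ := by
    intro τ x
    have h1 : HasDerivAt (fun τ => (q x : ℂ) - w τ) (-(((z.im * Real.exp τ : ℝ) : ℂ) * Complex.I)) τ :=
      (hw' τ).const_sub _
    have h2 : HasDerivAt (fun τ => ((q x : ℂ) - w τ) ^ j)
        ((j : ℂ) * ((q x : ℂ) - w τ) ^ (j - 1) * (-(((z.im * Real.exp τ : ℝ) : ℂ) * Complex.I))) τ :=
      h1.pow j
    have h3 := (h2.fun_inv (pow_ne_zero j (hne τ x))).const_mul (W x)
    have h4 : (fun τ => W x * (((q x : ℂ) - w τ) ^ j)⁻¹) = fun τ => F τ x := by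
      funext τ
      simp only [hF, div_eq_mul_inv]
    rw [h4] at h3
    have h5 : F' τ x = W x * (-((j : ℂ) * ((q x : ℂ) - w τ) ^ (j - 1) *
        (-(((z.im * Real.exp τ : ℝ) : ℂ) * Complex.I))) / (((q x : ℂ) - w τ) ^ j) ^ 2) := by
      have h6 := hne τ x
      have h7 : ((q x : ℂ) - w τ) ^ j = ((q x : ℂ) - w τ) ^ (j - 1) * ((q x : ℂ) - w τ) := by
        rw [← pow_succ]
        congr 1
        omega
      have h8 : ((q x : ℂ) - w τ) ^ (j + 1) =
          ((q x : ℂ) - w τ) ^ (j - 1) * ((q x : ℂ) - w τ) * ((q x : ℂ) - w τ) := by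
        rw [pow_succ, h7]
      simp only [hF']
      rw [h8, h7]
      have h9 : ((q x : ℂ) - w τ) ^ (j - 1) ≠ 0 := pow_ne_zero _ h6
      generalize ((q x : ℂ) - w τ) ^ (j - 1) = A at *
      generalize ((q x : ℂ) - w τ) = B at *
      field_simp
    rw [h5]
    exact h3
  have hbd : ∀ τ₀ τ x, τ ∈ Metric.ball τ₀ (1 : ℝ) →
      ‖F' τ x‖ ≤ (j : ℝ) * ((|z.im| * Real.exp (τ₀ - 1)) ^ j)⁻¹ * ‖W x‖ := by
    intro τ₀ τ x hτ
    have h1 : τ₀ - 1 ≤ τ := by
      rw [Metric.mem_ball, Real.dist_eq, abs_lt] at hτ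
      linarith [hτ.1]
    have h2 : Real.exp (τ₀ - 1) ≤ Real.exp τ := Real.exp_le_exp.2 h1
    have h3 := hsub τ x
    have h4 : 0 < |z.im| * Real.exp τ := mul_pos him (Real.exp_pos τ)
    have h5 : 0 < |z.im| * Real.exp (τ₀ - 1) := mul_pos him (Real.exp_pos _)
    have h6 : 0 < ‖(q x : ℂ) - w τ‖ := lt_of_lt_of_le h4 h3
    simp only [hF', norm_mul, norm_div, norm_pow, Complex.norm_I, Complex.norm_real,
      Complex.norm_natCast, mul_one, Real.norm_eq_abs]
    rw [abs_of_pos (Real.exp_pos τ), pow_succ]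
    have h7 : |z.im| * Real.exp τ * (‖W x‖ / (‖(q x : ℂ) - w τ‖ ^ j * ‖(q x : ℂ) - w τ‖)) ≤
        ((|z.im| * Real.exp (τ₀ - 1)) ^ j)⁻¹ * ‖W x‖ := by
      rw [← mul_div_assoc, div_le_iff₀ (by positivity)]
      have h8 : ((|z.im| * Real.exp (τ₀ - 1)) ^ j)⁻¹ * ‖W x‖ *
          (‖(q x : ℂ) - w τ‖ ^ j * ‖(q x : ℂ) - w τ‖) =
          (((|z.im| * Real.exp (τ₀ - 1)) ^ j)⁻¹ * ‖(q x : ℂ) - w τ‖ ^ j) *
            (‖(q x : ℂ) - w τ‖ * ‖W x‖) := by ring
      rw [h8]
      have h9 : 1 ≤ ((|z.im| * Real.exp (τ₀ - 1)) ^ j)⁻¹ * ‖(q x : ℂ) - w τ‖ ^ j := by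
        rw [← inv_pow, ← mul_pow]
        apply one_le_pow₀
        rw [← div_eq_inv_mul, le_div_iff₀ h5, one_mul]
        calc |z.im| * Real.exp (τ₀ - 1) ≤ |z.im| * Real.exp τ := by gcongr
          _ ≤ _ := h3
      calc |z.im| * Real.exp τ * ‖W x‖ ≤ ‖(q x : ℂ) - w τ‖ * ‖W x‖ := by gcongr
        _ = 1 * (‖(q x : ℂ) - w τ‖ * ‖W x‖) := by ring
        _ ≤ _ := by gcongr
    calc _ = (j : ℝ) * (|z.im| * Real.exp τ * (‖W x‖ / (‖(q x : ℂ) - w τ‖ ^ j * ‖(q x : ℂ) - w τ‖))) := by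
          ring
      _ ≤ (j : ℝ) * (((|z.im| * Real.exp (τ₀ - 1)) ^ j)⁻¹ * ‖W x‖) := by gcongr
      _ = _ := by ring
  have hG : ∀ τ₀, HasDerivAt (fun τ => ∫ x, F τ x ∂μ) 0 τ₀ := by
    intro τ₀
    have := (hasDerivAt_integral_of_dominated_loc_of_deriv_le (μ := μ) (F := F) (F' := F') (x₀ := τ₀)
      (s := Metric.ball τ₀ 1) (bound := fun x => (j : ℝ) * ((|z.im| * Real.exp (τ₀ - 1)) ^ j)⁻¹ * ‖W x‖)
      (Metric.ball_mem_nhds τ₀ one_pos)
      (Eventually.of_forall (fun τ => (hFi τ).aestronglyMeasurable)) (hFi τ₀)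
      (hF'i τ₀).aestronglyMeasurable
      (Eventually.of_forall (fun x τ hτ => hbd τ₀ τ x hτ))
      (hW.norm.const_mul _)
      (Eventually.of_forall (fun x τ _ => hder τ x))).2
    rw [hF'0] at this
    exact this
  have hconst : ∀ τ, ∫ x, F τ x ∂μ = ∫ x, F 0 x ∂μ := fun τ =>
    is_const_of_deriv_eq_zero (fun τ => (hG τ).differentiableAt) (fun τ => (hG τ).deriv) τ 0
  have hlim : Tendsto (fun n : ℕ => ∫ x, F (n : ℝ) x ∂μ) atTop (𝓝 (∫ x, (0 : ℂ) ∂μ)) := by
    refine tendsto_integral_of_dominated_convergence (fun x => ((|z.im|) ^ j)⁻¹ * ‖W x‖)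
      (fun n => (hFi n).aestronglyMeasurable) (hW.norm.const_mul _) ?_ ?_
    · intro n
      refine Eventually.of_forall (fun x => ?_)
      have h3 := hsub n x
      have h4 : |z.im| ≤ |z.im| * Real.exp n := by
        have : 1 ≤ Real.exp n := Real.one_le_exp (Nat.cast_nonneg n)
        nlinarith
      simp only [hF, norm_div, norm_pow]
      rw [div_eq_inv_mul]
      gcongr
      linarith
    · refine Eventually.of_forall (fun x => ?_)
      rw [tendsto_zero_iff_norm_tendsto_zero]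
      have hb : ∀ n : ℕ, ‖F n x‖ ≤ (‖W x‖ * (|z.im| ^ j)⁻¹) * (Real.exp (n : ℝ))⁻¹ := by
        intro n
        have h3 := hsub n x
        have h1 : 1 ≤ Real.exp n := Real.one_le_exp (Nat.cast_nonneg n)
        simp only [hF, norm_div, norm_pow]
        rw [div_eq_mul_inv, mul_assoc, ← mul_inv]
        gcongr
        calc |z.im| ^ j * Real.exp n ≤ |z.im| ^ j * (Real.exp n) ^ j := by
              gcongr
              exact le_self_pow₀ h1 (by omega)
          _ = (|z.im| * Real.exp n) ^ j := by rw [mul_pow]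
          _ ≤ _ := by gcongr
      have hlim0 : Tendsto (fun n : ℕ => (‖W x‖ * (|z.im| ^ j)⁻¹) * (Real.exp (n : ℝ))⁻¹) atTop
          (𝓝 ((‖W x‖ * (|z.im| ^ j)⁻¹) * 0)) := by
        apply Tendsto.const_mul
        exact (Real.tendsto_exp_atTop.comp tendsto_natCast_atTop_atTop).inv_tendsto_atTop
      rw [mul_zero] at hlim0
      exact squeeze_zero (fun n => norm_nonneg _) hb hlim0
  rw [integral_zero] at hlim
  have h0 : ∫ x, F 0 x ∂μ = 0 := by
    have h1 : Tendsto (fun n : ℕ => ∫ x, F (n : ℝ) x ∂μ) atTop (𝓝 (∫ x, F 0 x ∂μ)) := by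
      have : (fun n : ℕ => ∫ x, F (n : ℝ) x ∂μ) = fun _ => ∫ x, F 0 x ∂μ := by
        funext n
        exact hconst n
      rw [this]
      exact tendsto_const_nhds
    exact tendsto_nhds_unique h1 hlim
  have hw0 : w 0 = z := by
    simp only [hw, Real.exp_zero, mul_one]
    exact Complex.re_add_im z
  simpa only [hF, hw0] using h0

lemma descent_all {μ : Measure α} {W : α → ℂ} (hW : Integrable W μ) {q : α → ℝ}
    (hq : Measurable q) (j : ℕ)
    (H : ∀ z : ℂ, z.im ≠ 0 → ∫ x, W x / ((q x : ℂ) - z) ^ (j + 1) ∂μ = 0)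
    (z : ℂ) (hz : z.im ≠ 0) :
    ∫ x, W x / ((q x : ℂ) - z) ∂μ = 0 := by
  induction j with
  | zero => simpa using H z hz
  | succ j ih =>
    apply ih
    intro z hz
    exact descent hW hq (j + 1) (by omega) H z hz

end U506.RT
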