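import Pool.Agent.U506.RT.F

/-! Poisson test functions. -/

set_option autoImplicit false
open MeasureTheory Set Filter Topology

namespace U506.RT

variable {α : Type*} [MeasurableSpace α]

lemma poisson_point {μ : Measure α} {W : α → ℂ} (hW : Integrable W μ) {q : α → ℝ}
    (hq : Measurable q)
    (H : ∀ z : ℂ, z.im ≠ 0 → ∫ x, W x / ((q x : ℂ) - z) ∂μ = 0) (c : ℝ) (hc : 0 < c) (a : ℝ) :
    ∫ x, W x * ((c / (1 + (c * (q x - a)) ^ 2) : ℝ) : ℂ) ∂μ = 0 := by
  set z₁ : ℂ := (a : ℂ) + ((c⁻¹ : ℝ) : ℂ) * Complex.I with hz₁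
  set z₂ : ℂ := (a : ℂ) - ((c⁻¹ : ℝ) : ℂ) * Complex.I with hz₂
  have him₁ : z₁.im = c⁻¹ := by
    simp only [hz₁, Complex.add_im, Complex.ofReal_im, Complex.im_ofReal_mul, Complex.I_im, mul_one,
      zero_add]
  have him₂ : z₂.im = -c⁻¹ := by
    simp only [hz₂, Complex.sub_im, Complex.ofReal_im, Complex.im_ofReal_mul, Complex.I_im, mul_one,
      zero_sub]
  have hcinv : 0 < c⁻¹ := inv_pos.2 hc
  have hne₁ : z₁.im ≠ 0 := by rw [him₁]; exact hcinv.ne'
  have hne₂ : z₂.im ≠ 0 := by rw [him₂]; exact (neg_neg_of_pos hcinv).ne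
  have hi₁ := integrable_cauchy hW hq 1 z₁ hne₁
  have hi₂ := integrable_cauchy hW hq 1 z₂ hne₂
  simp only [pow_one] at hi₁ hi₂
  have key : ∀ x, W x * ((c / (1 + (c * (q x - a)) ^ 2) : ℝ) : ℂ) =
      (1 / (2 * Complex.I)) * (W x / ((q x : ℂ) - z₁) - W x / ((q x : ℂ) - z₂)) := by
    intro x
    have h1 : (q x : ℂ) - z₁ ≠ 0 := by
      intro h
      have := congrArg Complex.im h
      rw [Complex.sub_im, Complex.ofReal_im, him₁, zero_sub, Complex.zero_im] at this
      linarith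
    have h2 : (q x : ℂ) - z₂ ≠ 0 := by
      intro h
      have := congrArg Complex.im h
      rw [Complex.sub_im, Complex.ofReal_im, him₂, zero_sub, Complex.zero_im] at this
      linarith
    have hcc : (c : ℂ) ≠ 0 := by exact_mod_cast hc.ne'
    have h3 : ((q x : ℂ) - z₁) * ((q x : ℂ) - z₂) =
        (1 + ((c : ℂ) * ((q x : ℂ) - a)) ^ 2) / (c : ℂ) ^ 2 := by
      rw [hz₁, hz₂]
      push_cast
      field_simp
      ring_nf
      rw [Complex.I_sq]
      ring
    have h4 : W x / ((q x : ℂ) - z₁) - W x / ((q x : ℂ) - z₂) =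
        W x * (z₁ - z₂) / (((q x : ℂ) - z₁) * ((q x : ℂ) - z₂)) := by
      field_simp
      ring
    have h5 : z₁ - z₂ = 2 * Complex.I / c := by
      rw [hz₁, hz₂]
      push_cast
      field_simp
      ring
    have h6 : (1 + ((c : ℂ) * ((q x : ℂ) - a)) ^ 2) ≠ 0 := by
      have : (0:ℝ) < 1 + (c * (q x - a)) ^ 2 := by positivity
      intro h
      have h7 : (((1 + (c * (q x - a)) ^ 2 : ℝ)) : ℂ) = 0 := by
        push_cast
        exact h
      rw [Complex.ofReal_eq_zero] at h7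
      linarith
    rw [h4, h3, h5]
    push_cast
    field_simp
  simp_rw [key]
  rw [integral_const_mul, integral_sub hi₁ hi₂, H z₁ hne₁, H z₂ hne₂]
  simp

lemma poisson_subst (φ : ℝ → ℝ) (c : ℝ) (hc : 0 < c) (u : ℝ) :
    ∫ a : ℝ, ((φ a * (c / (1 + (c * (u - a)) ^ 2)) : ℝ) : ℂ) =
      ∫ s : ℝ, ((φ (u - s / c) * (1 + s ^ 2)⁻¹ : ℝ) : ℂ) := by
  have h1 : ∫ a : ℝ, ((φ a * (c / (1 + (c * (u - a)) ^ 2)) : ℝ) : ℂ) =
      ∫ a : ℝ, ((φ (u - a) * (c / (1 + (c * a) ^ 2)) : ℝ) : ℂ) := by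
    rw [← integral_sub_left_eq_self
      (fun a : ℝ => ((φ (u - a) * (c / (1 + (c * a) ^ 2)) : ℝ) : ℂ)) volume u]
    congr 1
    funext a
    simp only [sub_sub_cancel]
  rw [h1]
  have h2 := Measure.integral_comp_mul_left
    (fun s : ℝ => ((φ (u - s / c) * (c / (1 + s ^ 2)) : ℝ) : ℂ)) c
  have h3 : (fun a : ℝ => ((φ (u - a) * (c / (1 + (c * a) ^ 2)) : ℝ) : ℂ)) =
      fun a : ℝ => ((φ (u - (c * a) / c) * (c / (1 + (c * a) ^ 2)) : ℝ) : ℂ) := by
    funext a
    rw [mul_div_cancel_left₀ _ hc.ne']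
  rw [h3, h2, ← integral_smul]
  congr 1
  funext s
  rw [abs_of_pos (inv_pos.2 hc), Complex.real_smul, ← Complex.ofReal_mul]
  congr 1
  have := hc.ne'
  field_simp

lemma poisson_test {μ : Measure α} [SFinite μ] {W : α → ℂ} (hW : Integrable W μ) {q : α → ℝ}
    (hq : Measurable q)
    (H : ∀ z : ℂ, z.im ≠ 0 → ∫ x, W x / ((q x : ℂ) - z) ∂μ = 0)
    (φ : ℝ → ℝ) (hφ : Continuous φ) (hφc : HasCompactSupport φ) :
    ∫ x, W x * (φ (q x) : ℂ) ∂μ = 0 := by
  obtain ⟨M, hM⟩ := hφc.exists_bound_of_continuous hφ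
  have hM0 : 0 ≤ M := (norm_nonneg _).trans (hM 0)
  have hφi : Integrable (fun a => (φ a : ℂ)) volume :=
    (hφ.integrable_of_hasCompactSupport hφc).ofReal
  -- vanishing for each scale
  have step : ∀ c : ℝ, 0 < c →
      ∫ x, W x * (∫ s : ℝ, ((φ (q x - s / c) * (1 + s ^ 2)⁻¹ : ℝ) : ℂ)) ∂μ = 0 := by
    intro c hc
    have h1 : ∀ x, W x * (∫ s : ℝ, ((φ (q x - s / c) * (1 + s ^ 2)⁻¹ : ℝ) : ℂ)) =
        ∫ a : ℝ, (φ a : ℂ) * (W x * ((c / (1 + (c * (q x - a)) ^ 2) : ℝ) : ℂ)) := by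
      intro x
      rw [← poisson_subst φ c hc (q x), ← integral_const_mul]
      congr 1
      funext a
      push_cast
      ring
    simp_rw [h1]
    rw [integral_integral_swap]
    · have h2 : ∀ a : ℝ, ∫ x, (φ a : ℂ) * (W x * ((c / (1 + (c * (q x - a)) ^ 2) : ℝ) : ℂ)) ∂μ = 0 := by
        intro a
        rw [integral_const_mul, poisson_point hW hq H c hc a, mul_zero]
      simp_rw [h2]
      exact integral_zero _ _
    · have h3 : Integrable (fun y : α × ℝ => W y.1 * (φ y.2 : ℂ)) (μ.prod volume) :=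
        hW.mul_prod hφi
      have h4 : Integrable (fun y : α × ℝ => (((c / (1 + (c * (q y.1 - y.2)) ^ 2) : ℝ)) : ℂ) *
          (W y.1 * (φ y.2 : ℂ))) (μ.prod volume) := by
        refine Integrable.bdd_mul (c := c) h3 ?_ ?_
        · apply Measurable.aestronglyMeasurable
          apply Complex.measurable_ofReal.comp
          exact measurable_const.div (measurable_const.add
            (((hq.comp measurable_fst).sub measurable_snd).const_mul c |>.pow_const 2))
        · refine Eventually.of_forall (fun y => ?_)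
          rw [Complex.norm_real, Real.norm_eq_abs, abs_of_nonneg (by positivity)]
          apply div_le_self hc.le
          nlinarith [sq_nonneg (c * (q y.1 - y.2))]
      refine h4.congr (Eventually.of_forall (fun y => ?_))
      simp only [Function.uncurry]
      ring
  -- the bound for the inner integral
  have hint : Integrable (fun s : ℝ => (1 + s ^ 2)⁻¹) := integrable_inv_one_add_sq
  have hinner_meas : ∀ (c : ℝ) (u : ℝ), AEStronglyMeasurable
      (fun s : ℝ => ((φ (u - s / c) * (1 + s ^ 2)⁻¹ : ℝ) : ℂ)) volume := by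
    intro c u
    apply Measurable.aestronglyMeasurable
    apply Complex.measurable_ofReal.comp
    exact (hφ.measurable.comp (measurable_const.sub (measurable_id.div_const c))).mul
      ((measurable_const.add (measurable_id.pow_const 2)).inv)
  have hinner_bd : ∀ (c : ℝ) (u s : ℝ),
      ‖((φ (u - s / c) * (1 + s ^ 2)⁻¹ : ℝ) : ℂ)‖ ≤ M * (1 + s ^ 2)⁻¹ := by
    intro c u s
    rw [Complex.norm_real, norm_mul, Real.norm_of_nonneg (by positivity : (0:ℝ) ≤ (1 + s ^ 2)⁻¹)]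
    gcongr
    exact hM _
  have hJbd : ∀ (c : ℝ) (u : ℝ), ‖∫ s : ℝ, ((φ (u - s / c) * (1 + s ^ 2)⁻¹ : ℝ) : ℂ)‖ ≤
      M * Real.pi := by
    intro c u
    calc ‖∫ s : ℝ, ((φ (u - s / c) * (1 + s ^ 2)⁻¹ : ℝ) : ℂ)‖ ≤ ∫ s : ℝ, M * (1 + s ^ 2)⁻¹ :=
          norm_integral_le_of_norm_le (hint.const_mul M) (Eventually.of_forall (hinner_bd c u))
      _ = M * Real.pi := by rw [integral_const_mul, integral_univ_inv_one_add_sq]
  have hJlim : ∀ u : ℝ, Tendsto (fun n : ℕ =>
      ∫ s : ℝ, ((φ (u - s / ((n : ℝ) + 1)) * (1 + s ^ 2)⁻¹ : ℝ) : ℂ)) atTop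
      (𝓝 ((φ u : ℂ) * (Real.pi : ℂ))) := by
    intro u
    have h0 : (φ u : ℂ) * (Real.pi : ℂ) = ∫ s : ℝ, ((φ u * (1 + s ^ 2)⁻¹ : ℝ) : ℂ) := by
      rw [integral_complex_ofReal, integral_const_mul, integral_univ_inv_one_add_sq]
      push_cast
      rfl
    rw [h0]
    refine tendsto_integral_of_dominated_convergence (fun s => M * (1 + s ^ 2)⁻¹)
      (fun n => hinner_meas _ _) (hint.const_mul M) (fun n => Eventually.of_forall (hinner_bd _ _)) ?_
    refine Eventually.of_forall (fun s => ?_)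
    apply (Complex.continuous_ofReal.tendsto _).comp
    apply Tendsto.mul_const
    apply (hφ.tendsto u).comp
    have h1 : Tendsto (fun n : ℕ => u - s / ((n : ℝ) + 1)) atTop (𝓝 (u - 0)) := by
      apply Tendsto.const_sub
      apply Tendsto.div_atTop tendsto_const_nhds
      exact tendsto_atTop_add_const_right _ _ tendsto_natCast_atTop_atTop
    rw [sub_zero] at h1
    exact h1
  have hJmeas : ∀ c : ℝ, AEStronglyMeasurable
      (fun x => ∫ s : ℝ, ((φ (q x - s / c) * (1 + s ^ 2)⁻¹ : ℝ) : ℂ)) μ := by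
    intro c
    have h1 : StronglyMeasurable (fun y : α × ℝ => ((φ (q y.1 - y.2 / c) * (1 + y.2 ^ 2)⁻¹ : ℝ) : ℂ)) := by
      apply Measurable.stronglyMeasurable
      apply Complex.measurable_ofReal.comp
      exact (hφ.measurable.comp ((hq.comp measurable_fst).sub (measurable_snd.div_const c))).mul
        ((measurable_const.add (measurable_snd.pow_const 2)).inv)
    exact h1.integral_prod_right'.aestronglyMeasurable
  have hlim : Tendsto (fun n : ℕ => ∫ x, W x *
      (∫ s : ℝ, ((φ (q x - s / ((n : ℝ) + 1)) * (1 + s ^ 2)⁻¹ : ℝ) : ℂ)) ∂μ) atTop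
      (𝓝 (∫ x, W x * ((φ (q x) : ℂ) * (Real.pi : ℂ)) ∂μ)) := by
    refine tendsto_integral_of_dominated_convergence (fun x => (M * Real.pi) * ‖W x‖)
      (fun n => hW.aestronglyMeasurable.mul (hJmeas _)) (hW.norm.const_mul _) ?_ ?_
    · intro n
      refine Eventually.of_forall (fun x => ?_)
      rw [norm_mul, mul_comm]
      gcongr
      exact hJbd _ _
    · exact Eventually.of_forall (fun x => (hJlim (q x)).const_mul (W x))
  have hz : ∀ n : ℕ, ∫ x, W x *
      (∫ s : ℝ, ((φ (q x - s / ((n : ℝ) + 1)) * (1 + s ^ 2)⁻¹ : ℝ) : ℂ)) ∂μ = 0 :=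
    fun n => step _ (by positivity)
  simp_rw [hz] at hlim
  have h1 : ∫ x, W x * ((φ (q x) : ℂ) * (Real.pi : ℂ)) ∂μ = 0 :=
    (tendsto_nhds_unique hlim tendsto_const_nhds)
  have h2 : ∀ x, W x * ((φ (q x) : ℂ) * (Real.pi : ℂ)) = (W x * (φ (q x) : ℂ)) * (Real.pi : ℂ) :=
    fun x => by ring
  simp_rw [h2] at h1
  rw [integral_mul_const] at h1
  rcases mul_eq_zero.1 h1 with h | h
  · exact h
  · exact absurd h (by exact_mod_cast Real.pi_ne_zero)

/-- The uniqueness in one variable, for kernels of any order. -/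
theorem cauchy_test {μ : Measure α} [SFinite μ] {W : α → ℂ} (hW : Integrable W μ) {q : α → ℝ}
    (hq : Measurable q) (j : ℕ)
    (H : ∀ z : ℂ, z.im ≠ 0 → ∫ x, W x / ((q x : ℂ) - z) ^ (j + 1) ∂μ = 0)
    (φ : ℝ → ℝ) (hφ : Continuous φ) (hφc : HasCompactSupport φ) :
    ∫ x, W x * (φ (q x) : ℂ) ∂μ = 0 :=
  poisson_test hW hq (descent_all hW hq j H) φ hφ hφc

end U506.RT
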