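import Pool.Agent.U506.RT.F2

/-! The final step: from vanishing Cauchy integrals to `f = 0`, and the Radon transform. -/

set_option autoImplicit false
open MeasureTheory Set Filter Topology

namespace U506.RT

lemma tent_continuous (u₀ δ : ℝ) : Continuous (fun u : ℝ => max 0 (δ - |u - u₀|)) := by
  fun_prop

lemma tent_support (u₀ δ : ℝ) : HasCompactSupport (fun u : ℝ => max 0 (δ - |u - u₀|)) := by
  refine HasCompactSupport.intro (isCompact_closedBall u₀ δ) (fun x hx => ?_)
  rw [Metric.mem_closedBall, not_le, Real.dist_eq] at hx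
  exact max_eq_left (by linarith)

theorem plane_zero (f : ℝ × ℝ → ℝ) (hf : Continuous f) (k : ℕ)
    (H1 : ∀ t : ℝ, Integrable (fun x : ℝ × ℝ => f x / (1 + |x.1 + t * x.2|) ^ (k + 1)))
    (H2 : Integrable (fun x : ℝ × ℝ => f x / (1 + |x.2|) ^ (k + 1)))
    (H3 : ∀ t : ℝ, ∀ z : ℂ, z.im ≠ 0 →
      ∫ x : ℝ × ℝ, (f x : ℂ) / (((x.1 + t * x.2 : ℝ) : ℂ) - z) ^ (k + 1 + 1) = 0) : f = 0 := by
  have hm := hf.measurable
  -- step 1
  have s1 : ∀ (φ : ℝ → ℝ), Continuous φ → HasCompactSupport φ → ∀ z₂ : ℂ, z₂.im ≠ 0 →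
      ∫ x : ℝ × ℝ, ((f x : ℂ) / ((x.2 : ℂ) - z₂) ^ (k + 1)) * (φ x.1 : ℂ) = 0 := by
    intro φ hφ hφc z₂ hz₂
    have hW := integrable_div_pow hm (fun x => x.2) measurable_snd (k + 1) H2 z₂ hz₂
    refine poisson_test hW measurable_fst ?_ φ hφ hφc
    intro z₁ hz₁
    rw [← star f hm (k + 1) H1 H2 H3 z₁ z₂ hz₁ hz₂]
    congr 1
    funext x
    rw [div_div]
  -- step 2
  have s2 : ∀ (φ ψ : ℝ → ℝ), Continuous φ → HasCompactSupport φ → Continuous ψ →
      HasCompactSupport ψ →
      ∫ x : ℝ × ℝ, ((f x * φ x.1 : ℝ) : ℂ) * (ψ x.2 : ℂ) = 0 := by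
    intro φ ψ hφ hφc hψ hψc
    have hW : Integrable (fun x : ℝ × ℝ => ((f x * φ x.1 : ℝ) : ℂ)) := by
      have hg : Continuous (fun u : ℝ => (1 + |u|) ^ (k + 1) * φ u) := by fun_prop
      have hgc : HasCompactSupport (fun u : ℝ => (1 + |u|) ^ (k + 1) * φ u) := hφc.mul_left
      obtain ⟨M, hM⟩ := hgc.exists_bound_of_continuous hg
      have h1 : Integrable (fun x : ℝ × ℝ => ((1 + |x.1|) ^ (k + 1) * φ x.1) *
          (f x / (1 + |x.1 + 0 * x.2|) ^ (k + 1))) := by
        refine Integrable.bdd_mul (c := M) (H1 0) ?_ (Eventually.of_forall (fun x => hM x.1))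
        exact (hg.comp continuous_fst).aestronglyMeasurable
      have h2 : Integrable (fun x : ℝ × ℝ => f x * φ x.1) := by
        refine h1.congr (Eventually.of_forall (fun x => ?_))
        show (1 + |x.1|) ^ (k + 1) * φ x.1 * (f x / (1 + |x.1 + 0 * x.2|) ^ (k + 1)) = f x * φ x.1
        rw [zero_mul, add_zero]
        have : (0:ℝ) < (1 + |x.1|) ^ (k + 1) := by positivity
        generalize (1 + |x.1|) ^ (k + 1) = A at *
        field_simp
      exact h2.ofReal
    refine cauchy_test hW measurable_snd k ?_ ψ hψ hψc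
    intro z hz
    rw [← s1 φ hφ hφc z hz]
    congr 1
    funext x
    push_cast
    ring
  -- step 3
  funext x₀
  obtain ⟨u₀, v₀⟩ := x₀
  by_contra hne
  have hne' : f (u₀, v₀) ≠ 0 := hne
  have hpos : 0 < f (u₀, v₀) * f (u₀, v₀) := by
    rw [← sq]
    positivity
  have hcont : ContinuousAt (fun x => f x * f (u₀, v₀)) (u₀, v₀) :=
    (hf.mul continuous_const).continuousAt
  have hev : ∀ᶠ x in 𝓝 (u₀, v₀), 0 < f x * f (u₀, v₀) := hcont.eventually (lt_mem_nhds hpos)
  obtain ⟨δ, hδ, hball⟩ := Metric.eventually_nhds_iff.1 hev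
  set φ : ℝ → ℝ := fun u => max 0 (δ - |u - u₀|) with hφ
  set ψ : ℝ → ℝ := fun v => max 0 (δ - |v - v₀|) with hψ
  have hφc := tent_continuous u₀ δ
  have hψc := tent_continuous v₀ δ
  rw [← hφ] at hφc
  rw [← hψ] at hψc
  have h0 := s2 φ ψ hφc (tent_support u₀ δ) hψc (tent_support v₀ δ)
  have h1 : 0 < ∫ x : ℝ × ℝ, f x * f (u₀, v₀) * φ x.1 * ψ x.2 := by
    refine Continuous.integral_pos_of_hasCompactSupport_nonneg_nonzero (x := (u₀, v₀)) ?_ ?_ ?_ ?_
    · exact ((hf.mul continuous_const).mul (hφc.comp continuous_fst)).mul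
        (hψc.comp continuous_snd)
    · refine HasCompactSupport.intro (isCompact_closedBall (u₀, v₀) δ) (fun x hx => ?_)
      rw [Metric.mem_closedBall, not_le, Prod.dist_eq, lt_max_iff, Real.dist_eq, Real.dist_eq] at hx
      rcases hx with hx | hx
      · have : φ x.1 = 0 := max_eq_left (by linarith)
        simp only [this, mul_zero, zero_mul]
      · have : ψ x.2 = 0 := max_eq_left (by linarith)
        simp only [this, mul_zero]
    · intro x
      show 0 ≤ f x * f (u₀, v₀) * φ x.1 * ψ x.2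
      by_cases hx : dist x (u₀, v₀) < δ
      · have h2 := hball hx
        have h3 : 0 ≤ φ x.1 := le_max_left _ _
        have h4 : 0 ≤ ψ x.2 := le_max_left _ _
        positivity
      · rw [not_lt, Prod.dist_eq, le_max_iff, Real.dist_eq, Real.dist_eq] at hx
        rcases hx with hx | hx
        · have : φ x.1 = 0 := max_eq_left (by linarith)
          simp only [this, mul_zero, zero_mul, le_refl]
        · have : ψ x.2 = 0 := max_eq_left (by linarith)
          simp only [this, mul_zero, le_refl]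
    · have h2 : φ u₀ = δ := by
        simp only [hφ, sub_self, abs_zero, sub_zero]
        exact max_eq_right hδ.le
      have h3 : ψ v₀ = δ := by
        simp only [hψ, sub_self, abs_zero, sub_zero]
        exact max_eq_right hδ.le
      show f (u₀, v₀) * f (u₀, v₀) * φ u₀ * ψ v₀ ≠ 0
      rw [h2, h3]
      positivity
  have h2 : ((∫ x : ℝ × ℝ, f x * f (u₀, v₀) * φ x.1 * ψ x.2 : ℝ) : ℂ) = 0 := by
    rw [← integral_complex_ofReal]
    have h3 : (fun x : ℝ × ℝ => ((f x * f (u₀, v₀) * φ x.1 * ψ x.2 : ℝ) : ℂ)) =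
        fun x => (f (u₀, v₀) : ℂ) * (((f x * φ x.1 : ℝ) : ℂ) * (ψ x.2 : ℂ)) := by
      funext x
      push_cast
      ring
    rw [h3, integral_const_mul, h0, mul_zero]
  rw [Complex.ofReal_eq_zero] at h2
  linarith

/-- The rotation of the plane as a measurable equivalence. -/
lemma exists_rot (θ : ℝ) : ∃ e : ℝ × ℝ ≃ᵐ ℝ × ℝ, MeasurePreserving e volume volume ∧
    ∀ x : ℝ × ℝ, e x = (x.1 * Real.cos θ - x.2 * Real.sin θ, x.1 * Real.sin θ + x.2 * Real.cos θ) := by
  set R : ℂ ≃ᵐ ℂ := (rotation (Circle.exp θ)).toHomeomorph.toMeasurableEquiv with hR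
  have hRp : MeasurePreserving R volume volume :=
    LinearIsometryEquiv.measurePreserving (rotation (Circle.exp θ))
  refine ⟨(Complex.measurableEquivRealProd.symm.trans R).trans Complex.measurableEquivRealProd,
    ?_, ?_⟩
  · exact Complex.volume_preserving_equiv_real_prod.comp (hRp.comp
      (Complex.volume_preserving_equiv_real_prod.symm _))
  · intro x
    have h1 : R (Complex.measurableEquivRealProd.symm x) =
        (Circle.exp θ : ℂ) * Complex.measurableEquivRealProd.symm x := rfl
    have h2 : Complex.measurableEquivRealProd.symm x = (x.1 : ℂ) + (x.2 : ℂ) * Complex.I := by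
      apply Complex.ext
      · simp [Complex.measurableEquivRealProd]
      · simp [Complex.measurableEquivRealProd]
    show Complex.measurableEquivRealProd (R (Complex.measurableEquivRealProd.symm x)) = _
    rw [h1, h2, Complex.measurableEquivRealProd_apply, Circle.coe_exp, Complex.exp_mul_I,
      ← Complex.ofReal_cos, ← Complex.ofReal_sin]
    apply Prod.ext
    · simp only [Complex.mul_re, Complex.mul_im, Complex.add_re, Complex.add_im, Complex.ofReal_re,
        Complex.ofReal_im, Complex.I_re, Complex.I_im]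
      ring
    · simp only [Complex.mul_re, Complex.mul_im, Complex.add_re, Complex.add_im, Complex.ofReal_re,
        Complex.ofReal_im, Complex.I_re, Complex.I_im]
      ring

theorem radon (f : ℝ × ℝ → ℝ) (hf : Continuous f) (k : ℕ)
    (hint : ∀ θ : ℝ, Integrable
      (fun x : ℝ × ℝ => f x / (1 + |x.1 * Real.cos θ + x.2 * Real.sin θ|) ^ k))
    (hR : ∀ θ : ℝ, ∀ᵐ p : ℝ,
      ∫ t : ℝ, f (p * Real.cos θ - t * Real.sin θ, p * Real.sin θ + t * Real.cos θ) = 0) :
    f = 0 := by
  have hm := hf.measurable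
  have hH2 : ∀ i, Integrable (fun x : ℝ × ℝ => f x / (1 + |x.2|) ^ (k + i)) := by
    intro i
    have h1 := hint (Real.pi / 2)
    rw [Real.cos_pi_div_two, Real.sin_pi_div_two] at h1
    refine h1.mono (by
      apply Measurable.aestronglyMeasurable
      exact hm.div ((measurable_const.add (measurable_snd.norm)).pow_const _)) ?_
    refine Eventually.of_forall (fun x => ?_)
    simp only [mul_zero, mul_one, zero_add]
    rw [norm_div, norm_div, norm_pow, norm_pow, Real.norm_of_nonneg (by positivity : (0:ℝ) ≤ 1 + |x.2|)]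
    apply div_le_div_of_nonneg_left (norm_nonneg _) (by positivity)
    exact pow_le_pow_right₀ (by linarith [abs_nonneg x.2]) (by omega)
  have hH1 : ∀ i, ∀ t : ℝ, Integrable (fun x : ℝ × ℝ => f x / (1 + |x.1 + t * x.2|) ^ (k + i)) := by
    intro i t
    have h1 := hint (Real.arctan t)
    have hc : 0 < Real.cos (Real.arctan t) := Real.cos_arctan_pos t
    have hc1 : Real.cos (Real.arctan t) ≤ 1 := Real.cos_le_one _
    have hs : Real.sin (Real.arctan t) = t * Real.cos (Real.arctan t) := by
      have := Real.tan_arctan t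
      rw [Real.tan_eq_sin_div_cos, div_eq_iff hc.ne'] at this
      exact this
    refine h1.mono (by
      apply Measurable.aestronglyMeasurable
      exact hm.div ((measurable_const.add
        ((measurable_fst.add (measurable_snd.const_mul t)).norm)).pow_const _)) ?_
    refine Eventually.of_forall (fun x => ?_)
    have h2 : x.1 * Real.cos (Real.arctan t) + x.2 * Real.sin (Real.arctan t) =
        Real.cos (Real.arctan t) * (x.1 + t * x.2) := by
      rw [hs]
      ring
    rw [h2, abs_mul, abs_of_pos hc]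
    have h3 : Real.cos (Real.arctan t) * |x.1 + t * x.2| ≤ |x.1 + t * x.2| :=
      mul_le_of_le_one_left (abs_nonneg _) hc1
    have h4 : 0 ≤ Real.cos (Real.arctan t) * |x.1 + t * x.2| := by positivity
    rw [norm_div, norm_div, norm_pow, norm_pow,
      Real.norm_of_nonneg (by positivity : (0:ℝ) ≤ 1 + |x.1 + t * x.2|),
      Real.norm_of_nonneg (by positivity :
        (0:ℝ) ≤ 1 + Real.cos (Real.arctan t) * |x.1 + t * x.2|)]
    apply div_le_div_of_nonneg_left (norm_nonneg _) (by positivity)
    calc (1 + Real.cos (Real.arctan t) * |x.1 + t * x.2|) ^ k ≤ (1 + |x.1 + t * x.2|) ^ k := by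
          gcongr
      _ ≤ _ := pow_le_pow_right₀ (by linarith [abs_nonneg (x.1 + t * x.2)]) (by omega)
  refine plane_zero f hf k (hH1 1) (hH2 1) ?_
  intro t z hz
  have hc : 0 < Real.cos (Real.arctan t) := Real.cos_arctan_pos t
  have hs : Real.sin (Real.arctan t) = t * Real.cos (Real.arctan t) := by
    have := Real.tan_arctan t
    rw [Real.tan_eq_sin_div_cos, div_eq_iff hc.ne'] at this
    exact this
  obtain ⟨e, he, hex⟩ := exists_rot (Real.arctan t)
  have hI : Integrable (fun x : ℝ × ℝ =>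
      (f x : ℂ) / (((x.1 + t * x.2 : ℝ) : ℂ) - z) ^ (k + 1 + 1)) :=
    integrable_div_pow hm (fun x => x.1 + t * x.2)
      (measurable_fst.add (measurable_snd.const_mul t)) (k + 1 + 1) (hH1 2 t) z hz
  have hIe := he.integrable_comp_emb e.measurableEmbedding |>.2 hI
  rw [← he.integral_comp e.measurableEmbedding]
  have key : ∀ x : ℝ × ℝ, (e x).1 + t * (e x).2 = x.1 / Real.cos (Real.arctan t) := by
    intro x
    rw [hex]
    simp only
    have h1 := Real.sin_sq_add_cos_sq (Real.arctan t)
    rw [eq_div_iff hc.ne']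
    have h2 : (x.1 * Real.cos (Real.arctan t) - x.2 * Real.sin (Real.arctan t) +
        t * (x.1 * Real.sin (Real.arctan t) + x.2 * Real.cos (Real.arctan t))) *
          Real.cos (Real.arctan t) =
        x.1 * (Real.cos (Real.arctan t) ^ 2 + (t * Real.cos (Real.arctan t)) * Real.sin (Real.arctan t))
        + x.2 * Real.cos (Real.arctan t) * (t * Real.cos (Real.arctan t) - Real.sin (Real.arctan t)) := by
      ring
    rw [h2, ← hs, sub_self, mul_zero, add_zero]
    linear_combination x.1 * h1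
  have h3 : ∀ x : ℝ × ℝ, ((f (e x) : ℂ) / ((((e x).1 + t * (e x).2 : ℝ) : ℂ) - z) ^ (k + 1 + 1)) =
      (f (x.1 * Real.cos (Real.arctan t) - x.2 * Real.sin (Real.arctan t),
        x.1 * Real.sin (Real.arctan t) + x.2 * Real.cos (Real.arctan t)) : ℂ) /
        (((x.1 / Real.cos (Real.arctan t) : ℝ) : ℂ) - z) ^ (k + 1 + 1) := by
    intro x
    rw [key, hex]
  have hIe' : Integrable (fun x : ℝ × ℝ =>
      (f (x.1 * Real.cos (Real.arctan t) - x.2 * Real.sin (Real.arctan t),
        x.1 * Real.sin (Real.arctan t) + x.2 * Real.cos (Real.arctan t)) : ℂ) /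
        (((x.1 / Real.cos (Real.arctan t) : ℝ) : ℂ) - z) ^ (k + 1 + 1)) (volume.prod volume) :=
    hIe.congr (Eventually.of_forall (fun x => h3 x))
  simp_rw [h3]
  rw [Measure.volume_eq_prod, integral_prod _ hIe']
  have h4 : ∀ᵐ p : ℝ, ∫ s : ℝ, (f (p * Real.cos (Real.arctan t) - s * Real.sin (Real.arctan t),
        p * Real.sin (Real.arctan t) + s * Real.cos (Real.arctan t)) : ℂ) /
        (((p / Real.cos (Real.arctan t) : ℝ) : ℂ) - z) ^ (k + 1 + 1) = 0 := by
    filter_upwards [hR (Real.arctan t)] with p hp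
    rw [integral_div, integral_complex_ofReal, hp]
    simp
  rw [integral_congr_ae h4]
  exact integral_zero _ _

end U506.RT
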