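import Pool.Agent.U506.RT.G

/-! The version with the integrals of `|f|` over the lines. -/

set_option autoImplicit false
open MeasureTheory Set Filter Topology

namespace U506.RT

theorem radon_lines (f : ℝ × ℝ → ℝ) (hf : Continuous f) (k : ℕ)
    (hline : ∀ θ p : ℝ, Integrable
      (fun t : ℝ => f (p * Real.cos θ - t * Real.sin θ, p * Real.sin θ + t * Real.cos θ)))
    (hgrow : ∀ θ : ℝ, ∃ C : ℝ, ∀ p : ℝ,
      ∫ t : ℝ, |f (p * Real.cos θ - t * Real.sin θ, p * Real.sin θ + t * Real.cos θ)| ≤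
        C * (1 + |p|) ^ k)
    (hR : ∀ θ p : ℝ,
      ∫ t : ℝ, f (p * Real.cos θ - t * Real.sin θ, p * Real.sin θ + t * Real.cos θ) = 0) :
    f = 0 := by
  refine radon f hf (k + 2) ?_ (fun θ => Eventually.of_forall (fun p => hR θ p))
  intro θ
  obtain ⟨C, hC⟩ := hgrow θ
  have hm := hf.measurable
  obtain ⟨e, he, hex⟩ := exists_rot θ
  rw [← he.integrable_comp_emb e.measurableEmbedding]
  have key : ∀ x : ℝ × ℝ, (e x).1 * Real.cos θ + (e x).2 * Real.sin θ = x.1 := by
    intro x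
    rw [hex]
    simp only
    have h1 := Real.sin_sq_add_cos_sq θ
    linear_combination x.1 * h1
  have h3 : ((fun x : ℝ × ℝ => f x / (1 + |x.1 * Real.cos θ + x.2 * Real.sin θ|) ^ (k + 2)) ∘ e) =
      fun x : ℝ × ℝ => f (x.1 * Real.cos θ - x.2 * Real.sin θ, x.1 * Real.sin θ + x.2 * Real.cos θ) /
        (1 + |x.1|) ^ (k + 2) := by
    funext x
    simp only [Function.comp]
    rw [key, hex]
  rw [h3, Measure.volume_eq_prod]
  have hcont : Continuous (fun x : ℝ × ℝ =>
      f (x.1 * Real.cos θ - x.2 * Real.sin θ, x.1 * Real.sin θ + x.2 * Real.cos θ) /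
        (1 + |x.1|) ^ (k + 2)) := by
    apply Continuous.div
    · exact hf.comp (by fun_prop)
    · fun_prop
    · intro x
      positivity
  rw [integrable_prod_iff hcont.aestronglyMeasurable]
  refine ⟨Eventually.of_forall (fun p => (hline θ p).div_const ((1 + |p|) ^ (k + 2))), ?_⟩
  have h4 : Integrable (fun p : ℝ => |C| * (1 + p ^ 2)⁻¹) := integrable_inv_one_add_sq.const_mul _
  refine h4.mono' ?_ ?_
  · exact (hcont.norm.stronglyMeasurable.integral_prod_right').aestronglyMeasurable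
  · refine Eventually.of_forall (fun p => ?_)
    have hp : (0:ℝ) < (1 + |p|) ^ (k + 2) := by positivity
    have h5 : ∀ s : ℝ, ‖f (p * Real.cos θ - s * Real.sin θ, p * Real.sin θ + s * Real.cos θ) /
        (1 + |p|) ^ (k + 2)‖ =
        |f (p * Real.cos θ - s * Real.sin θ, p * Real.sin θ + s * Real.cos θ)| /
          (1 + |p|) ^ (k + 2) := by
      intro s
      rw [norm_div, Real.norm_eq_abs, Real.norm_of_nonneg hp.le]
    show ‖∫ s : ℝ, ‖f (p * Real.cos θ - s * Real.sin θ, p * Real.sin θ + s * Real.cos θ) /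
        (1 + |p|) ^ (k + 2)‖‖ ≤ |C| * (1 + p ^ 2)⁻¹
    simp_rw [h5]
    rw [integral_div, Real.norm_of_nonneg (div_nonneg (integral_nonneg (fun s => abs_nonneg _)) hp.le)]
    rw [div_le_iff₀ hp]
    have h6 : 0 ≤ (1 + |p|) ^ k := by positivity
    have h7 : 1 + p ^ 2 ≤ (1 + |p|) ^ 2 := by
      have := abs_nonneg p
      nlinarith [sq_abs p]
    have h8 : (0:ℝ) < 1 + p ^ 2 := by positivity
    calc ∫ t : ℝ, |f (p * Real.cos θ - t * Real.sin θ, p * Real.sin θ + t * Real.cos θ)| ≤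
          C * (1 + |p|) ^ k := hC p
      _ ≤ |C| * (1 + |p|) ^ k := by
          gcongr
          exact le_abs_self C
      _ = |C| * (1 + |p|) ^ k * 1 := by ring
      _ ≤ |C| * (1 + |p|) ^ k * ((1 + p ^ 2)⁻¹ * (1 + |p|) ^ 2) := by
          gcongr
          rw [← div_eq_inv_mul, le_div_iff₀ h8, one_mul]
          exact h7
      _ = |C| * (1 + p ^ 2)⁻¹ * (1 + |p|) ^ (k + 2) := by ring

end U506.RT
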