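import Pool.Agent.U506.RT.H

/-! The function `LL` and its finite differences. -/

set_option autoImplicit false
open MeasureTheory Set Filter Topology
open scoped ENNReal

namespace U506.RT

/-- The integral of `f / (B ^ k (A + t B))`. -/
noncomputable def LL {X : Type*} [MeasurableSpace X] (μ : Measure X) (f A B : X → ℂ) (k : ℕ)
    (t : ℝ) : ℂ :=
  ∫ x, f x / (B x) ^ k * (A x + ((max t 0 : ℝ) : ℂ) * B x)⁻¹ ∂μ

section

variable {X : Type*} [MeasurableSpace X] {μ : Measure X} {f A B : X → ℂ}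

lemma LL_integrable (hf : AEStronglyMeasurable f μ) (hA : Measurable A) (hB : Measurable B)
    {ε : ℝ} (hε : 0 < ε) (hD : ∀ x, ∀ s : ℝ, 0 ≤ s → ε ≤ ‖A x + s * B x‖)
    {k : ℕ} (h1 : Integrable (fun x => f x / (B x) ^ k) μ) (t : ℝ) :
    Integrable (fun x => f x / (B x) ^ k * (A x + ((max t 0 : ℝ) : ℂ) * B x)⁻¹) μ := by
  refine (h1.norm.mul_const ε⁻¹).mono' ?_ (Eventually.of_forall (fun x => ?_))
  · apply h1.aestronglyMeasurable.mul
    exact ((hA.add (measurable_const.mul hB)).inv).aestronglyMeasurable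
  · rw [norm_mul, norm_inv]
    gcongr
    exact hD x _ (le_max_right _ _)

lemma LL_continuous (hf : AEStronglyMeasurable f μ) (hA : Measurable A) (hB : Measurable B)
    {ε : ℝ} (hε : 0 < ε) (hD : ∀ x, ∀ s : ℝ, 0 ≤ s → ε ≤ ‖A x + s * B x‖)
    {k : ℕ} (h1 : Integrable (fun x => f x / (B x) ^ k) μ) : Continuous (LL μ f A B k) := by
  have hDne : ∀ x, ∀ s : ℝ, 0 ≤ s → A x + s * B x ≠ 0 := by
    intro x s hs h
    have := hD x s hs
    rw [h, norm_zero] at this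
    linarith
  unfold LL
  apply continuous_of_dominated
    (fun t => (LL_integrable hf hA hB hε hD h1 t).aestronglyMeasurable)
    (bound := fun x => ‖f x / (B x) ^ k‖ * ε⁻¹)
  · intro t
    refine Eventually.of_forall (fun x => ?_)
    rw [norm_mul, norm_inv]
    gcongr
    exact hD x _ (le_max_right _ _)
  · exact h1.norm.mul_const ε⁻¹
  · refine Eventually.of_forall (fun x => ?_)
    apply continuous_const.mul
    apply Continuous.inv₀
    · exact continuous_const.add (((Complex.continuous_ofReal.comp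
        (continuous_id.max continuous_const))).mul continuous_const)
    · intro t; exact hDne x _ (le_max_right _ _)

lemma LL_normdiff (hf : AEStronglyMeasurable f μ) (hA : Measurable A) (hB : Measurable B)
    {ε : ℝ} (hε : 0 < ε) (hD : ∀ x, ∀ s : ℝ, 0 ≤ s → ε ≤ ‖A x + s * B x‖)
    (hBne : ∀ x, B x ≠ 0)
    {k : ℕ} (h1 : Integrable (fun x => f x / (B x) ^ k) μ) (t r : ℝ) (ht : 0 ≤ t) (hr : 0 < r) :
    ‖(dl r)^[k] (LL μ f A B k) t‖ = k.factorial * r ^ k *
      ‖∫ x, f x * ∏ j ∈ Finset.range (k + 1), (A x + ((t + j * r : ℝ) : ℂ) * B x)⁻¹ ∂μ‖ := by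
  have hDne : ∀ x, ∀ s : ℝ, 0 ≤ s → A x + s * B x ≠ 0 := by
    intro x s hs h
    have := hD x s hs
    rw [h, norm_zero] at this
    linarith
  set F : ℝ → X → ℂ := fun t x => f x / (B x) ^ k * (A x + ((max t 0 : ℝ) : ℂ) * B x)⁻¹ with hF
  have hFi : ∀ t, Integrable (F t) μ := fun t => LL_integrable hf hA hB hε hD h1 t
  have hL : LL μ f A B k = fun t => ∫ x, F t x ∂μ := rfl
  have hdiff : (dl r)^[k] (LL μ f A B k) t = (-1) ^ k * (k.factorial : ℂ) * (r : ℂ) ^ k *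
      ∫ x, f x * ∏ j ∈ Finset.range (k + 1), (A x + ((t + j * r : ℝ) : ℂ) * B x)⁻¹ ∂μ := by
    rw [hL, (dl_integral μ F hFi r k t).2, ← integral_const_mul]
    congr 1
    funext x
    have e1 : (dl r)^[k] (fun s => F s x) t = f x / (B x) ^ k *
        (dl r)^[k] (fun s : ℝ => (A x + ((max s 0 : ℝ) : ℂ) * B x)⁻¹) t := by
      exact dl_const_mul r k (f x / (B x) ^ k) _ t
    rw [e1, dl_kernel (A x) (B x) (hDne x) r hr.le k t ht]
    have hBk : (B x) ^ k ≠ 0 := pow_ne_zero _ (hBne x)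
    rw [mul_pow, div_mul_eq_mul_div, div_eq_iff hBk]
    ring
  rw [hdiff]
  simp only [norm_mul, norm_pow, norm_neg, norm_one, one_pow, one_mul, Complex.norm_natCast,
    Complex.norm_real, Real.norm_eq_abs, abs_of_pos hr]

lemma G_bound {ε : ℝ} (hε : 0 < ε) (hD : ∀ x, ∀ s : ℝ, 0 ≤ s → ε ≤ ‖A x + s * B x‖) (k : ℕ)
    (t r a : ℝ) (ht : 0 ≤ t) (hr : 0 < r) (ha1 : t ≤ a) (ha2 : a ≤ t + k * r) (x : X) :
    ‖f x * ∏ j ∈ Finset.range (k + 1), (A x + ((t + j * r : ℝ) : ℂ) * B x)⁻¹‖ ≤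
      (ε * (1 / (2 * (k:ℝ) + 1)) ^ (k + 1))⁻¹ * ‖f x / (A x + a * B x) ^ k‖ := by
  have hDne : ∀ x, ∀ s : ℝ, 0 ≤ s → A x + s * B x ≠ 0 := by
    intro x s hs h
    have := hD x s hs
    rw [h, norm_zero] at this
    linarith
  set c : ℝ := ε * (1 / (2 * (k:ℝ) + 1)) ^ (k + 1) with hc
  have hcpos : 0 < c := by positivity
  have hlow := prod_lower (A x) (B x) ε hε (hD x) k t r a ht hr ha1 ha2
  have ha0 : 0 ≤ a := by linarith
  have hne : 0 < ‖A x + a * B x‖ := norm_pos_iff.2 (hDne x a ha0)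
  rw [norm_mul, norm_prod, norm_div, norm_pow]
  simp_rw [norm_inv]
  rw [Finset.prod_inv_distrib]
  rw [← hc] at hlow
  have hp : 0 < c * ‖A x + a * B x‖ ^ k := by positivity
  calc ‖f x‖ * (∏ j ∈ Finset.range (k + 1), ‖A x + ((t + j * r : ℝ) : ℂ) * B x‖)⁻¹
      ≤ ‖f x‖ * (c * ‖A x + a * B x‖ ^ k)⁻¹ := by gcongr
    _ = c⁻¹ * (‖f x‖ / ‖A x + a * B x‖ ^ k) := by rw [mul_inv]; ring

lemma LL_bound (hf : AEStronglyMeasurable f μ) (hA : Measurable A) (hB : Measurable B)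
    {ε : ℝ} (hε : 0 < ε) (hD : ∀ x, ∀ s : ℝ, 0 ≤ s → ε ≤ ‖A x + s * B x‖)
    (hBne : ∀ x, B x ≠ 0)
    {k : ℕ} (h1 : Integrable (fun x => f x / (B x) ^ k) μ) (a M : ℝ)
    (h2 : Integrable (fun x => f x / (A x + a * B x) ^ k) μ)
    (hM : ∫ x, ‖f x / (A x + a * B x) ^ k‖ ∂μ ≤ M) (t r : ℝ) (ht : 0 ≤ t) (hr : 0 < r)
    (ha1 : t ≤ a) (ha2 : a ≤ t + k * r) :
    ‖(dl r)^[k] (LL μ f A B k) t‖ ≤
      k.factorial * ((ε * (1 / (2 * (k:ℝ) + 1)) ^ (k + 1))⁻¹ * M) * r ^ k := by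
  rw [LL_normdiff hf hA hB hε hD hBne h1 t r ht hr]
  have hi : ‖∫ x, f x * ∏ j ∈ Finset.range (k + 1), (A x + ((t + j * r : ℝ) : ℂ) * B x)⁻¹ ∂μ‖ ≤
      (ε * (1 / (2 * (k:ℝ) + 1)) ^ (k + 1))⁻¹ * M := by
    calc _ ≤ ∫ x, (ε * (1 / (2 * (k:ℝ) + 1)) ^ (k + 1))⁻¹ * ‖f x / (A x + a * B x) ^ k‖ ∂μ := by
          apply norm_integral_le_of_norm_le (h2.norm.const_mul _)
          exact Eventually.of_forall (G_bound hε hD k t r a ht hr ha1 ha2)
      _ = (ε * (1 / (2 * (k:ℝ) + 1)) ^ (k + 1))⁻¹ * ∫ x, ‖f x / (A x + a * B x) ^ k‖ ∂μ := by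
          rw [integral_const_mul]
      _ ≤ _ := by gcongr
  calc (k.factorial : ℝ) * r ^ k * _ ≤
        k.factorial * r ^ k * ((ε * (1 / (2 * (k:ℝ) + 1)) ^ (k + 1))⁻¹ * M) := by gcongr
    _ = _ := by ring

lemma LL_lim (hf : AEStronglyMeasurable f μ) (hA : Measurable A) (hB : Measurable B)
    {ε : ℝ} (hε : 0 < ε) (hD : ∀ x, ∀ s : ℝ, 0 ≤ s → ε ≤ ‖A x + s * B x‖)
    (hBne : ∀ x, B x ≠ 0)
    {k : ℕ} (h1 : Integrable (fun x => f x / (B x) ^ k) μ) (t : ℝ) (ht : 0 ≤ t)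
    (h2 : Integrable (fun x => f x / (A x + t * B x) ^ k) μ)
    (h3 : ∫ x, f x / (A x + t * B x) ^ (k + 1) ∂μ = 0) :
    Tendsto (fun r => ‖(dl r)^[k] (LL μ f A B k) t‖ / r ^ k) (𝓝[>] 0) (𝓝 0) := by
  have hDne : ∀ x, ∀ s : ℝ, 0 ≤ s → A x + s * B x ≠ 0 := by
    intro x s hs h
    have := hD x s hs
    rw [h, norm_zero] at this
    linarith
  set G : ℝ → X → ℂ := fun r x =>
    f x * ∏ j ∈ Finset.range (k + 1), (A x + ((t + j * r : ℝ) : ℂ) * B x)⁻¹ with hG
  have hGmeas : ∀ r, AEStronglyMeasurable (G r) μ := by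
    intro r
    apply hf.mul
    apply Measurable.aestronglyMeasurable
    apply Finset.measurable_prod
    intro j _
    exact (hA.add (measurable_const.mul hB)).inv
  have hGlim : Tendsto (fun r => ∫ x, G r x ∂μ) (𝓝[>] 0) (𝓝 0) := by
    have := tendsto_integral_filter_of_dominated_convergence (μ := μ) (l := 𝓝[>] (0:ℝ))
      (F := fun r x => G r x) (f := fun x => f x / (A x + t * B x) ^ (k + 1))
      (fun x => (ε * (1 / (2 * (k:ℝ) + 1)) ^ (k + 1))⁻¹ * ‖f x / (A x + t * B x) ^ k‖) ?_ ?_ ?_ ?_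
    · rwa [h3] at this
    · exact Eventually.of_forall (fun r => hGmeas r)
    · filter_upwards [self_mem_nhdsWithin] with r hr
      have hr' : 0 < r := hr
      have hk0 : (0:ℝ) ≤ k := Nat.cast_nonneg k
      exact Eventually.of_forall (G_bound hε hD k t r t ht hr' le_rfl (by nlinarith))
    · exact h2.norm.const_mul _
    · refine Eventually.of_forall (fun x => ?_)
      have hcont : ContinuousAt (fun r : ℝ => G r x) 0 := by
        simp only [hG]
        apply ContinuousAt.mul continuousAt_const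
        apply tendsto_finset_prod
        intro j _
        apply ContinuousAt.inv₀
        · fun_prop
        · simp only [mul_zero, add_zero]; exact hDne x t ht
      have h0 : G 0 x = f x / (A x + t * B x) ^ (k + 1) := by
        simp [hG, div_eq_mul_inv]
      rw [← h0]
      exact hcont.tendsto.mono_left nhdsWithin_le_nhds
  have hGn : Tendsto (fun r => (k.factorial : ℝ) * ‖∫ x, G r x ∂μ‖) (𝓝[>] 0) (𝓝 0) := by
    have := (hGlim.norm).const_mul (k.factorial : ℝ)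
    simpa using this
  refine hGn.congr' ?_
  filter_upwards [self_mem_nhdsWithin] with r hr
  have hr' : 0 < r := hr
  rw [LL_normdiff hf hA hB hε hD hBne h1 t r ht hr']
  change (k.factorial : ℝ) * ‖∫ x, G r x ∂μ‖ = k.factorial * r ^ k * ‖∫ x, G r x ∂μ‖ / r ^ k
  have hrk : r ^ k ≠ 0 := by positivity
  field_simp

lemma LL_inf (hf : AEStronglyMeasurable f μ) (hA : Measurable A) (hB : Measurable B)
    {ε : ℝ} (hε : 0 < ε) (hD : ∀ x, ∀ s : ℝ, 0 ≤ s → ε ≤ ‖A x + s * B x‖)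
    (hBne : ∀ x, B x ≠ 0)
    {k : ℕ} (h1 : Integrable (fun x => f x / (B x) ^ k) μ) :
    Tendsto (LL μ f A B k) atTop (𝓝 0) := by
  have hFmeas : ∀ t, AEStronglyMeasurable
      (fun x => f x / (B x) ^ k * (A x + ((max t 0 : ℝ) : ℂ) * B x)⁻¹) μ := fun t =>
    (LL_integrable hf hA hB hε hD h1 t).aestronglyMeasurable
  have := tendsto_integral_filter_of_dominated_convergence (μ := μ) (l := (atTop : Filter ℝ))
    (F := fun t x => f x / (B x) ^ k * (A x + ((max t 0 : ℝ) : ℂ) * B x)⁻¹)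
    (f := fun _ => (0:ℂ)) (fun x => ‖f x / (B x) ^ k‖ * ε⁻¹)
    (Eventually.of_forall hFmeas) (Eventually.of_forall (fun t => Eventually.of_forall (fun x => by
      rw [norm_mul, norm_inv]
      gcongr
      exact hD x _ (le_max_right _ _))))
    (h1.norm.mul_const ε⁻¹) ?_
  · have e : LL μ f A B k =
        fun t => ∫ x, f x / (B x) ^ k * (A x + ((max t 0 : ℝ) : ℂ) * B x)⁻¹ ∂μ := rfl
    rw [e]
    simpa using this
  · refine Eventually.of_forall (fun x => ?_)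
    have h0 : (0:ℂ) = f x / (B x) ^ k * 0 := by ring
    rw [h0]
    apply Tendsto.mul tendsto_const_nhds
    apply Filter.Tendsto.comp tendsto_inv₀_cobounded
    rw [← tendsto_norm_atTop_iff_cobounded]
    have hBn : 0 < ‖B x‖ := norm_pos_iff.2 (hBne x)
    have hlow : ∀ t : ℝ, 0 ≤ t → t * ‖B x‖ - ‖A x‖ ≤ ‖A x + ((max t 0 : ℝ) : ℂ) * B x‖ := by
      intro t ht
      rw [max_eq_left ht]
      have h5 : t * ‖B x‖ = ‖((t : ℝ) : ℂ) * B x‖ := by
        rw [norm_mul, Complex.norm_real, Real.norm_eq_abs, abs_of_nonneg ht]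
      have h7 := norm_sub_le (A x + (t : ℂ) * B x) (A x)
      rw [add_sub_cancel_left] at h7
      linarith
    have h6 : Tendsto (fun t : ℝ => t * ‖B x‖ - ‖A x‖) atTop atTop := by
      apply tendsto_atTop_add_const_right
      exact tendsto_id.atTop_mul_const hBn
    apply tendsto_atTop_mono' _ _ h6
    filter_upwards [eventually_ge_atTop (0:ℝ)] with t ht
    exact hlow t ht

/-- If all differences vanish then `LL` vanishes at `0`. -/
lemma LL_zero (hf : AEStronglyMeasurable f μ) (hA : Measurable A) (hB : Measurable B)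
    {ε : ℝ} (hε : 0 < ε) (hD : ∀ x, ∀ s : ℝ, 0 ≤ s → ε ≤ ‖A x + s * B x‖)
    (hBne : ∀ x, B x ≠ 0)
    {k : ℕ} (h1 : Integrable (fun x => f x / (B x) ^ k) μ)
    (hall : ∀ t r : ℝ, 0 < t → 0 < r → (dl r)^[k] (LL μ f A B k) t = 0) :
    ∫ x, f x / ((B x) ^ k * A x) ∂μ = 0 := by
  have hinf := LL_inf hf hA hB hε hD hBne h1
  have hLc := LL_continuous hf hA hB hε hD h1
  have hzero : ∀ t, 0 < t → LL μ f A B k t = 0 := fun t ht =>
    zero_of_diff k _ hinf t (fun r hr => hall t r ht hr)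
  have hL0 : LL μ f A B k 0 = 0 := by
    have h5 : Tendsto (LL μ f A B k) (𝓝[>] 0) (𝓝 (LL μ f A B k 0)) :=
      hLc.continuousAt.tendsto.mono_left nhdsWithin_le_nhds
    have h6 : Tendsto (LL μ f A B k) (𝓝[>] 0) (𝓝 0) := by
      apply tendsto_const_nhds.congr'
      filter_upwards [self_mem_nhdsWithin] with t ht
      exact (hzero t ht).symm
    exact tendsto_nhds_unique h5 h6
  rw [← hL0]
  unfold LL
  congr 1
  funext x
  rw [max_self, Complex.ofReal_zero, zero_mul, add_zero, div_mul_eq_div_div,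
    div_eq_mul_inv (f x / B x ^ k)]

end

end U506.RT
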