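import Pool.Agent.U506.RT.A

/-! Calculus with iterated differences. -/

set_option autoImplicit false
open MeasureTheory Set Filter Topology

namespace U506.RT

lemma dl_succ' (r : ℝ) (k : ℕ) (g : ℝ → ℂ) (t : ℝ) :
    (dl r)^[k + 1] g t = (dl r)^[k] g (t + r) - (dl r)^[k] g t := by
  rw [Function.iterate_succ']
  rfl

lemma dl_hasDerivAt (r : ℝ) (k : ℕ) (G : ℝ → ℝ → ℂ) (G' : ℝ → ℂ) (u₀ : ℝ) : ∀ t : ℝ,
    (∀ j : ℕ, j ≤ k → HasDerivAt (fun u => G u (t + j * r)) (G' (t + j * r)) u₀) →
    HasDerivAt (fun u => (dl r)^[k] (G u) t) ((dl r)^[k] G' t) u₀ := by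
  induction k with
  | zero =>
    intro t h
    simpa using h 0 le_rfl
  | succ k ih =>
    intro t h
    have h1 : HasDerivAt (fun u => (dl r)^[k] (G u) (t + r)) ((dl r)^[k] G' (t + r)) u₀ := by
      apply ih
      intro j hj
      have := h (j + 1) (by omega)
      have e : t + ((j + 1 : ℕ) : ℝ) * r = t + r + j * r := by push_cast; ring
      rw [e] at this
      exact this
    have h2 : HasDerivAt (fun u => (dl r)^[k] (G u) t) ((dl r)^[k] G' t) u₀ :=
      ih t (fun j hj => h j (by omega))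
    have h3 := h1.sub h2
    simp_rw [dl_succ']
    exact h3

lemma dl_tendsto {ι : Type*} {l : Filter ι} (r : ℝ) (k : ℕ) (G : ι → ℝ → ℂ) (G' : ℝ → ℂ) :
    ∀ t : ℝ,
    (∀ j : ℕ, j ≤ k → Tendsto (fun u => G u (t + j * r)) l (𝓝 (G' (t + j * r)))) →
    Tendsto (fun u => (dl r)^[k] (G u) t) l (𝓝 ((dl r)^[k] G' t)) := by
  induction k with
  | zero =>
    intro t h
    simpa using h 0 le_rfl
  | succ k ih =>
    intro t h
    have h1 : Tendsto (fun u => (dl r)^[k] (G u) (t + r)) l (𝓝 ((dl r)^[k] G' (t + r))) := by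
      apply ih
      intro j hj
      have := h (j + 1) (by omega)
      have e : t + ((j + 1 : ℕ) : ℝ) * r = t + r + j * r := by push_cast; ring
      rw [e] at this
      exact this
    have h2 : Tendsto (fun u => (dl r)^[k] (G u) t) l (𝓝 ((dl r)^[k] G' t)) :=
      ih t (fun j hj => h j (by omega))
    have h3 := h1.sub h2
    simp_rw [dl_succ']
    exact h3

lemma dl_zero_fun (r : ℝ) (k : ℕ) (t : ℝ) : (dl r)^[k] (fun _ => (0:ℂ)) t = 0 := by
  induction k generalizing t with
  | zero => rfl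
  | succ k ih => rw [dl_succ', ih, ih, sub_zero]

lemma dl_smul (r : ℝ) (k : ℕ) (c : ℂ) (g : ℝ → ℂ) (t : ℝ) :
    (dl r)^[k] (fun s => c * g s) t = c * (dl r)^[k] g t := by
  induction k generalizing t with
  | zero => rfl
  | succ k ih => rw [dl_succ', dl_succ', ih, ih, mul_sub]

lemma dl_neg (r : ℝ) (k : ℕ) (g : ℝ → ℂ) (t : ℝ) :
    (dl r)^[k] (fun s => -g s) t = -(dl r)^[k] g t := by
  have := dl_smul r k (-1) g t
  simpa using this

lemma dl_shift (r : ℝ) (k : ℕ) (g : ℝ → ℂ) (u t : ℝ) :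
    (dl r)^[k] (fun s => g (s + u)) t = (dl r)^[k] g (t + u) := by
  induction k generalizing t with
  | zero => rfl
  | succ k ih =>
    rw [dl_succ', dl_succ', ih, ih]
    have : t + r + u = t + u + r := by ring
    rw [this]

/-- From the derivative to the function. -/
lemma dl_up (k : ℕ) (g g' : ℝ → ℂ) (α β : ℝ) (hg : ∀ t, α < t → t < β → HasDerivAt g (g' t) t)
    (h : ∀ t r : ℝ, 0 < r → α < t → t + k * r < β → (dl r)^[k] g' t = 0) :
    ∀ t r : ℝ, 0 < r → α < t → t + ((k + 1 : ℕ) : ℝ) * r < β → (dl r)^[k + 1] g t = 0 := by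
  intro t r hr ht1 ht2
  have e : t + ((k + 1 : ℕ) : ℝ) * r = t + k * r + r := by push_cast; ring
  rw [e] at ht2
  set ψ : ℝ → ℂ := fun u => (dl r)^[k] (fun s => g (s + u)) t with hψ
  have hder : ∀ u, 0 ≤ u → u ≤ r → HasDerivAt ψ 0 u := by
    intro u hu1 hu2
    have h0 : (dl r)^[k] (fun s => g' (s + u)) t = 0 := by
      rw [dl_shift]
      exact h (t + u) r hr (by linarith) (by linarith)
    rw [← h0]
    refine dl_hasDerivAt r k (fun u s => g (s + u)) (fun s => g' (s + u)) u t ?_
    intro j hj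
    have hj' : (j : ℝ) * r ≤ k * r := by
      have : (j : ℝ) ≤ k := by exact_mod_cast hj
      nlinarith
    have hj0 : 0 ≤ (j : ℝ) * r := by positivity
    have := hg (t + j * r + u) (by linarith) (by linarith)
    exact HasDerivAt.comp_const_add (t + j * r) u this
  have hconst := constant_of_has_deriv_right_zero (f := ψ) (a := 0) (b := r)
    (fun u hu => (hder u hu.1 hu.2).continuousAt.continuousWithinAt)
    (fun u hu => (hder u hu.1 hu.2.le).hasDerivWithinAt) r ⟨hr.le, le_rfl⟩
  have h1 : ψ r = (dl r)^[k] g (t + r) := by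
    simp only [hψ]
    rw [dl_shift]
  have h2 : ψ 0 = (dl r)^[k] g t := by
    simp only [hψ]
    rw [dl_shift, add_zero]
  rw [dl_succ', ← h1, ← h2, hconst, sub_self]

/-- From the function to the derivative. -/
lemma dl_down (k : ℕ) (g g' : ℝ → ℂ) (α β : ℝ) (hg : ∀ t, α < t → t < β → HasDerivAt g (g' t) t)
    (h : ∀ t r : ℝ, 0 < r → α < t → t + ((k + 1 : ℕ) : ℝ) * r < β → (dl r)^[k + 1] g t = 0) :
    ∀ t r : ℝ, 0 < r → α < t → t + k * r < β → (dl r)^[k] g' t = 0 := by
  intro t r hr ht1 ht2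
  have hk0 : (0:ℝ) ≤ k := Nat.cast_nonneg k
  have key : ∀ n : ℕ, ∀ s : ℝ, 0 < s → ∀ t : ℝ, α < t → t + k * (2 ^ n * s) + s < β →
      (dl (2 ^ n * s))^[k] (dl s g) t = 0 := by
    intro n
    induction n with
    | zero =>
      intro s hs t h1 h2
      rw [pow_zero, one_mul]
      have e : t + ((k + 1 : ℕ) : ℝ) * s = t + k * (2 ^ 0 * s) + s := by push_cast; ring
      have := h t s hs h1 (by rw [e]; exact h2)
      rwa [Function.iterate_succ] at this
    | succ n ih =>
      intro s hs t h1 h2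
      have e : (2:ℝ) ^ (n + 1) * s = 2 * (2 ^ n * s) := by rw [pow_succ]; ring
      rw [e, dl_two_iter]
      apply ts_iter_zero _ (by positivity)
      intro x hx1 hx2
      apply ih s hs x (by linarith)
      rw [e] at h2
      have : k * (2 * (2 ^ n * s)) = k * (2 ^ n * s) + k * (2 ^ n * s) := by ring
      linarith
  set s : ℕ → ℝ := fun n => r / 2 ^ n with hs
  have hs0 : ∀ n, 0 < s n := fun n => by simp only [hs]; positivity
  have hslim : Tendsto s atTop (𝓝 0) := by
    have h := (tendsto_pow_atTop_nhds_zero_of_lt_one (r := (1/2:ℝ)) (by norm_num)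
      (by norm_num)).const_mul r
    simp only [mul_zero] at h
    refine h.congr ?_
    intro n
    simp only [hs]
    rw [div_pow, one_pow, mul_one_div]
  have hev : ∀ᶠ n in atTop, t + k * r + s n < β := by
    have h1 : Tendsto (fun n => t + k * r + s n) atTop (𝓝 (t + k * r + 0)) :=
      hslim.const_add _
    rw [add_zero] at h1
    exact (tendsto_order.1 h1).2 β ht2
  have hz : ∀ᶠ n in atTop, (dl r)^[k] (fun t' => ((s n : ℝ) : ℂ)⁻¹ * dl (s n) g t') t = 0 := by
    filter_upwards [hev] with n hn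
    rw [dl_smul]
    have e : (2:ℝ) ^ n * s n = r := by
      simp only [hs]
      field_simp
    have := key n (s n) (hs0 n) t ht1 (by rw [e]; exact hn)
    rw [e] at this
    rw [this, mul_zero]
  have hlim : Tendsto (fun n => (dl r)^[k] (fun t' => ((s n : ℝ) : ℂ)⁻¹ * dl (s n) g t') t) atTop
      (𝓝 ((dl r)^[k] g' t)) := by
    refine dl_tendsto r k _ _ t ?_
    intro j hj
    have hj' : (j : ℝ) * r ≤ k * r := by
      have : (j : ℝ) ≤ k := by exact_mod_cast hj
      nlinarith
    have hj0 : 0 ≤ (j : ℝ) * r := by positivity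
    have h1 := hg (t + j * r) (by linarith) (by linarith)
    rw [hasDerivAt_iff_tendsto_slope_zero] at h1
    have hs1 : Tendsto s atTop (𝓝[≠] 0) := by
      rw [tendsto_nhdsWithin_iff]
      exact ⟨hslim, Eventually.of_forall (fun n => (hs0 n).ne')⟩
    have h2 := h1.comp hs1
    refine h2.congr (fun n => ?_)
    simp only [Function.comp, dl, Complex.real_smul, Complex.ofReal_inv]
  exact tendsto_nhds_unique (hlim.congr' hz) tendsto_const_nhds

end U506.RT
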