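import Pool.Agent.U506.RT.H2
import Pool.Agent.U506.RT.I

/-! Derivatives in the spectral parameter and in the slope. -/

set_option autoImplicit false
open MeasureTheory Set Filter Topology
open scoped ENNReal

namespace U506.RT

variable {X : Type*} [MeasurableSpace X] {μ : Measure X}

/-- The path in the lower half plane. -/
noncomputable def wp (z : ℂ) (τ : ℝ) : ℂ :=
  (z.re : ℂ) + ((z.im * Real.exp τ : ℝ) : ℂ) * Complex.I

lemma wp_im (z : ℂ) (τ : ℝ) : (wp z τ).im = z.im * Real.exp τ := by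
  simp only [wp, Complex.add_im, Complex.ofReal_im, Complex.im_ofReal_mul, Complex.I_im, mul_one,
    zero_add]

lemma wp_zero (z : ℂ) : wp z 0 = z := by
  simp only [wp, Real.exp_zero, mul_one]
  exact Complex.re_add_im z

lemma wp_neg {z : ℂ} (hz : z.im < 0) (τ : ℝ) : (wp z τ).im < 0 := by
  rw [wp_im]
  exact mul_neg_of_neg_of_pos hz (Real.exp_pos τ)

lemma sub_lower (Q z : ℂ) (hQ : 0 ≤ Q.im) (hz : z.im < 0) : -z.im ≤ ‖Q - z‖ := by
  have := Complex.abs_im_le_norm (Q - z)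
  rw [Complex.sub_im] at this
  have h2 := le_abs_self (Q.im - z.im)
  linarith

lemma integrable_Q {W : X → ℂ} (hW : Integrable W μ) {Q : X → ℂ} (hQm : Measurable Q)
    (hQ : ∀ x, 0 ≤ (Q x).im) (j : ℕ) (z : ℂ) (hz : z.im < 0) :
    Integrable (fun x => W x / (Q x - z) ^ j) μ := by
  have hz' : 0 < -z.im := by linarith
  have h : Integrable (fun x => ((Q x - z) ^ j)⁻¹ * W x) μ := by
    refine Integrable.bdd_mul (c := ((-z.im) ^ j)⁻¹) hW ?_ ?_
    · exact ((hQm.sub measurable_const).pow_const j).inv.aestronglyMeasurable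
    · refine Eventually.of_forall (fun x => ?_)
      have h1 := sub_lower (Q x) z (hQ x) hz
      rw [norm_inv, norm_pow]
      gcongr
  refine h.congr (Eventually.of_forall (fun x => ?_))
  simp only [div_eq_mul_inv]
  ring

lemma path_deriv {W : X → ℂ} (hW : Integrable W μ) {Q : X → ℂ} (hQm : Measurable Q)
    (hQ : ∀ x, 0 ≤ (Q x).im) (z : ℂ) (hz : z.im < 0) (τ₀ : ℝ) :
    HasDerivAt (fun τ => ∫ x, W x / (Q x - wp z τ) ∂μ)
      ((((z.im * Real.exp τ₀ : ℝ) : ℂ) * Complex.I) * ∫ x, W x / (Q x - wp z τ₀) ^ 2 ∂μ) τ₀ := by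
  have hz' : 0 < -z.im := by linarith
  have hsub : ∀ τ x, (-z.im) * Real.exp τ ≤ ‖Q x - wp z τ‖ := by
    intro τ x
    have := sub_lower (Q x) (wp z τ) (hQ x) (wp_neg hz τ)
    rw [wp_im] at this
    linarith
  have hne : ∀ τ x, Q x - wp z τ ≠ 0 := by
    intro τ x h
    have := hsub τ x
    rw [h, norm_zero] at this
    have h2 := mul_pos hz' (Real.exp_pos τ)
    linarith
  have hw' : ∀ τ, HasDerivAt (wp z) (((z.im * Real.exp τ : ℝ) : ℂ) * Complex.I) τ := by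
    intro τ
    have h1 : HasDerivAt (fun τ : ℝ => z.im * Real.exp τ) (z.im * Real.exp τ) τ :=
      (Real.hasDerivAt_exp τ).const_mul _
    have h2 := h1.ofReal_comp
    exact (h2.mul_const Complex.I).const_add _
  set F : ℝ → X → ℂ := fun τ x => W x / (Q x - wp z τ) with hF
  set F' : ℝ → X → ℂ := fun τ x => (((z.im * Real.exp τ : ℝ) : ℂ) * Complex.I) *
    (W x / (Q x - wp z τ) ^ 2) with hF'
  have hFi : ∀ τ, Integrable (F τ) μ := fun τ => by
    have := integrable_Q hW hQm hQ 1 (wp z τ) (wp_neg hz τ)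
    simpa only [pow_one] using this
  have hF'i : ∀ τ, Integrable (F' τ) μ := fun τ =>
    (integrable_Q hW hQm hQ 2 (wp z τ) (wp_neg hz τ)).const_mul _
  have hder : ∀ τ x, HasDerivAt (fun τ => F τ x) (F' τ x) τ := by
    intro τ x
    have h1 : HasDerivAt (fun τ => Q x - wp z τ) (-(((z.im * Real.exp τ : ℝ) : ℂ) * Complex.I)) τ :=
      (hw' τ).const_sub _
    have h3 := (h1.fun_inv (hne τ x)).const_mul (W x)
    have h4 : (fun τ => W x * (Q x - wp z τ)⁻¹) = fun τ => F τ x := by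
      funext τ
      simp only [hF, div_eq_mul_inv]
    rw [h4] at h3
    have h5 : F' τ x = W x * (-(-(((z.im * Real.exp τ : ℝ) : ℂ) * Complex.I)) /
        (Q x - wp z τ) ^ 2) := by
      simp only [hF', neg_neg]
      ring
    rw [h5]
    exact h3
  have hbd : ∀ τ x, τ ∈ Metric.ball τ₀ (1 : ℝ) →
      ‖F' τ x‖ ≤ ((-z.im) * Real.exp (τ₀ - 1))⁻¹ * ‖W x‖ := by
    intro τ x hτ
    have h1 : τ₀ - 1 ≤ τ := by
      rw [Metric.mem_ball, Real.dist_eq, abs_lt] at hτ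
      linarith [hτ.1]
    have h2 : Real.exp (τ₀ - 1) ≤ Real.exp τ := Real.exp_le_exp.2 h1
    have h3 := hsub τ x
    have h4 : 0 < (-z.im) * Real.exp τ := mul_pos hz' (Real.exp_pos τ)
    have h5 : 0 < (-z.im) * Real.exp (τ₀ - 1) := mul_pos hz' (Real.exp_pos _)
    have h6 : 0 < ‖Q x - wp z τ‖ := lt_of_lt_of_le h4 h3
    simp only [hF', norm_mul, norm_div, norm_pow, Complex.norm_I, Complex.norm_real,
      mul_one, Real.norm_eq_abs]
    rw [abs_of_pos (Real.exp_pos τ), abs_of_neg hz]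
    rw [← mul_div_assoc, div_le_iff₀ (by positivity)]
    have h9 : 1 ≤ ((-z.im) * Real.exp (τ₀ - 1))⁻¹ * ‖Q x - wp z τ‖ := by
      rw [← div_eq_inv_mul, le_div_iff₀ h5, one_mul]
      calc (-z.im) * Real.exp (τ₀ - 1) ≤ (-z.im) * Real.exp τ := by gcongr
        _ ≤ _ := h3
    calc (-z.im) * Real.exp τ * ‖W x‖ ≤ ‖Q x - wp z τ‖ * ‖W x‖ := by gcongr
      _ = 1 * (‖Q x - wp z τ‖ * ‖W x‖) := by ring
      _ ≤ (((-z.im) * Real.exp (τ₀ - 1))⁻¹ * ‖Q x - wp z τ‖) * (‖Q x - wp z τ‖ * ‖W x‖) := by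
          gcongr
      _ = _ := by ring
  have := (hasDerivAt_integral_of_dominated_loc_of_deriv_le (μ := μ) (F := F) (F' := F') (x₀ := τ₀)
    (s := Metric.ball τ₀ 1) (bound := fun x => ((-z.im) * Real.exp (τ₀ - 1))⁻¹ * ‖W x‖)
    (Metric.ball_mem_nhds τ₀ one_pos)
    (Eventually.of_forall (fun τ => (hFi τ).aestronglyMeasurable)) (hFi τ₀)
    (hF'i τ₀).aestronglyMeasurable
    (Eventually.of_forall (fun x τ hτ => hbd τ x hτ))
    (hW.norm.const_mul _)
    (Eventually.of_forall (fun x τ _ => hder τ x))).2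
  simp only [hF'] at this
  rw [integral_const_mul] at this
  exact this

lemma path_lim {W : X → ℂ} (hW : Integrable W μ) {Q : X → ℂ} (hQm : Measurable Q)
    (hQ : ∀ x, 0 ≤ (Q x).im) (z : ℂ) (hz : z.im < 0) :
    Tendsto (fun n : ℕ => ∫ x, W x / (Q x - wp z n) ∂μ) atTop (𝓝 0) := by
  have hz' : 0 < -z.im := by linarith
  have hb : ∀ (n : ℕ), ‖∫ x, W x / (Q x - wp z n) ∂μ‖ ≤
      ((-z.im)⁻¹ * ∫ x, ‖W x‖ ∂μ) * (Real.exp n)⁻¹ := by
    intro n
    calc ‖∫ x, W x / (Q x - wp z n) ∂μ‖ ≤ ∫ x, ((-z.im) * Real.exp n)⁻¹ * ‖W x‖ ∂μ := by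
          apply norm_integral_le_of_norm_le (hW.norm.const_mul _)
          refine Eventually.of_forall (fun x => ?_)
          have h1 := sub_lower (Q x) (wp z n) (hQ x) (wp_neg hz n)
          rw [wp_im] at h1
          have h4 : 0 < (-z.im) * Real.exp n := mul_pos hz' (Real.exp_pos _)
          rw [norm_div, div_eq_inv_mul]
          gcongr
          linarith
      _ = _ := by rw [integral_const_mul, mul_inv]; ring
  have hlim0 : Tendsto (fun n : ℕ => ((-z.im)⁻¹ * ∫ x, ‖W x‖ ∂μ) * (Real.exp (n : ℝ))⁻¹) atTop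
      (𝓝 (((-z.im)⁻¹ * ∫ x, ‖W x‖ ∂μ) * 0)) := by
    apply Tendsto.const_mul
    exact (Real.tendsto_exp_atTop.comp tendsto_natCast_atTop_atTop).inv_tendsto_atTop
  rw [mul_zero] at hlim0
  exact squeeze_zero_norm hb hlim0

/-- From kernels of order two to kernels of order one. -/
lemma phi_down {W : X → ℂ} (hW : Integrable W μ) (Q : ℝ → X → ℂ) (hQm : ∀ t, Measurable (Q t))
    (hQ : ∀ t x, 0 ≤ (Q t x).im) (k : ℕ) (r t₀ : ℝ)
    (h : ∀ z : ℂ, z.im < 0 → (dl r)^[k] (fun t => ∫ x, W x / (Q t x - z) ^ 2 ∂μ) t₀ = 0)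
    (z : ℂ) (hz : z.im < 0) : (dl r)^[k] (fun t => ∫ x, W x / (Q t x - z) ∂μ) t₀ = 0 := by
  set ψ : ℝ → ℂ := fun τ => (dl r)^[k] (fun t => ∫ x, W x / (Q t x - wp z τ) ∂μ) t₀ with hψ
  have hder : ∀ τ, HasDerivAt ψ 0 τ := by
    intro τ
    have h1 := dl_hasDerivAt r k (fun τ t => ∫ x, W x / (Q t x - wp z τ) ∂μ)
      (fun t => (((z.im * Real.exp τ : ℝ) : ℂ) * Complex.I) * ∫ x, W x / (Q t x - wp z τ) ^ 2 ∂μ)
      τ t₀ (fun j _ => path_deriv hW (hQm _) (hQ _) z hz τ)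
    rw [dl_smul, h _ (wp_neg hz τ), mul_zero] at h1
    exact h1
  have hconst : ∀ n : ℕ, ψ n = ψ 0 := fun n =>
    is_const_of_deriv_eq_zero (fun τ => (hder τ).differentiableAt) (fun τ => (hder τ).deriv) n 0
  have hlim : Tendsto (fun n : ℕ => ψ n) atTop (𝓝 0) := by
    have := dl_tendsto (l := atTop) r k
      (fun (n : ℕ) t => ∫ x, W x / (Q t x - wp z n) ∂μ) (fun _ => 0) t₀
      (fun j _ => path_lim hW (hQm _) (hQ _) z hz)
    rw [dl_zero_fun] at this
    exact this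
  have h0 : ψ 0 = 0 := by
    have h1 : Tendsto (fun n : ℕ => ψ n) atTop (𝓝 (ψ 0)) := by
      simp_rw [hconst]
      exact tendsto_const_nhds
    exact tendsto_nhds_unique h1 hlim
  simp only [hψ, wp_zero] at h0
  exact h0

/-- From kernels of order one to kernels of order two. -/
lemma phi_up {W : X → ℂ} (hW : Integrable W μ) (Q : ℝ → X → ℂ) (hQm : ∀ t, Measurable (Q t))
    (hQ : ∀ t x, 0 ≤ (Q t x).im) (k : ℕ) (r t₀ : ℝ)
    (h : ∀ z : ℂ, z.im < 0 → (dl r)^[k] (fun t => ∫ x, W x / (Q t x - z) ∂μ) t₀ = 0)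
    (z : ℂ) (hz : z.im < 0) : (dl r)^[k] (fun t => ∫ x, W x / (Q t x - z) ^ 2 ∂μ) t₀ = 0 := by
  have h1 := dl_hasDerivAt r k (fun τ t => ∫ x, W x / (Q t x - wp z τ) ∂μ)
    (fun t => (((z.im * Real.exp 0 : ℝ) : ℂ) * Complex.I) * ∫ x, W x / (Q t x - wp z 0) ^ 2 ∂μ)
    0 t₀ (fun j _ => path_deriv hW (hQm _) (hQ _) z hz 0)
  have h2 : (fun τ : ℝ => (dl r)^[k] (fun t => ∫ x, W x / (Q t x - wp z τ) ∂μ) t₀) = fun _ => 0 := by
    funext τ
    exact h _ (wp_neg hz τ)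
  rw [h2, dl_smul, wp_zero] at h1
  have h3 := h1.unique (hasDerivAt_const (0:ℝ) (0:ℂ))
  rcases mul_eq_zero.1 h3 with h4 | h4
  · exfalso
    rcases mul_eq_zero.1 h4 with h5 | h5
    · rw [Real.exp_zero, mul_one, Complex.ofReal_eq_zero] at h5
      exact hz.ne h5
    · exact Complex.I_ne_zero h5
  · exact h4

/-- The derivative in the slope. -/
lemma slope_deriv {V B : X → ℂ} (hV : Integrable V μ) (hB : Measurable B)
    (hVB : Integrable (fun x => V x * B x) μ) {q : X → ℝ} (hq : Measurable q)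
    (hBi : ∀ x, 0 ≤ (B x).im) (z : ℂ) (hz : z.im < 0) (t₀ : ℝ) (ht₀ : 0 < t₀) :
    HasDerivAt (fun t : ℝ => ∫ x, V x / (((q x : ℂ) + ((max t 0 : ℝ) : ℂ) * B x) - z) ∂μ)
      (-∫ x, V x * B x / (((q x : ℂ) + ((max t₀ 0 : ℝ) : ℂ) * B x) - z) ^ 2 ∂μ) t₀ := by
  have hz' : 0 < -z.im := by linarith
  have hQi : ∀ t : ℝ, 0 ≤ t → ∀ x, 0 ≤ ((q x : ℂ) + (t : ℂ) * B x).im := by
    intro t ht x
    rw [Complex.add_im, Complex.ofReal_im, Complex.im_ofReal_mul, zero_add]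
    exact mul_nonneg ht (hBi x)
  have hQm : ∀ t : ℝ, Measurable (fun x => (q x : ℂ) + (t : ℂ) * B x) := fun t =>
    (Complex.measurable_ofReal.comp hq).add (hB.const_mul _)
  have hlow : ∀ t : ℝ, 0 ≤ t → ∀ x, -z.im ≤ ‖(q x : ℂ) + (t : ℂ) * B x - z‖ := fun t ht x =>
    sub_lower _ z (hQi t ht x) hz
  have hne : ∀ t : ℝ, 0 ≤ t → ∀ x, (q x : ℂ) + (t : ℂ) * B x - z ≠ 0 := by
    intro t ht x h
    have := hlow t ht x
    rw [h, norm_zero] at this
    linarith
  set F : ℝ → X → ℂ := fun t x => V x / (((q x : ℂ) + ((max t 0 : ℝ) : ℂ) * B x) - z) with hF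
  set F' : ℝ → X → ℂ := fun t x =>
    -(V x * B x / (((q x : ℂ) + ((max t 0 : ℝ) : ℂ) * B x) - z) ^ 2) with hF'
  have hFi : ∀ t, Integrable (F t) μ := fun t => by
    have := integrable_Q hV (hQm (max t 0)) (hQi _ (le_max_right _ _)) 1 z hz
    simpa only [pow_one] using this
  have hF'i : ∀ t, Integrable (F' t) μ := fun t =>
    (integrable_Q hVB (hQm (max t 0)) (hQi _ (le_max_right _ _)) 2 z hz).neg
  have := (hasDerivAt_integral_of_dominated_loc_of_deriv_le (μ := μ) (F := F) (F' := F') (x₀ := t₀)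
    (s := Ioi 0) (bound := fun x => ((-z.im) ^ 2)⁻¹ * ‖V x * B x‖)
    (Ioi_mem_nhds ht₀)
    (Eventually.of_forall (fun τ => (hFi τ).aestronglyMeasurable)) (hFi t₀)
    (hF'i t₀).aestronglyMeasurable ?_
    (hVB.norm.const_mul _) ?_).2
  · simp only [hF'] at this
    rw [integral_neg] at this
    exact this
  · refine Eventually.of_forall (fun x t ht => ?_)
    simp only [hF']
    rw [norm_neg, norm_div, norm_pow, div_eq_inv_mul]
    have h1 := hlow (max t 0) (le_max_right _ _) x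
    gcongr
  · refine Eventually.of_forall (fun x t ht => ?_)
    have ht' : (0:ℝ) < t := ht
    have h1 : HasDerivAt (fun t : ℝ => (q x : ℂ) + (t : ℂ) * B x - z) (B x) t := by
      have h2 : HasDerivAt (fun t : ℝ => ((t : ℝ) : ℂ)) 1 t := Complex.ofRealCLM.hasDerivAt
      have h3 := ((h2.mul_const (B x)).const_add (q x : ℂ)).sub_const z
      rw [one_mul] at h3
      exact h3
    have h4 := (h1.fun_inv (hne t ht'.le x)).const_mul (V x)
    have h5 : F' t x = V x * (-B x / ((q x : ℂ) + (t : ℂ) * B x - z) ^ 2) := by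
      simp only [hF', max_eq_left ht'.le]
      ring
    rw [h5]
    refine h4.congr_of_eventuallyEq ?_
    filter_upwards [Ioi_mem_nhds ht'] with s hs
    have hs' : (0:ℝ) < s := hs
    simp only [hF, max_eq_left hs'.le, div_eq_mul_inv]

end U506.RT
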