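import Pool.Agent.U506.RT.J

/-! The category argument with exponents which depend on the slope. -/

set_option autoImplicit false
open MeasureTheory Set Filter Topology
open scoped ENNReal

namespace U506.RT

variable {X : Type*} [MeasurableSpace X]

/-- All differences of order `K` of the functions `LL` of order `K` vanish in the interval. -/
def EE (μ : Measure X) (f : X → ℂ) (q : X → ℝ) (B : X → ℂ) (K : ℕ) (α β : ℝ) : Prop :=
  ∀ z : ℂ, z.im < 0 → ∀ t r : ℝ, 0 < r → α < t → t + K * r < β →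
    (dl r)^[K] (LL μ f (fun x => (q x : ℂ) - z) B K) t = 0

section

variable {μ : Measure X} {f : X → ℂ} {q : X → ℝ} {B : X → ℂ} {b : ℝ}

lemma B_ne (hb : 0 < b) (hBi : ∀ x, (B x).im = b) (x : X) : B x ≠ 0 := by
  intro h
  have := hBi x
  rw [h, Complex.zero_im] at this
  linarith

lemma integrable_succ (hB : Measurable B) (hb : 0 < b) (hBi : ∀ x, (B x).im = b) (K : ℕ)
    (h0 : Integrable (fun x => f x / (B x) ^ K) μ) :
    Integrable (fun x => f x / (B x) ^ (K + 1)) μ := by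
  have h : Integrable (fun x => (B x)⁻¹ * (f x / (B x) ^ K)) μ := by
    refine Integrable.bdd_mul (c := b⁻¹) h0 hB.inv.aestronglyMeasurable ?_
    refine Eventually.of_forall (fun x => ?_)
    have h1 := Complex.abs_im_le_norm (B x)
    rw [hBi x, abs_of_pos hb] at h1
    rw [norm_inv]
    gcongr
  refine h.congr (Eventually.of_forall (fun x => ?_))
  have := B_ne hb hBi x
  simp only
  rw [pow_succ]
  field_simp

lemma LL_eq (K : ℕ) (z : ℂ) (t : ℝ) :
    LL μ f (fun x => (q x : ℂ) - z) B K t =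
      ∫ x, (f x / (B x) ^ K) / (((q x : ℂ) + ((max t 0 : ℝ) : ℂ) * B x) - z) ∂μ := by
  unfold LL
  congr 1
  funext x
  rw [div_eq_mul_inv (f x / (B x) ^ K)]
  congr 2
  ring

lemma EE_succ (hq : Measurable q) (hB : Measurable B) (hb : 0 < b) (hBi : ∀ x, (B x).im = b)
    (K : ℕ) (h0 : Integrable (fun x => f x / (B x) ^ K) μ) (α β : ℝ) (hα : 0 ≤ α) :
    EE μ f q B K α β ↔ EE μ f q B (K + 1) α β := by
  have h1 := integrable_succ hB hb hBi K h0
  set W : X → ℂ := fun x => f x / (B x) ^ K with hW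
  set Q : ℝ → X → ℂ := fun t x => (q x : ℂ) + ((max t 0 : ℝ) : ℂ) * B x with hQ
  have hQm : ∀ t, Measurable (Q t) := fun t =>
    (Complex.measurable_ofReal.comp hq).add (hB.const_mul _)
  have hQi : ∀ t x, 0 ≤ (Q t x).im := by
    intro t x
    simp only [hQ]
    rw [Complex.add_im, Complex.ofReal_im, Complex.im_ofReal_mul, zero_add, hBi x]
    exact mul_nonneg (le_max_right _ _) hb.le
  have hVB : (fun x => f x / (B x) ^ (K + 1) * B x) = W := by
    funext x
    have := B_ne hb hBi x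
    simp only [hW]
    rw [pow_succ]
    field_simp
  have hder : ∀ z : ℂ, z.im < 0 → ∀ t, α < t → t < β →
      HasDerivAt (LL μ f (fun x => (q x : ℂ) - z) B (K + 1))
        (-∫ x, W x / (Q t x - z) ^ 2 ∂μ) t := by
    intro z hz t ht _
    have := slope_deriv (V := fun x => f x / (B x) ^ (K + 1)) h1 hB (by
      have e : (fun x => f x / (B x) ^ (K + 1) * B x) = W := hVB
      rw [e]; exact h0) hq (fun x => by rw [hBi x]; exact hb.le) z hz t (by linarith)
    have e1 : ∀ x, f x / (B x) ^ (K + 1) * B x = W x := fun x => congrFun hVB x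
    simp only [e1] at this
    have e2 : (LL μ f (fun x => (q x : ℂ) - z) B (K + 1)) =
        fun t : ℝ => ∫ x, f x / (B x) ^ (K + 1) / (((q x : ℂ) + ((max t 0 : ℝ) : ℂ) * B x) - z) ∂μ := by
      funext s
      exact LL_eq (K + 1) z s
    rw [e2]
    exact this
  have hLK : ∀ z, LL μ f (fun x => (q x : ℂ) - z) B K = fun t => ∫ x, W x / (Q t x - z) ∂μ := by
    intro z
    funext t
    exact LL_eq K z t
  constructor
  · intro h z hz
    refine dl_up K _ (fun t => -∫ x, W x / (Q t x - z) ^ 2 ∂μ) α β (hder z hz) ?_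
    intro t r hr h3 h4
    rw [dl_neg, neg_eq_zero]
    refine phi_up h0 Q hQm hQi K r t ?_ z hz
    intro z' hz'
    have := h z' hz' t r hr h3 h4
    rw [hLK z'] at this
    exact this
  · intro h z hz t r hr h3 h4
    rw [hLK z]
    refine phi_down h0 Q hQm hQi K r t ?_ z hz
    intro z' hz'
    have := dl_down K _ (fun t => -∫ x, W x / (Q t x - z') ^ 2 ∂μ) α β (hder z' hz') (h z' hz')
      t r hr h3 h4
    rw [dl_neg, neg_eq_zero] at this
    exact this

lemma EE_add (hq : Measurable q) (hB : Measurable B) (hb : 0 < b) (hBi : ∀ x, (B x).im = b)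
    (K : ℕ) (h0 : Integrable (fun x => f x / (B x) ^ K) μ) (α β : ℝ) (hα : 0 ≤ α) (i : ℕ) :
    Integrable (fun x => f x / (B x) ^ (K + i)) μ ∧
      (EE μ f q B K α β ↔ EE μ f q B (K + i) α β) := by
  induction i with
  | zero => exact ⟨h0, Iff.rfl⟩
  | succ i ih =>
    exact ⟨integrable_succ hB hb hBi (K + i) ih.1,
      ih.2.trans (EE_succ hq hB hb hBi (K + i) ih.1 α β hα)⟩

theorem var_zero (hf : AEStronglyMeasurable f μ) (hq : Measurable q) (hB : Measurable B)
    (hb : 0 < b) (hBi : ∀ x, (B x).im = b)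
    (K : ℕ) (h0 : Integrable (fun x => f x / (B x) ^ K) μ)
    (Kn : ℕ → Set ℝ) (hclosed : ∀ n, IsClosed (Kn n)) (hcover : ∀ t, 0 < t → ∃ n, t ∈ Kn n)
    (hn : ∀ n, ∃ i : ℕ, ∀ z : ℂ, z.im < 0 → ∀ R : ℝ, ∃ M : ℝ, ∀ a ∈ Kn n, 0 < a → a < R →
      Integrable (fun x => f x / (((q x : ℂ) - z) + a * B x) ^ (K + i)) μ ∧
      ∫ x, ‖f x / (((q x : ℂ) - z) + a * B x) ^ (K + i)‖ ∂μ ≤ M ∧
      ∫ x, f x / (((q x : ℂ) - z) + a * B x) ^ (K + i + 1) ∂μ = 0)
    (z : ℂ) (hz : z.im < 0) :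
    ∫ x, f x / ((B x) ^ K * ((q x : ℂ) - z)) ∂μ = 0 := by
  have hAm : ∀ z : ℂ, Measurable (fun x => (q x : ℂ) - z) := fun z =>
    (Complex.measurable_ofReal.comp hq).sub measurable_const
  have hD : ∀ z : ℂ, z.im < 0 → ∀ x, ∀ s : ℝ, 0 ≤ s → -z.im ≤ ‖((q x : ℂ) - z) + s * B x‖ := by
    intro z hz x s hs
    have h1 : 0 ≤ ((q x : ℂ) + s * B x).im := by
      rw [Complex.add_im, Complex.ofReal_im, Complex.im_ofReal_mul, zero_add, hBi x]
      positivity
    have h2 := sub_lower _ z h1 hz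
    have e : ((q x : ℂ) - z) + s * B x = (q x : ℂ) + s * B x - z := by ring
    rw [e]
    exact h2
  set U : Set ℝ := {x | 0 < x ∧ ∃ δ > 0, δ < x ∧ EE μ f q B K (x - δ) (x + δ)} with hU
  have hUo : IsOpen U := by
    rw [Metric.isOpen_iff]
    rintro x ⟨hx, δ, hδ, hδx, h⟩
    refine ⟨δ / 2, by linarith, ?_⟩
    intro y hy
    rw [Metric.mem_ball, Real.dist_eq, abs_lt] at hy
    refine ⟨by linarith, δ / 2, by linarith, by linarith, ?_⟩
    intro z hz t r hr h1 h2
    exact h z hz t r hr (by linarith) (by linarith)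
  have hgood : ∀ i : ℕ, ∀ a ∈ U, ∀ z : ℂ, z.im < 0 → ∃ δ > 0, ∀ t r : ℝ, 0 < r → a - δ < t →
      t + ((K + i : ℕ) : ℝ) * r < a + δ →
      (dl r)^[K + i] (LL μ f (fun x => (q x : ℂ) - z) B (K + i)) t = 0 := by
    rintro i a ⟨ha, δ, hδ, hδa, h⟩ z hz
    refine ⟨δ, hδ, ?_⟩
    have := ((EE_add hq hB hb hBi K h0 (a - δ) (a + δ) (by linarith) i).2.1 h) z hz
    intro t r hr h1 h2
    exact this t r hr h1 h2
  have hall : ∀ x, 0 < x → x ∈ U := by
    by_contra hcon
    push Not at hcon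
    obtain ⟨x₁, hx₁, hbad⟩ := hcon
    obtain ⟨n, x₀, hx₀p, hx₀b, ρ, hρ, hρx, hI⟩ := portion' U hUo Kn hclosed hcover x₁ hx₁ hbad
    obtain ⟨i, hi⟩ := hn n
    have hEi := EE_add hq hB hb hBi K h0 (x₀ - ρ / 8) (x₀ + ρ / 8) (by linarith) i
    apply hx₀b
    refine ⟨hx₀p, ρ / 8, by linarith, by linarith, ?_⟩
    rw [hEi.2]
    intro z hz
    obtain ⟨M, hM⟩ := hi z hz (x₀ + ρ)
    have hzp : 0 < -z.im := by linarith
    have hLc := LL_continuous hf (hAm z) hB hzp (hD z hz) hEi.1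
    refine local_step (K + i) _ hLc x₀ ρ hρ hρx
      ((K + i).factorial * ((-z.im * (1 / (2 * ((K + i : ℕ):ℝ) + 1)) ^ (K + i + 1))⁻¹ * M)) ?_ ?_
    · intro a ha1 ha2 hna t r ht hr hta hat
      have haU : a ∉ U := by
        intro haU
        apply hna
        obtain ⟨δ, hδ, h⟩ := hgood i a haU z hz
        exact ⟨haU.1, δ, hδ, fun t r hr h1 h2 _ => h t r hr h1 h2⟩
      have haK := hI a ha1 ha2 haU
      obtain ⟨g1, g2, g3⟩ := hM a haK (by linarith) ha2
      exact LL_bound hf (hAm z) hB hzp (hD z hz) (B_ne hb hBi) hEi.1 a M g1 g2 t r ht.le hr hta hat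
    · intro t ht1 ht2
      have ht0 : 0 < t := by linarith
      by_cases htU : t ∈ U
      · obtain ⟨δ, hδ, h⟩ := hgood i t htU z hz
        apply tendsto_const_nhds.congr'
        have hk0 : (0:ℝ) ≤ ((K + i : ℕ) : ℝ) := Nat.cast_nonneg _
        have hsmall : ∀ᶠ r in 𝓝[>] (0:ℝ), r < δ / (((K + i : ℕ) : ℝ) + 1) := by
          apply mem_nhdsWithin_of_mem_nhds
          exact Iio_mem_nhds (by positivity)
        filter_upwards [self_mem_nhdsWithin, hsmall] with r hr hr2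
        have hr' : 0 < r := hr
        rw [lt_div_iff₀ (by positivity)] at hr2
        rw [h t r hr' (by linarith) (by nlinarith), norm_zero, zero_div]
      · have htK := hI t ht1 ht2 htU
        obtain ⟨g1, g2, g3⟩ := hM t htK ht0 ht2
        exact LL_lim hf (hAm z) hB hzp (hD z hz) (B_ne hb hBi) hEi.1 t ht0.le g1 g3
  have hzp : 0 < -z.im := by linarith
  refine LL_zero hf (hAm z) hB hzp (hD z hz) (B_ne hb hBi) h0 ?_
  intro t r ht hr
  refine local_global K _ t r ht hr (fun x hx1 _ => ?_)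
  have hx : 0 < x := by linarith
  obtain ⟨δ, hδ, h⟩ := hgood 0 x (hall x hx) z hz
  exact ⟨hx, δ, hδ, fun t r hr h1 h2 _ => h t r hr h1 h2⟩

end

end U506.RT
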