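import Pool.Agent.U506.RT.K

/-! The plane, with exponents which depend on the direction. -/

set_option autoImplicit false
open MeasureTheory Set Filter Topology
open scoped ENNReal ComplexConjugate

namespace U506.RT

lemma dom_pow {f : ℝ × ℝ → ℝ} (hf : Measurable f) (q : ℝ × ℝ → ℝ) (hq : Measurable q) (j k : ℕ)
    (hjk : j ≤ k) (h : Integrable (fun x => f x / (1 + |q x|) ^ j)) :
    Integrable (fun x => f x / (1 + |q x|) ^ k) := by
  refine h.mono (hf.div ((measurable_const.add hq.norm).pow_const _)).aestronglyMeasurable ?_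
  refine Eventually.of_forall (fun x => ?_)
  rw [norm_div, norm_div, norm_pow, norm_pow, Real.norm_of_nonneg (by positivity : (0:ℝ) ≤ 1 + |q x|)]
  apply div_le_div_of_nonneg_left (norm_nonneg _) (by positivity)
  exact pow_le_pow_right₀ (by linarith [abs_nonneg (q x)]) hjk

theorem star_neg (f : ℝ × ℝ → ℝ) (hf : Measurable f)
    (H1 : ∀ t : ℝ, ∃ k : ℕ, Integrable (fun x : ℝ × ℝ => f x / (1 + |x.1 + t * x.2|) ^ k))
    (K : ℕ) (H2 : Integrable (fun x : ℝ × ℝ => f x / (1 + |x.2|) ^ K))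
    (H3 : ∀ t : ℝ, ∀ j : ℕ, Integrable (fun x : ℝ × ℝ => f x / (1 + |x.1 + t * x.2|) ^ j) →
      ∀ z : ℂ, z.im ≠ 0 → ∫ x : ℝ × ℝ, (f x : ℂ) / (((x.1 + t * x.2 : ℝ) : ℂ) - z) ^ (j + 1) = 0)
    (z₁ z₂ : ℂ) (hz₁ : z₁.im < 0) (hz₂ : z₂.im ≠ 0) :
    ∫ x : ℝ × ℝ, (f x : ℂ) / (((x.2 : ℂ) - z₂) ^ K * ((x.1 : ℂ) - z₁)) = 0 := by
  obtain ⟨σ, hσ, hσ2⟩ : ∃ σ : ℝ, σ ≠ 0 ∧ 0 < -(σ * z₂.im) := by
    rcases lt_or_gt_of_ne hz₂ with h2 | h2
    · exact ⟨1, one_ne_zero, by linarith⟩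
    · exact ⟨-1, by norm_num, by linarith⟩
  have hσc : (σ : ℂ) ≠ 0 := by exact_mod_cast hσ
  set B : ℝ × ℝ → ℂ := fun x => (σ : ℂ) * ((x.2 : ℂ) - z₂) with hB
  have hBm : Measurable B :=
    ((Complex.measurable_ofReal.comp measurable_snd).sub measurable_const).const_mul _
  have hBi : ∀ x, (B x).im = -(σ * z₂.im) := by
    intro x
    simp only [hB]
    rw [Complex.im_ofReal_mul, Complex.sub_im, Complex.ofReal_im]
    ring
  have hfm : AEStronglyMeasurable (fun x => (f x : ℂ)) (volume : Measure (ℝ × ℝ)) :=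
    (Complex.measurable_ofReal.comp hf).aestronglyMeasurable
  have h0 : Integrable (fun x => (f x : ℂ) / (B x) ^ K) := by
    have h1 := (integrable_div_pow hf (fun x => x.2) measurable_snd K H2 z₂ hz₂).mul_const
      ((σ : ℂ) ^ K)⁻¹
    refine h1.congr (Eventually.of_forall (fun x => ?_))
    simp only [hB]
    rw [mul_pow, div_eq_mul_inv, div_eq_mul_inv, mul_inv]
    ring
  have hqm : ∀ t : ℝ, Measurable (fun x : ℝ × ℝ => x.1 + t * x.2) := fun t =>
    measurable_fst.add (measurable_snd.const_mul t)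
  have hgm : ∀ (t : ℝ) (n : ℕ), Measurable (fun x : ℝ × ℝ => f x / (1 + |x.1 + t * x.2|) ^ n) :=
    fun t n => hf.div ((measurable_const.add (hqm t).norm).pow_const n)
  set Kn : ℕ → Set ℝ := fun n =>
    {t | 0 ≤ t ∧ ∫⁻ x : ℝ × ℝ, ‖f x / (1 + |x.1 + (t * σ) * x.2|) ^ n‖ₑ ≤ n} with hKn
  have hclosed : ∀ n, IsClosed (Kn n) := by
    intro n
    apply IsSeqClosed.isClosed
    intro u t hu hut
    have ht0 : 0 ≤ t := ge_of_tendsto' hut (fun i => (hu i).1)
    refine ⟨ht0, ?_⟩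
    have hpt : ∀ x : ℝ × ℝ, Tendsto (fun i => ‖f x / (1 + |x.1 + (u i * σ) * x.2|) ^ n‖ₑ) atTop
        (𝓝 ‖f x / (1 + |x.1 + (t * σ) * x.2|) ^ n‖ₑ) := by
      intro x
      apply Tendsto.enorm
      apply Tendsto.div tendsto_const_nhds
      · apply Tendsto.pow
        apply Tendsto.const_add
        apply Tendsto.abs
        apply Tendsto.const_add
        exact (hut.mul_const σ).mul_const x.2
      · positivity
    calc ∫⁻ x : ℝ × ℝ, ‖f x / (1 + |x.1 + (t * σ) * x.2|) ^ n‖ₑ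
        = ∫⁻ x : ℝ × ℝ, liminf (fun i => ‖f x / (1 + |x.1 + (u i * σ) * x.2|) ^ n‖ₑ) atTop := by
          congr 1; funext x; exact (hpt x).liminf_eq.symm
      _ ≤ liminf (fun i => ∫⁻ x : ℝ × ℝ, ‖f x / (1 + |x.1 + (u i * σ) * x.2|) ^ n‖ₑ) atTop := by
          apply lintegral_liminf_le'
          intro i
          exact (hgm (u i * σ) n).enorm.aemeasurable
      _ ≤ n := by
          apply liminf_le_of_frequently_le'
          exact Frequently.of_forall (fun i => (hu i).2)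
  have hcover : ∀ t, 0 < t → ∃ n, t ∈ Kn n := by
    intro t ht
    obtain ⟨k, hk⟩ := H1 (t * σ)
    have hfin : ∫⁻ x : ℝ × ℝ, ‖f x / (1 + |x.1 + (t * σ) * x.2|) ^ k‖ₑ < ⊤ := hk.hasFiniteIntegral
    obtain ⟨m, hm⟩ := ENNReal.exists_nat_gt hfin.ne
    refine ⟨max k m, ht.le, ?_⟩
    calc ∫⁻ x : ℝ × ℝ, ‖f x / (1 + |x.1 + (t * σ) * x.2|) ^ (max k m)‖ₑ
        ≤ ∫⁻ x : ℝ × ℝ, ‖f x / (1 + |x.1 + (t * σ) * x.2|) ^ k‖ₑ := by
          apply lintegral_mono
          intro x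
          rw [enorm_le_iff_norm_le, norm_div, norm_div, norm_pow, norm_pow,
            Real.norm_of_nonneg (by positivity : (0:ℝ) ≤ 1 + |x.1 + (t * σ) * x.2|)]
          apply div_le_div_of_nonneg_left (norm_nonneg _) (by positivity)
          exact pow_le_pow_right₀ (by linarith [abs_nonneg (x.1 + (t * σ) * x.2)]) (le_max_left _ _)
      _ ≤ m := hm.le
      _ ≤ ((max k m : ℕ) : ℝ≥0∞) := by
          exact_mod_cast le_max_right k m
  have hn : ∀ n, ∃ i : ℕ, ∀ z : ℂ, z.im < 0 → ∀ R : ℝ, ∃ M : ℝ, ∀ a ∈ Kn n, 0 < a → a < R →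
      Integrable (fun x : ℝ × ℝ => (f x : ℂ) / (((x.1 : ℂ) - z) + a * B x) ^ (K + i)) ∧
      ∫ x : ℝ × ℝ, ‖(f x : ℂ) / (((x.1 : ℂ) - z) + a * B x) ^ (K + i)‖ ≤ M ∧
      ∫ x : ℝ × ℝ, (f x : ℂ) / (((x.1 : ℂ) - z) + a * B x) ^ (K + i + 1) = 0 := by
    intro n
    refine ⟨n, fun z hz R => ?_⟩
    set C : ℝ := 1 + (1 + (‖z‖ + R * (|σ| * ‖z₂‖))) / |z.im| with hC
    refine ⟨C ^ (K + n) * n, fun a ha ha0 haR => ?_⟩
    set w : ℂ := z + ((a * σ : ℝ) : ℂ) * z₂ with hw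
    have hR0 : 0 < R := by linarith
    have hzi : 0 < |z.im| := abs_pos.2 hz.ne
    have hCpos : 0 < C := by positivity
    have hwim : w.im = z.im - a * (-(σ * z₂.im)) := by
      simp only [hw]
      rw [Complex.add_im, Complex.im_ofReal_mul]
      ring
    have hwneg : w.im < 0 := by
      rw [hwim]
      have := mul_pos ha0 hσ2
      linarith
    have hwabs : |z.im| ≤ |w.im| := by
      rw [abs_of_neg hz, abs_of_neg hwneg, hwim]
      have := mul_pos ha0 hσ2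
      linarith
    have hwn : ‖w‖ ≤ ‖z‖ + R * (|σ| * ‖z₂‖) := by
      simp only [hw]
      refine (norm_add_le _ _).trans ?_
      rw [norm_mul, Complex.norm_real, norm_mul, Real.norm_eq_abs, Real.norm_eq_abs, abs_of_pos ha0]
      have : a * |σ| * ‖z₂‖ ≤ R * (|σ| * ‖z₂‖) := by
        rw [mul_assoc]
        gcongr
      linarith
    have hform : ∀ x : ℝ × ℝ, ((x.1 : ℂ) - z) + a * B x =
        ((x.1 + (a * σ) * x.2 : ℝ) : ℂ) - w := by
      intro x
      simp only [hB, hw]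
      push_cast
      ring
    have hIn : Integrable (fun x : ℝ × ℝ => f x / (1 + |x.1 + (a * σ) * x.2|) ^ n) := by
      refine ⟨(hgm (a * σ) n).aestronglyMeasurable, ?_⟩
      exact lt_of_le_of_lt ha.2 (ENNReal.natCast_lt_top n)
    have hInt : ∫ x : ℝ × ℝ, ‖f x / (1 + |x.1 + (a * σ) * x.2|) ^ n‖ ≤ n := by
      rw [integral_norm_eq_lintegral_enorm hIn.aestronglyMeasurable]
      have := ENNReal.toReal_mono (ENNReal.natCast_ne_top n) ha.2
      simpa using this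
    have hIN : Integrable (fun x : ℝ × ℝ => f x / (1 + |x.1 + (a * σ) * x.2|) ^ (K + n)) :=
      dom_pow hf _ (hqm (a * σ)) n (K + n) (by omega) hIn
    have hI1 : Integrable (fun x : ℝ × ℝ => (f x : ℂ) / (((x.1 : ℂ) - z) + a * B x) ^ (K + n)) := by
      simp_rw [hform]
      exact integrable_div_pow hf _ (hqm (a * σ)) (K + n) hIN w hwneg.ne
    refine ⟨hI1, ?_, ?_⟩
    · calc ∫ x : ℝ × ℝ, ‖(f x : ℂ) / (((x.1 : ℂ) - z) + a * B x) ^ (K + n)‖
          ≤ ∫ x : ℝ × ℝ, C ^ (K + n) * ‖f x / (1 + |x.1 + (a * σ) * x.2|) ^ n‖ := by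
            apply integral_mono hI1.norm (hIn.norm.const_mul _)
            intro x
            show ‖(f x : ℂ) / (((x.1 : ℂ) - z) + a * B x) ^ (K + n)‖ ≤
              C ^ (K + n) * ‖f x / (1 + |x.1 + (a * σ) * x.2|) ^ n‖
            rw [hform]
            have h1 := norm_sub_lower (x.1 + (a * σ) * x.2) w hwneg.ne
            have hC' : 1 + (1 + ‖w‖) / |w.im| ≤ C := by
              rw [hC]
              gcongr
            have hC'' : C⁻¹ ≤ (1 + (1 + ‖w‖) / |w.im|)⁻¹ := by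
              apply inv_anti₀ _ hC'
              positivity
            have h2 : 0 < 1 + |x.1 + (a * σ) * x.2| := by positivity
            have h3 : C⁻¹ * (1 + |x.1 + (a * σ) * x.2|) ≤
                ‖((x.1 + (a * σ) * x.2 : ℝ) : ℂ) - w‖ :=
              (mul_le_mul_of_nonneg_right hC'' h2.le).trans h1
            have h4 : 0 < ‖((x.1 + (a * σ) * x.2 : ℝ) : ℂ) - w‖ :=
              lt_of_lt_of_le (by positivity) h3
            rw [norm_div, norm_pow, Complex.norm_real, norm_div, norm_pow, Real.norm_of_nonneg h2.le]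
            rw [div_le_iff₀ (by positivity)]
            have h5 : (1 + |x.1 + (a * σ) * x.2|) ^ n ≤
                C ^ (K + n) * ‖((x.1 + (a * σ) * x.2 : ℝ) : ℂ) - w‖ ^ (K + n) := by
              calc (1 + |x.1 + (a * σ) * x.2|) ^ n ≤ (1 + |x.1 + (a * σ) * x.2|) ^ (K + n) :=
                    pow_le_pow_right₀ (by linarith [abs_nonneg (x.1 + (a * σ) * x.2)]) (by omega)
                _ ≤ (C * ‖((x.1 + (a * σ) * x.2 : ℝ) : ℂ) - w‖) ^ (K + n) := by
                    gcongr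
                    rw [inv_mul_le_iff₀ hCpos] at h3
                    exact h3
                _ = _ := by rw [mul_pow]
            have h6 : 0 < (1 + |x.1 + (a * σ) * x.2|) ^ n := by positivity
            calc ‖f x‖ = ‖f x‖ / (1 + |x.1 + (a * σ) * x.2|) ^ n *
                  (1 + |x.1 + (a * σ) * x.2|) ^ n := by field_simp
              _ ≤ ‖f x‖ / (1 + |x.1 + (a * σ) * x.2|) ^ n *
                  (C ^ (K + n) * ‖((x.1 + (a * σ) * x.2 : ℝ) : ℂ) - w‖ ^ (K + n)) := by gcongr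
              _ = _ := by ring
        _ = C ^ (K + n) * ∫ x : ℝ × ℝ, ‖f x / (1 + |x.1 + (a * σ) * x.2|) ^ n‖ := by
            rw [integral_const_mul]
        _ ≤ C ^ (K + n) * n := by gcongr
    · simp_rw [hform]
      exact H3 (a * σ) (K + n) hIN w hwneg.ne
  have key := var_zero (μ := (volume : Measure (ℝ × ℝ))) (f := fun x => (f x : ℂ))
    (q := fun x => x.1) (B := B) hfm measurable_fst hBm hσ2 hBi K h0 Kn hclosed hcover hn z₁ hz₁
  have e : ∀ x : ℝ × ℝ, (f x : ℂ) / (((x.2 : ℂ) - z₂) ^ K * ((x.1 : ℂ) - z₁)) =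
      ((f x : ℂ) / ((B x) ^ K * ((x.1 : ℂ) - z₁))) * (σ : ℂ) ^ K := by
    intro x
    simp only [hB]
    rw [mul_pow, div_eq_mul_inv, div_eq_mul_inv, mul_inv, mul_inv, mul_inv]
    have : (σ : ℂ) ^ K ≠ 0 := pow_ne_zero _ hσc
    field_simp
  simp_rw [e]
  rw [integral_mul_const, key, zero_mul]

theorem star_all (f : ℝ × ℝ → ℝ) (hf : Measurable f)
    (H1 : ∀ t : ℝ, ∃ k : ℕ, Integrable (fun x : ℝ × ℝ => f x / (1 + |x.1 + t * x.2|) ^ k))
    (K : ℕ) (H2 : Integrable (fun x : ℝ × ℝ => f x / (1 + |x.2|) ^ K))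
    (H3 : ∀ t : ℝ, ∀ j : ℕ, Integrable (fun x : ℝ × ℝ => f x / (1 + |x.1 + t * x.2|) ^ j) →
      ∀ z : ℂ, z.im ≠ 0 → ∫ x : ℝ × ℝ, (f x : ℂ) / (((x.1 + t * x.2 : ℝ) : ℂ) - z) ^ (j + 1) = 0)
    (z₁ z₂ : ℂ) (hz₁ : z₁.im ≠ 0) (hz₂ : z₂.im ≠ 0) :
    ∫ x : ℝ × ℝ, (f x : ℂ) / (((x.2 : ℂ) - z₂) ^ K * ((x.1 : ℂ) - z₁)) = 0 := by
  rcases lt_or_gt_of_ne hz₁ with h | h
  · exact star_neg f hf H1 K H2 H3 z₁ z₂ h hz₂
  · have h1 := star_neg f hf H1 K H2 H3 (conj z₁) (conj z₂) (by simpa using h)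
      (by simpa using hz₂)
    have h2 := congrArg conj h1
    rw [← integral_conj, map_zero] at h2
    rw [← h2]
    congr 1
    funext x
    simp only [map_div₀, map_mul, map_pow, map_sub, Complex.conj_conj, Complex.conj_ofReal]

end U506.RT
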