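import Pool.Agent.U506.RT.M

/-! The Radon transform is injective when all projections are tempered. -/

set_option autoImplicit false
open MeasureTheory Set Filter Topology

namespace U506.RT

theorem plane_zero_var (f : ℝ × ℝ → ℝ) (hf : Continuous f) (k k₁ : ℕ)
    (H1 : Integrable (fun x : ℝ × ℝ => f x / (1 + |x.1|) ^ k₁))
    (H2 : Integrable (fun x : ℝ × ℝ => f x / (1 + |x.2|) ^ (k + 1)))
    (H3 : ∀ z₁ z₂ : ℂ, z₁.im ≠ 0 → z₂.im ≠ 0 →
      ∫ x : ℝ × ℝ, (f x : ℂ) / (((x.2 : ℂ) - z₂) ^ (k + 1) * ((x.1 : ℂ) - z₁)) = 0) : f = 0 := by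
  have hm := hf.measurable
  -- step 1
  have s1 : ∀ (φ : ℝ → ℝ), Continuous φ → HasCompactSupport φ → ∀ z₂ : ℂ, z₂.im ≠ 0 →
      ∫ x : ℝ × ℝ, ((f x : ℂ) / ((x.2 : ℂ) - z₂) ^ (k + 1)) * (φ x.1 : ℂ) = 0 := by
    intro φ hφ hφc z₂ hz₂
    have hW := integrable_div_pow hm (fun x => x.2) measurable_snd (k + 1) H2 z₂ hz₂
    refine poisson_test hW measurable_fst ?_ φ hφ hφc
    intro z₁ hz₁
    rw [← H3 z₁ z₂ hz₁ hz₂]
    congr 1
    funext x
    rw [div_div]
  -- step 2
  have s2 : ∀ (φ ψ : ℝ → ℝ), Continuous φ → HasCompactSupport φ → Continuous ψ →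
      HasCompactSupport ψ →
      ∫ x : ℝ × ℝ, ((f x * φ x.1 : ℝ) : ℂ) * (ψ x.2 : ℂ) = 0 := by
    intro φ ψ hφ hφc hψ hψc
    have hW : Integrable (fun x : ℝ × ℝ => ((f x * φ x.1 : ℝ) : ℂ)) := by
      have hg : Continuous (fun u : ℝ => (1 + |u|) ^ k₁ * φ u) := by fun_prop
      have hgc : HasCompactSupport (fun u : ℝ => (1 + |u|) ^ k₁ * φ u) := hφc.mul_left
      obtain ⟨M, hM⟩ := hgc.exists_bound_of_continuous hg
      have h1 : Integrable (fun x : ℝ × ℝ => ((1 + |x.1|) ^ k₁ * φ x.1) *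
          (f x / (1 + |x.1|) ^ k₁)) := by
        refine Integrable.bdd_mul (c := M) H1 ?_ (Eventually.of_forall (fun x => hM x.1))
        exact (hg.comp continuous_fst).aestronglyMeasurable
      have h2 : Integrable (fun x : ℝ × ℝ => f x * φ x.1) := by
        refine h1.congr (Eventually.of_forall (fun x => ?_))
        show (1 + |x.1|) ^ k₁ * φ x.1 * (f x / (1 + |x.1|) ^ k₁) = f x * φ x.1
        have : (0:ℝ) < (1 + |x.1|) ^ k₁ := by positivity
        generalize (1 + |x.1|) ^ k₁ = A at *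
        field_simp
      exact h2.ofReal
    refine cauchy_test hW measurable_snd k ?_ ψ hψ hψc
    intro z hz
    rw [← s1 φ hφ hφc z hz]
    congr 1
    funext x
    push_cast
    ring
  -- step 3
  funext x₀
  obtain ⟨u₀, v₀⟩ := x₀
  by_contra hne
  have hne' : f (u₀, v₀) ≠ 0 := hne
  have hpos : 0 < f (u₀, v₀) * f (u₀, v₀) := by
    rw [← sq]
    positivity
  have hcont : ContinuousAt (fun x => f x * f (u₀, v₀)) (u₀, v₀) :=
    (hf.mul continuous_const).continuousAt
  have hev : ∀ᶠ x in 𝓝 (u₀, v₀), 0 < f x * f (u₀, v₀) := hcont.eventually (lt_mem_nhds hpos)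
  obtain ⟨δ, hδ, hball⟩ := Metric.eventually_nhds_iff.1 hev
  set φ : ℝ → ℝ := fun u => max 0 (δ - |u - u₀|) with hφ
  set ψ : ℝ → ℝ := fun v => max 0 (δ - |v - v₀|) with hψ
  have hφc := tent_continuous u₀ δ
  have hψc := tent_continuous v₀ δ
  rw [← hφ] at hφc
  rw [← hψ] at hψc
  have h0 := s2 φ ψ hφc (tent_support u₀ δ) hψc (tent_support v₀ δ)
  have h1 : 0 < ∫ x : ℝ × ℝ, f x * f (u₀, v₀) * φ x.1 * ψ x.2 := by
    refine Continuous.integral_pos_of_hasCompactSupport_nonneg_nonzero (x := (u₀, v₀)) ?_ ?_ ?_ ?_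
    · exact ((hf.mul continuous_const).mul (hφc.comp continuous_fst)).mul
        (hψc.comp continuous_snd)
    · refine HasCompactSupport.intro (isCompact_closedBall (u₀, v₀) δ) (fun x hx => ?_)
      rw [Metric.mem_closedBall, not_le, Prod.dist_eq, lt_max_iff, Real.dist_eq, Real.dist_eq] at hx
      rcases hx with hx | hx
      · have : φ x.1 = 0 := max_eq_left (by linarith)
        simp only [this, mul_zero, zero_mul]
      · have : ψ x.2 = 0 := max_eq_left (by linarith)
        simp only [this, mul_zero]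
    · intro x
      show 0 ≤ f x * f (u₀, v₀) * φ x.1 * ψ x.2
      by_cases hx : dist x (u₀, v₀) < δ
      · have h2 := hball hx
        have h3 : 0 ≤ φ x.1 := le_max_left _ _
        have h4 : 0 ≤ ψ x.2 := le_max_left _ _
        positivity
      · rw [not_lt, Prod.dist_eq, le_max_iff, Real.dist_eq, Real.dist_eq] at hx
        rcases hx with hx | hx
        · have : φ x.1 = 0 := max_eq_left (by linarith)
          simp only [this, mul_zero, zero_mul, le_refl]
        · have : ψ x.2 = 0 := max_eq_left (by linarith)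
          simp only [this, mul_zero, le_refl]
    · have h2 : φ u₀ = δ := by
        simp only [hφ, sub_self, abs_zero, sub_zero]
        exact max_eq_right hδ.le
      have h3 : ψ v₀ = δ := by
        simp only [hψ, sub_self, abs_zero, sub_zero]
        exact max_eq_right hδ.le
      show f (u₀, v₀) * f (u₀, v₀) * φ u₀ * ψ v₀ ≠ 0
      rw [h2, h3]
      positivity
  have h2 : ((∫ x : ℝ × ℝ, f x * f (u₀, v₀) * φ x.1 * ψ x.2 : ℝ) : ℂ) = 0 := by
    rw [← integral_complex_ofReal]
    have h3 : (fun x : ℝ × ℝ => ((f x * f (u₀, v₀) * φ x.1 * ψ x.2 : ℝ) : ℂ)) =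
        fun x => (f (u₀, v₀) : ℂ) * (((f x * φ x.1 : ℝ) : ℂ) * (ψ x.2 : ℂ)) := by
      funext x
      push_cast
      ring
    rw [h3, integral_const_mul, h0, mul_zero]
  rw [Complex.ofReal_eq_zero] at h2
  linarith


/-- **Injectivity of the Radon transform when all projections are tempered.** -/
theorem radon_var (f : ℝ × ℝ → ℝ) (hf : Continuous f)
    (hint : ∀ θ : ℝ, ∃ k : ℕ, Integrable
      (fun x : ℝ × ℝ => f x / (1 + |x.1 * Real.cos θ + x.2 * Real.sin θ|) ^ k))
    (hR : ∀ θ : ℝ, ∀ᵐ p : ℝ,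
      ∫ t : ℝ, f (p * Real.cos θ - t * Real.sin θ, p * Real.sin θ + t * Real.cos θ) = 0) :
    f = 0 := by
  have hm := hf.measurable
  obtain ⟨k, hk⟩ : ∃ k : ℕ, Integrable (fun x : ℝ × ℝ => f x / (1 + |x.2|) ^ (k + 1)) := by
    obtain ⟨k, hk⟩ := hint (Real.pi / 2)
    rw [Real.cos_pi_div_two, Real.sin_pi_div_two] at hk
    simp only [mul_zero, mul_one, zero_add] at hk
    exact ⟨k, dom_pow hm (fun x => x.2) measurable_snd k (k + 1) (by omega) hk⟩
  have hqm : ∀ t : ℝ, Measurable (fun x : ℝ × ℝ => x.1 + t * x.2) := fun t =>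
    measurable_fst.add (measurable_snd.const_mul t)
  have hH1 : ∀ t : ℝ, ∃ k : ℕ, Integrable (fun x : ℝ × ℝ => f x / (1 + |x.1 + t * x.2|) ^ k) := by
    intro t
    obtain ⟨k, h1⟩ := hint (Real.arctan t)
    refine ⟨k, ?_⟩
    have hc : 0 < Real.cos (Real.arctan t) := Real.cos_arctan_pos t
    have hc1 : Real.cos (Real.arctan t) ≤ 1 := Real.cos_le_one _
    have hs : Real.sin (Real.arctan t) = t * Real.cos (Real.arctan t) := by
      have := Real.tan_arctan t
      rw [Real.tan_eq_sin_div_cos, div_eq_iff hc.ne'] at this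
      exact this
    refine h1.mono (hm.div ((measurable_const.add (hqm t).norm).pow_const _)).aestronglyMeasurable ?_
    refine Eventually.of_forall (fun x => ?_)
    have h2 : x.1 * Real.cos (Real.arctan t) + x.2 * Real.sin (Real.arctan t) =
        Real.cos (Real.arctan t) * (x.1 + t * x.2) := by
      rw [hs]
      ring
    rw [h2, abs_mul, abs_of_pos hc]
    have h3 : Real.cos (Real.arctan t) * |x.1 + t * x.2| ≤ |x.1 + t * x.2| :=
      mul_le_of_le_one_left (abs_nonneg _) hc1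
    rw [norm_div, norm_div, norm_pow, norm_pow,
      Real.norm_of_nonneg (by positivity : (0:ℝ) ≤ 1 + |x.1 + t * x.2|),
      Real.norm_of_nonneg (by positivity :
        (0:ℝ) ≤ 1 + Real.cos (Real.arctan t) * |x.1 + t * x.2|)]
    apply div_le_div_of_nonneg_left (norm_nonneg _) (by positivity)
    gcongr
  obtain ⟨k₁, hk₁⟩ := hH1 0
  simp only [zero_mul, add_zero] at hk₁
  refine plane_zero_var f hf k k₁ hk₁ hk (star_all f hm hH1 (k + 1) hk ?_)
  intro t j hj z hz
  have hc : 0 < Real.cos (Real.arctan t) := Real.cos_arctan_pos t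
  have hs : Real.sin (Real.arctan t) = t * Real.cos (Real.arctan t) := by
    have := Real.tan_arctan t
    rw [Real.tan_eq_sin_div_cos, div_eq_iff hc.ne'] at this
    exact this
  obtain ⟨e, he, hex⟩ := exists_rot (Real.arctan t)
  have hI : Integrable (fun x : ℝ × ℝ =>
      (f x : ℂ) / (((x.1 + t * x.2 : ℝ) : ℂ) - z) ^ (j + 1)) :=
    integrable_div_pow hm (fun x => x.1 + t * x.2) (hqm t) (j + 1)
      (dom_pow hm _ (hqm t) j (j + 1) (by omega) hj) z hz
  have hIe := he.integrable_comp_emb e.measurableEmbedding |>.2 hI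
  rw [← he.integral_comp e.measurableEmbedding]
  have key : ∀ x : ℝ × ℝ, (e x).1 + t * (e x).2 = x.1 / Real.cos (Real.arctan t) := by
    intro x
    rw [hex]
    simp only
    have h1 := Real.sin_sq_add_cos_sq (Real.arctan t)
    rw [eq_div_iff hc.ne']
    have h2 : (x.1 * Real.cos (Real.arctan t) - x.2 * Real.sin (Real.arctan t) +
        t * (x.1 * Real.sin (Real.arctan t) + x.2 * Real.cos (Real.arctan t))) *
          Real.cos (Real.arctan t) =
        x.1 * (Real.cos (Real.arctan t) ^ 2 + (t * Real.cos (Real.arctan t)) * Real.sin (Real.arctan t))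
        + x.2 * Real.cos (Real.arctan t) * (t * Real.cos (Real.arctan t) - Real.sin (Real.arctan t)) := by
      ring
    rw [h2, ← hs, sub_self, mul_zero, add_zero]
    linear_combination x.1 * h1
  have h3 : ∀ x : ℝ × ℝ, ((f (e x) : ℂ) / ((((e x).1 + t * (e x).2 : ℝ) : ℂ) - z) ^ (j + 1)) =
      (f (x.1 * Real.cos (Real.arctan t) - x.2 * Real.sin (Real.arctan t),
        x.1 * Real.sin (Real.arctan t) + x.2 * Real.cos (Real.arctan t)) : ℂ) /
        (((x.1 / Real.cos (Real.arctan t) : ℝ) : ℂ) - z) ^ (j + 1) := by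
    intro x
    rw [key, hex]
  have hIe' : Integrable (fun x : ℝ × ℝ =>
      (f (x.1 * Real.cos (Real.arctan t) - x.2 * Real.sin (Real.arctan t),
        x.1 * Real.sin (Real.arctan t) + x.2 * Real.cos (Real.arctan t)) : ℂ) /
        (((x.1 / Real.cos (Real.arctan t) : ℝ) : ℂ) - z) ^ (j + 1)) (volume.prod volume) :=
    hIe.congr (Eventually.of_forall (fun x => h3 x))
  simp_rw [h3]
  rw [Measure.volume_eq_prod, integral_prod _ hIe']
  have h4 : ∀ᵐ p : ℝ, ∫ s : ℝ, (f (p * Real.cos (Real.arctan t) - s * Real.sin (Real.arctan t),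
        p * Real.sin (Real.arctan t) + s * Real.cos (Real.arctan t)) : ℂ) /
        (((p / Real.cos (Real.arctan t) : ℝ) : ℂ) - z) ^ (j + 1) = 0 := by
    filter_upwards [hR (Real.arctan t)] with p hp
    rw [integral_div, integral_complex_ofReal, hp]
    simp
  rw [integral_congr_ae h4]
  exact integral_zero _ _

end U506.RT
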