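import Pool.Agent.U506.RT.P

/-! The category argument with locally integrable bounds near some slopes. -/

set_option autoImplicit false
open MeasureTheory Set Filter Topology
open scoped ENNReal

namespace U506.RT

variable {X : Type*} [MeasurableSpace X]
variable {μ : Measure X} {f : X → ℂ} {q : X → ℝ} {B : X → ℂ} {b : ℝ}

theorem var_zero2 (hf : AEStronglyMeasurable f μ) (hq : Measurable q) (hB : Measurable B)
    (hb : 0 < b) (hBi : ∀ x, (B x).im = b)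
    (K : ℕ) (h0 : Integrable (fun x => f x / (B x) ^ K) μ)
    (Kn : ℕ → Set ℝ) (hclosed : ∀ n, IsClosed (Kn n)) (V : Set ℝ)
    (hcover : ∀ t, 0 < t → t ∉ V → ∃ n, t ∈ Kn n)
    (hn : ∀ n, ∃ i : ℕ, ∀ z : ℂ, z.im < 0 → ∀ R : ℝ, ∃ M : ℝ, ∀ a ∈ Kn n, 0 < a → a < R →
      Integrable (fun x => f x / (((q x : ℂ) - z) + a * B x) ^ (K + i)) μ ∧
      ∫ x, ‖f x / (((q x : ℂ) - z) + a * B x) ^ (K + i)‖ ∂μ ≤ M)
    (hV : ∀ a ∈ V, 0 < a → ∃ i : ℕ, ∃ δ > 0, δ < a ∧ ∀ z : ℂ, z.im < 0 → ∃ φ : ℝ → ℝ,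
      IntegrableOn φ (Ioo (a - δ) (a + δ)) ∧ ∀ᵐ t : ℝ, a - δ < t → t < a + δ →
      Integrable (fun x => f x / (((q x : ℂ) - z) + t * B x) ^ (K + i)) μ ∧
      ∫ x, ‖f x / (((q x : ℂ) - z) + t * B x) ^ (K + i)‖ ∂μ ≤ φ t)
    (hzero : ∀ᵐ t : ℝ, 0 < t → ∀ z : ℂ, z.im < 0 → ∀ j : ℕ,
      Integrable (fun x => f x / (((q x : ℂ) - z) + t * B x) ^ j) μ →
      ∫ x, f x / (((q x : ℂ) - z) + t * B x) ^ (j + 1) ∂μ = 0)
    (z : ℂ) (hz : z.im < 0) :
    ∫ x, f x / ((B x) ^ K * ((q x : ℂ) - z)) ∂μ = 0 := by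
  have hAm : ∀ z : ℂ, Measurable (fun x => (q x : ℂ) - z) := fun z =>
    (Complex.measurable_ofReal.comp hq).sub measurable_const
  have hD : ∀ z : ℂ, z.im < 0 → ∀ x, ∀ s : ℝ, 0 ≤ s → -z.im ≤ ‖((q x : ℂ) - z) + s * B x‖ := by
    intro z hz x s hs
    have h1 : 0 ≤ ((q x : ℂ) + s * B x).im := by
      rw [Complex.add_im, Complex.ofReal_im, Complex.im_ofReal_mul, zero_add, hBi x]
      positivity
    have h2 := sub_lower _ z h1 hz
    have e : ((q x : ℂ) - z) + s * B x = (q x : ℂ) + s * B x - z := by ring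
    rw [e]
    exact h2
  set U : Set ℝ := {x | 0 < x ∧ ∃ δ > 0, δ < x ∧ EE μ f q B K (x - δ) (x + δ)} with hU
  have hUo : IsOpen U := by
    rw [Metric.isOpen_iff]
    rintro x ⟨hx, δ, hδ, hδx, h⟩
    refine ⟨δ / 2, by linarith, ?_⟩
    intro y hy
    rw [Metric.mem_ball, Real.dist_eq, abs_lt] at hy
    refine ⟨by linarith, δ / 2, by linarith, by linarith, ?_⟩
    intro z hz t r hr h1 h2
    exact h z hz t r hr (by linarith) (by linarith)
  have hgood : ∀ i : ℕ, ∀ a ∈ U, ∀ z : ℂ, z.im < 0 → ∃ δ > 0, ∀ t r : ℝ, 0 < r → a - δ < t →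
      t + ((K + i : ℕ) : ℝ) * r < a + δ →
      (dl r)^[K + i] (LL μ f (fun x => (q x : ℂ) - z) B (K + i)) t = 0 := by
    rintro i a ⟨ha, δ, hδ, hδa, h⟩ z hz
    refine ⟨δ, hδ, ?_⟩
    have := ((EE_add hq hB hb hBi K h0 (a - δ) (a + δ) (by linarith) i).2.1 h) z hz
    intro t r hr h1 h2
    exact this t r hr h1 h2
  -- the slopes in `V` are good
  have hVU : ∀ a ∈ V, 0 < a → a ∈ U := by
    intro a haV ha0
    obtain ⟨i, δ, hδ, hδa, hi⟩ := hV a haV ha0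
    have hEi := EE_add hq hB hb hBi K h0 (a - δ / 8) (a + δ / 8) (by linarith) i
    refine ⟨ha0, δ / 8, by linarith, by linarith, ?_⟩
    rw [hEi.2]
    intro z hz
    obtain ⟨φ, hφ, hφ2⟩ := hi z hz
    have hzp : 0 < -z.im := by linarith
    have hLc := LL_continuous hf (hAm z) hB hzp (hD z hz) hEi.1
    refine local_L1 (K + i) _ hLc a δ hδ
      (fun t => (K + i).factorial *
        ((-z.im * (1 / (2 * ((K + i : ℕ):ℝ) + 1)) ^ (K + i + 1))⁻¹ * φ t)) ?_ ?_ ?_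
    · exact (hφ.const_mul _).const_mul _
    · filter_upwards [hφ2] with t ht2 ht1 r hr hr2
      have hk0 : (0:ℝ) ≤ ((K + i : ℕ) : ℝ) := Nat.cast_nonneg _
      have hkr : 0 ≤ ((K + i : ℕ) : ℝ) * r := by positivity
      obtain ⟨g1, g2⟩ := ht2 ht1 (by linarith)
      exact LL_bound hf (hAm z) hB hzp (hD z hz) (B_ne hb hBi) hEi.1 t (φ t) g1 g2 t r
        (by linarith) hr le_rfl (by linarith)
    · filter_upwards [hφ2, hzero] with t ht2 ht3 ht1 ht4
      obtain ⟨g1, g2⟩ := ht2 ht1 ht4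
      exact LL_lim hf (hAm z) hB hzp (hD z hz) (B_ne hb hBi) hEi.1 t (by linarith) g1
        (ht3 (by linarith) z hz _ g1)
  have hall : ∀ x, 0 < x → x ∈ U := by
    by_contra hcon
    push Not at hcon
    obtain ⟨x₁, hx₁, hbad⟩ := hcon
    obtain ⟨n, x₀, hx₀p, hx₀b, ρ, hρ, hρx, hI⟩ := portion2 U hUo Kn hclosed
      (fun t ht htU => hcover t ht (fun htV => htU (hVU t htV ht))) x₁ hx₁ hbad
    obtain ⟨i, hi⟩ := hn n
    have hEi := EE_add hq hB hb hBi K h0 (x₀ - ρ / 8) (x₀ + ρ / 8) (by linarith) i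
    apply hx₀b
    refine ⟨hx₀p, ρ / 8, by linarith, by linarith, ?_⟩
    rw [hEi.2]
    intro z hz
    obtain ⟨M, hM⟩ := hi z hz (x₀ + ρ)
    have hzp : 0 < -z.im := by linarith
    have hLc := LL_continuous hf (hAm z) hB hzp (hD z hz) hEi.1
    refine local_step2 (K + i) _ hLc x₀ ρ hρ hρx
      ((K + i).factorial * ((-z.im * (1 / (2 * ((K + i : ℕ):ℝ) + 1)) ^ (K + i + 1))⁻¹ * M)) ?_ ?_
    · intro a ha1 ha2 hna t r ht hr hta hat
      have haU : a ∉ U := by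
        intro haU
        apply hna
        obtain ⟨δ, hδ, h⟩ := hgood i a haU z hz
        exact ⟨haU.1, δ, hδ, fun t r hr h1 h2 _ => h t r hr h1 h2⟩
      have haK := hI a ha1 ha2 haU
      obtain ⟨g1, g2⟩ := hM a haK (by linarith) ha2
      exact LL_bound hf (hAm z) hB hzp (hD z hz) (B_ne hb hBi) hEi.1 a M g1 g2 t r ht.le hr hta hat
    · filter_upwards [hzero] with t ht3 ht1 ht2
      have ht0 : 0 < t := by linarith
      by_cases htU : t ∈ U
      · obtain ⟨δ, hδ, h⟩ := hgood i t htU z hz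
        apply tendsto_const_nhds.congr'
        have hk0 : (0:ℝ) ≤ ((K + i : ℕ) : ℝ) := Nat.cast_nonneg _
        have hsmall : ∀ᶠ r in 𝓝[>] (0:ℝ), r < δ / (((K + i : ℕ) : ℝ) + 1) := by
          apply mem_nhdsWithin_of_mem_nhds
          exact Iio_mem_nhds (by positivity)
        filter_upwards [self_mem_nhdsWithin, hsmall] with r hr hr2
        have hr' : 0 < r := hr
        rw [lt_div_iff₀ (by positivity)] at hr2
        rw [h t r hr' (by linarith) (by nlinarith), norm_zero, zero_div]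
      · have htK := hI t ht1 ht2 htU
        obtain ⟨g1, g2⟩ := hM t htK ht0 ht2
        exact LL_lim hf (hAm z) hB hzp (hD z hz) (B_ne hb hBi) hEi.1 t ht0.le g1
          (ht3 ht0 z hz _ g1)
  have hzp : 0 < -z.im := by linarith
  refine LL_zero hf (hAm z) hB hzp (hD z hz) (B_ne hb hBi) h0 ?_
  intro t r ht hr
  refine local_global K _ t r ht hr (fun x hx1 _ => ?_)
  have hx : 0 < x := by linarith
  obtain ⟨δ, hδ, h⟩ := hgood 0 x (hall x hx) z hz
  exact ⟨hx, δ, hδ, fun t r hr h1 h2 _ => h t r hr h1 h2⟩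

end U506.RT
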