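import Pool.Agent.U506.RT.P2
import Pool.Agent.U506.RT.N

/-! The plane: pointwise or locally integrable bounds in the slope. -/

set_option autoImplicit false
open MeasureTheory Set Filter Topology
open scoped ENNReal ComplexConjugate

namespace U506.RT

lemma transfer (f : ℝ × ℝ → ℝ) (hf : Measurable f) (σ : ℝ) (z₂ : ℂ) (hσ2 : 0 < -(σ * z₂.im))
    (z : ℂ) (hz : z.im < 0) (R : ℝ) : ∃ C : ℝ, 0 ≤ C ∧ ∀ a : ℝ, 0 < a → a < R → ∀ n N : ℕ, n ≤ N →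
      Integrable (fun x : ℝ × ℝ => f x / (1 + |x.1 + (a * σ) * x.2|) ^ n) →
      Integrable (fun x : ℝ × ℝ => (f x : ℂ) /
        (((x.1 : ℂ) - z) + a * ((σ : ℂ) * ((x.2 : ℂ) - z₂))) ^ N) ∧
      ∫ x : ℝ × ℝ, ‖(f x : ℂ) / (((x.1 : ℂ) - z) + a * ((σ : ℂ) * ((x.2 : ℂ) - z₂))) ^ N‖ ≤
        C ^ N * ∫ x : ℝ × ℝ, ‖f x / (1 + |x.1 + (a * σ) * x.2|) ^ n‖ := by
  rcases le_or_gt R 0 with hR | hR
  · exact ⟨0, le_rfl, fun a h1 h2 => absurd h1 (by linarith)⟩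
  have hqm : ∀ t : ℝ, Measurable (fun x : ℝ × ℝ => x.1 + t * x.2) := fun t =>
    measurable_fst.add (measurable_snd.const_mul t)
  set C : ℝ := 1 + (1 + (‖z‖ + R * (|σ| * ‖z₂‖))) / |z.im| with hC
  have hzi : 0 < |z.im| := abs_pos.2 hz.ne
  have hCpos : 0 < C := by positivity
  refine ⟨C, hCpos.le, fun a ha0 haR n N hnN hIn => ?_⟩
  set w : ℂ := z + ((a * σ : ℝ) : ℂ) * z₂ with hw
  have hwim : w.im = z.im - a * (-(σ * z₂.im)) := by
    simp only [hw]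
    rw [Complex.add_im, Complex.im_ofReal_mul]
    ring
  have hwneg : w.im < 0 := by
    rw [hwim]
    have := mul_pos ha0 hσ2
    linarith
  have hwabs : |z.im| ≤ |w.im| := by
    rw [abs_of_neg hz, abs_of_neg hwneg, hwim]
    have := mul_pos ha0 hσ2
    linarith
  have hwn : ‖w‖ ≤ ‖z‖ + R * (|σ| * ‖z₂‖) := by
    simp only [hw]
    refine (norm_add_le _ _).trans ?_
    rw [norm_mul, Complex.norm_real, norm_mul, Real.norm_eq_abs, Real.norm_eq_abs, abs_of_pos ha0]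
    have : a * |σ| * ‖z₂‖ ≤ R * (|σ| * ‖z₂‖) := by
      rw [mul_assoc]
      gcongr
    linarith
  have hform : ∀ x : ℝ × ℝ, ((x.1 : ℂ) - z) + a * ((σ : ℂ) * ((x.2 : ℂ) - z₂)) =
      ((x.1 + (a * σ) * x.2 : ℝ) : ℂ) - w := by
    intro x
    simp only [hw]
    push_cast
    ring
  have hIN : Integrable (fun x : ℝ × ℝ => f x / (1 + |x.1 + (a * σ) * x.2|) ^ N) :=
    dom_pow hf _ (hqm (a * σ)) n N hnN hIn
  have hI1 : Integrable (fun x : ℝ × ℝ => (f x : ℂ) /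
      (((x.1 : ℂ) - z) + a * ((σ : ℂ) * ((x.2 : ℂ) - z₂))) ^ N) := by
    simp_rw [hform]
    exact integrable_div_pow hf _ (hqm (a * σ)) N hIN w hwneg.ne
  refine ⟨hI1, ?_⟩
  rw [← integral_const_mul]
  apply integral_mono hI1.norm (hIn.norm.const_mul _)
  intro x
  show ‖(f x : ℂ) / (((x.1 : ℂ) - z) + a * ((σ : ℂ) * ((x.2 : ℂ) - z₂))) ^ N‖ ≤
    C ^ N * ‖f x / (1 + |x.1 + (a * σ) * x.2|) ^ n‖
  rw [hform]
  have h1 := norm_sub_lower (x.1 + (a * σ) * x.2) w hwneg.ne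
  have hC' : 1 + (1 + ‖w‖) / |w.im| ≤ C := by
    rw [hC]
    gcongr
  have hC'' : C⁻¹ ≤ (1 + (1 + ‖w‖) / |w.im|)⁻¹ := by
    apply inv_anti₀ _ hC'
    positivity
  have h2 : 0 < 1 + |x.1 + (a * σ) * x.2| := by positivity
  have h3 : C⁻¹ * (1 + |x.1 + (a * σ) * x.2|) ≤
      ‖((x.1 + (a * σ) * x.2 : ℝ) : ℂ) - w‖ :=
    (mul_le_mul_of_nonneg_right hC'' h2.le).trans h1
  have h4 : 0 < ‖((x.1 + (a * σ) * x.2 : ℝ) : ℂ) - w‖ :=
    lt_of_lt_of_le (by positivity) h3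
  rw [norm_div, norm_pow, Complex.norm_real, norm_div, norm_pow, Real.norm_of_nonneg h2.le]
  rw [div_le_iff₀ (by positivity)]
  have h5 : (1 + |x.1 + (a * σ) * x.2|) ^ n ≤
      C ^ N * ‖((x.1 + (a * σ) * x.2 : ℝ) : ℂ) - w‖ ^ N := by
    calc (1 + |x.1 + (a * σ) * x.2|) ^ n ≤ (1 + |x.1 + (a * σ) * x.2|) ^ N :=
          pow_le_pow_right₀ (by linarith [abs_nonneg (x.1 + (a * σ) * x.2)]) hnN
      _ ≤ (C * ‖((x.1 + (a * σ) * x.2 : ℝ) : ℂ) - w‖) ^ N := by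
          gcongr
          rw [inv_mul_le_iff₀ hCpos] at h3
          exact h3
      _ = _ := by rw [mul_pow]
  have h6 : 0 < (1 + |x.1 + (a * σ) * x.2|) ^ n := by positivity
  calc ‖f x‖ = ‖f x‖ / (1 + |x.1 + (a * σ) * x.2|) ^ n *
        (1 + |x.1 + (a * σ) * x.2|) ^ n := by field_simp
    _ ≤ ‖f x‖ / (1 + |x.1 + (a * σ) * x.2|) ^ n *
        (C ^ N * ‖((x.1 + (a * σ) * x.2 : ℝ) : ℂ) - w‖ ^ N) := by gcongr
    _ = _ := by ring

lemma back {f : ℝ × ℝ → ℝ} (hf : Measurable f) (q : ℝ × ℝ → ℝ) (hq : Measurable q) (j : ℕ)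
    (w : ℂ) (hw : w.im ≠ 0) (h : Integrable (fun x => (f x : ℂ) / ((q x : ℂ) - w) ^ j)) :
    Integrable (fun x => f x / (1 + |q x|) ^ j) := by
  refine (h.norm.const_mul ((1 + ‖w‖) ^ j)).mono'
    (hf.div ((measurable_const.add hq.norm).pow_const _)).aestronglyMeasurable ?_
  refine Eventually.of_forall (fun x => ?_)
  have h0 : (q x : ℂ) - w ≠ 0 := by
    intro h
    have := congrArg Complex.im h
    rw [Complex.sub_im, Complex.ofReal_im, zero_sub, Complex.zero_im, neg_eq_zero] at this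
    exact hw this
  have h1 : ‖(q x : ℂ) - w‖ ≤ (1 + ‖w‖) * (1 + |q x|) := by
    have := norm_sub_le (q x : ℂ) w
    rw [Complex.norm_real, Real.norm_eq_abs] at this
    nlinarith [norm_nonneg w, abs_nonneg (q x)]
  have h2 : 0 < ‖(q x : ℂ) - w‖ := norm_pos_iff.2 h0
  have h3 : 0 < 1 + |q x| := by positivity
  show ‖f x / (1 + |q x|) ^ j‖ ≤ (1 + ‖w‖) ^ j * ‖(f x : ℂ) / ((q x : ℂ) - w) ^ j‖
  rw [norm_div, norm_pow, Real.norm_of_nonneg h3.le, norm_div, norm_pow, Complex.norm_real,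
    div_le_iff₀ (by positivity)]
  have h4 : ‖(q x : ℂ) - w‖ ^ j ≤ (1 + ‖w‖) ^ j * (1 + |q x|) ^ j := by
    rw [← mul_pow]
    gcongr
  have h5 : 0 < ‖(q x : ℂ) - w‖ ^ j := by positivity
  calc ‖f x‖ = ‖f x‖ / ‖(q x : ℂ) - w‖ ^ j * ‖(q x : ℂ) - w‖ ^ j := by field_simp
    _ ≤ ‖f x‖ / ‖(q x : ℂ) - w‖ ^ j * ((1 + ‖w‖) ^ j * (1 + |q x|) ^ j) := by gcongr
    _ = _ := by ring

/-- Near the slope `t` the integrals are integrable in the slope. -/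
def NearInt (f : ℝ × ℝ → ℝ) (t : ℝ) : Prop :=
  ∃ k : ℕ, ∃ δ > 0, ∫⁻ s in Ioo (t - δ) (t + δ),
    ∫⁻ x : ℝ × ℝ, ‖f x / (1 + |x.1 + s * x.2|) ^ k‖ₑ < ⊤

theorem star_neg2 (f : ℝ × ℝ → ℝ) (hf : Measurable f)
    (H1 : ∀ t : ℝ, (∃ k : ℕ, Integrable (fun x : ℝ × ℝ => f x / (1 + |x.1 + t * x.2|) ^ k)) ∨
      NearInt f t)
    (K : ℕ) (H2 : Integrable (fun x : ℝ × ℝ => f x / (1 + |x.2|) ^ K))
    (H3 : ∀ᵐ t : ℝ, ∀ j : ℕ, Integrable (fun x : ℝ × ℝ => f x / (1 + |x.1 + t * x.2|) ^ j) →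
      ∀ z : ℂ, z.im ≠ 0 → ∫ x : ℝ × ℝ, (f x : ℂ) / (((x.1 + t * x.2 : ℝ) : ℂ) - z) ^ (j + 1) = 0)
    (z₁ z₂ : ℂ) (hz₁ : z₁.im < 0) (hz₂ : z₂.im ≠ 0) :
    ∫ x : ℝ × ℝ, (f x : ℂ) / (((x.2 : ℂ) - z₂) ^ K * ((x.1 : ℂ) - z₁)) = 0 := by
  obtain ⟨σ, hσs, hσ2⟩ : ∃ σ : ℝ, (σ = 1 ∨ σ = -1) ∧ 0 < -(σ * z₂.im) := by
    rcases lt_or_gt_of_ne hz₂ with h2 | h2
    · exact ⟨1, Or.inl rfl, by linarith⟩
    · exact ⟨-1, Or.inr rfl, by linarith⟩
  have hσ : σ ≠ 0 := by rcases hσs with rfl | rfl <;> norm_num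
  have hσc : (σ : ℂ) ≠ 0 := by exact_mod_cast hσ
  set B : ℝ × ℝ → ℂ := fun x => (σ : ℂ) * ((x.2 : ℂ) - z₂) with hB
  have hBm : Measurable B :=
    ((Complex.measurable_ofReal.comp measurable_snd).sub measurable_const).const_mul _
  have hBi : ∀ x, (B x).im = -(σ * z₂.im) := by
    intro x
    simp only [hB]
    rw [Complex.im_ofReal_mul, Complex.sub_im, Complex.ofReal_im]
    ring
  have hfm : AEStronglyMeasurable (fun x => (f x : ℂ)) (volume : Measure (ℝ × ℝ)) :=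
    (Complex.measurable_ofReal.comp hf).aestronglyMeasurable
  have h0 : Integrable (fun x => (f x : ℂ) / (B x) ^ K) := by
    have h1 := (integrable_div_pow hf (fun x => x.2) measurable_snd K H2 z₂ hz₂).mul_const
      ((σ : ℂ) ^ K)⁻¹
    refine h1.congr (Eventually.of_forall (fun x => ?_))
    simp only [hB]
    rw [mul_pow, div_eq_mul_inv, div_eq_mul_inv, mul_inv]
    ring
  have hqm : ∀ t : ℝ, Measurable (fun x : ℝ × ℝ => x.1 + t * x.2) := fun t =>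
    measurable_fst.add (measurable_snd.const_mul t)
  have hgm : ∀ (t : ℝ) (n : ℕ), Measurable (fun x : ℝ × ℝ => f x / (1 + |x.1 + t * x.2|) ^ n) :=
    fun t n => hf.div ((measurable_const.add (hqm t).norm).pow_const n)
  have hGm : ∀ n : ℕ, Measurable (fun t : ℝ =>
      ∫⁻ x : ℝ × ℝ, ‖f x / (1 + |x.1 + (t * σ) * x.2|) ^ n‖ₑ) := by
    intro n
    apply Measurable.lintegral_prod_right' (f := fun y : ℝ × (ℝ × ℝ) =>
      ‖f y.2 / (1 + |y.2.1 + (y.1 * σ) * y.2.2|) ^ n‖ₑ)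
    apply Measurable.enorm
    apply (hf.comp measurable_snd).div
    apply Measurable.pow_const
    apply Measurable.add measurable_const
    exact ((measurable_fst.comp measurable_snd).add
      ((measurable_fst.mul_const σ).mul (measurable_snd.comp measurable_snd))).norm
  set Kn : ℕ → Set ℝ := fun n =>
    {t | 0 ≤ t ∧ ∫⁻ x : ℝ × ℝ, ‖f x / (1 + |x.1 + (t * σ) * x.2|) ^ n‖ₑ ≤ n} with hKn
  have hclosed : ∀ n, IsClosed (Kn n) := by
    intro n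
    apply IsSeqClosed.isClosed
    intro u t hu hut
    have ht0 : 0 ≤ t := ge_of_tendsto' hut (fun i => (hu i).1)
    refine ⟨ht0, ?_⟩
    have hpt : ∀ x : ℝ × ℝ, Tendsto (fun i => ‖f x / (1 + |x.1 + (u i * σ) * x.2|) ^ n‖ₑ) atTop
        (𝓝 ‖f x / (1 + |x.1 + (t * σ) * x.2|) ^ n‖ₑ) := by
      intro x
      apply Tendsto.enorm
      apply Tendsto.div tendsto_const_nhds
      · apply Tendsto.pow
        apply Tendsto.const_add
        apply Tendsto.abs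
        apply Tendsto.const_add
        exact (hut.mul_const σ).mul_const x.2
      · positivity
    calc ∫⁻ x : ℝ × ℝ, ‖f x / (1 + |x.1 + (t * σ) * x.2|) ^ n‖ₑ
        = ∫⁻ x : ℝ × ℝ, liminf (fun i => ‖f x / (1 + |x.1 + (u i * σ) * x.2|) ^ n‖ₑ) atTop := by
          congr 1; funext x; exact (hpt x).liminf_eq.symm
      _ ≤ liminf (fun i => ∫⁻ x : ℝ × ℝ, ‖f x / (1 + |x.1 + (u i * σ) * x.2|) ^ n‖ₑ) atTop := by
          apply lintegral_liminf_le'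
          intro i
          exact (hgm (u i * σ) n).enorm.aemeasurable
      _ ≤ n := by
          apply liminf_le_of_frequently_le'
          exact Frequently.of_forall (fun i => (hu i).2)
  set V : Set ℝ := {t | ∃ k : ℕ, ∃ δ > 0, ∫⁻ s in Ioo (t - δ) (t + δ),
    ∫⁻ x : ℝ × ℝ, ‖f x / (1 + |x.1 + (s * σ) * x.2|) ^ k‖ₑ < ⊤} with hVdef
  have hnear : ∀ t, NearInt f (t * σ) → t ∈ V := by
    rintro t ⟨k, δ, hδ, h⟩
    refine ⟨k, δ, hδ, ?_⟩
    rcases hσs with rfl | rfl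
    · simpa only [mul_one] using h
    · have e := (Measure.measurePreserving_neg (volume : Measure ℝ)).setLIntegral_comp_preimage_emb
        (MeasurableEquiv.neg ℝ).measurableEmbedding
        (fun s => ∫⁻ x : ℝ × ℝ, ‖f x / (1 + |x.1 + s * x.2|) ^ k‖ₑ) (Ioo (t * -1 - δ) (t * -1 + δ))
      have e2 : (Neg.neg : ℝ → ℝ) ⁻¹' (Ioo (t * -1 - δ) (t * -1 + δ)) = Ioo (t - δ) (t + δ) := by
        ext s
        simp only [mem_preimage, mem_Ioo]
        constructor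
        · rintro ⟨h1, h2⟩; constructor <;> linarith
        · rintro ⟨h1, h2⟩; constructor <;> linarith
      rw [e2] at e
      have e3 : ∀ s : ℝ, s * -1 = -s := fun s => by ring
      simp only [e3] at h e ⊢
      rw [e]
      exact h
  have hcover : ∀ t, 0 < t → t ∉ V → ∃ n, t ∈ Kn n := by
    intro t ht htV
    rcases H1 (t * σ) with ⟨k, hk⟩ | h
    · have hfin : ∫⁻ x : ℝ × ℝ, ‖f x / (1 + |x.1 + (t * σ) * x.2|) ^ k‖ₑ < ⊤ :=
        hk.hasFiniteIntegral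
      obtain ⟨m, hm⟩ := ENNReal.exists_nat_gt hfin.ne
      refine ⟨max k m, ht.le, ?_⟩
      calc ∫⁻ x : ℝ × ℝ, ‖f x / (1 + |x.1 + (t * σ) * x.2|) ^ (max k m)‖ₑ
          ≤ ∫⁻ x : ℝ × ℝ, ‖f x / (1 + |x.1 + (t * σ) * x.2|) ^ k‖ₑ := by
            apply lintegral_mono
            intro x
            rw [enorm_le_iff_norm_le, norm_div, norm_div, norm_pow, norm_pow,
              Real.norm_of_nonneg (by positivity : (0:ℝ) ≤ 1 + |x.1 + (t * σ) * x.2|)]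
            apply div_le_div_of_nonneg_left (norm_nonneg _) (by positivity)
            exact pow_le_pow_right₀ (by linarith [abs_nonneg (x.1 + (t * σ) * x.2)]) (le_max_left _ _)
        _ ≤ m := hm.le
        _ ≤ ((max k m : ℕ) : ℝ≥0∞) := by
            exact_mod_cast le_max_right k m
    · exact absurd (hnear t h) htV
  have hn : ∀ n, ∃ i : ℕ, ∀ z : ℂ, z.im < 0 → ∀ R : ℝ, ∃ M : ℝ, ∀ a ∈ Kn n, 0 < a → a < R →
      Integrable (fun x : ℝ × ℝ => (f x : ℂ) / (((x.1 : ℂ) - z) + a * B x) ^ (K + i)) ∧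
      ∫ x : ℝ × ℝ, ‖(f x : ℂ) / (((x.1 : ℂ) - z) + a * B x) ^ (K + i)‖ ≤ M := by
    intro n
    refine ⟨n, fun z hz R => ?_⟩
    obtain ⟨C, hC0, hC⟩ := transfer f hf σ z₂ hσ2 z hz R
    refine ⟨C ^ (K + n) * n, fun a ha ha0 haR => ?_⟩
    have hIn : Integrable (fun x : ℝ × ℝ => f x / (1 + |x.1 + (a * σ) * x.2|) ^ n) := by
      refine ⟨(hgm (a * σ) n).aestronglyMeasurable, ?_⟩
      exact lt_of_le_of_lt ha.2 (ENNReal.natCast_lt_top n)
    have hInt : ∫ x : ℝ × ℝ, ‖f x / (1 + |x.1 + (a * σ) * x.2|) ^ n‖ ≤ n := by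
      rw [integral_norm_eq_lintegral_enorm hIn.aestronglyMeasurable]
      have := ENNReal.toReal_mono (ENNReal.natCast_ne_top n) ha.2
      simpa using this
    obtain ⟨g1, g2⟩ := hC a ha0 haR n (K + n) (by omega) hIn
    refine ⟨g1, g2.trans ?_⟩
    gcongr
  have hV : ∀ a ∈ V, 0 < a → ∃ i : ℕ, ∃ δ > 0, δ < a ∧ ∀ z : ℂ, z.im < 0 → ∃ φ : ℝ → ℝ,
      IntegrableOn φ (Ioo (a - δ) (a + δ)) ∧ ∀ᵐ t : ℝ, a - δ < t → t < a + δ →
      Integrable (fun x : ℝ × ℝ => (f x : ℂ) / (((x.1 : ℂ) - z) + t * B x) ^ (K + i)) ∧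
      ∫ x : ℝ × ℝ, ‖(f x : ℂ) / (((x.1 : ℂ) - z) + t * B x) ^ (K + i)‖ ≤ φ t := by
    rintro a ⟨k, δ, hδ, h⟩ ha0
    refine ⟨k, min δ (a / 2), lt_min hδ (by linarith), lt_of_le_of_lt (min_le_right _ _)
      (by linarith), fun z hz => ?_⟩
    obtain ⟨C, hC0, hC⟩ := transfer f hf σ z₂ hσ2 z hz (a + min δ (a / 2))
    have hsub : Ioo (a - min δ (a / 2)) (a + min δ (a / 2)) ⊆ Ioo (a - δ) (a + δ) := by
      intro s hs
      have := min_le_left δ (a / 2)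
      exact ⟨by linarith [hs.1], by linarith [hs.2]⟩
    have h' : ∫⁻ s in Ioo (a - min δ (a / 2)) (a + min δ (a / 2)),
        ∫⁻ x : ℝ × ℝ, ‖f x / (1 + |x.1 + (s * σ) * x.2|) ^ k‖ₑ < ⊤ :=
      lt_of_le_of_lt (lintegral_mono_set hsub) h
    refine ⟨fun t => C ^ (K + k) *
      (∫⁻ x : ℝ × ℝ, ‖f x / (1 + |x.1 + (t * σ) * x.2|) ^ k‖ₑ).toReal, ?_, ?_⟩
    · exact (integrable_toReal_of_lintegral_ne_top (hGm k).aemeasurable h'.ne).const_mul _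
    · have hae := ae_lt_top' (hGm k).aemeasurable h'.ne
      rw [ae_restrict_iff' measurableSet_Ioo] at hae
      filter_upwards [hae] with t ht ht1 ht2
      have hfin := ht ⟨ht1, ht2⟩
      have ht0 : 0 < t := by
        have := min_le_right δ (a / 2)
        linarith
      have hIn : Integrable (fun x : ℝ × ℝ => f x / (1 + |x.1 + (t * σ) * x.2|) ^ k) :=
        ⟨(hgm (t * σ) k).aestronglyMeasurable, hfin⟩
      obtain ⟨g1, g2⟩ := hC t ht0 ht2 k (K + k) (by omega) hIn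
      refine ⟨g1, g2.trans_eq ?_⟩
      rw [integral_norm_eq_lintegral_enorm hIn.aestronglyMeasurable]
  have hzero : ∀ᵐ t : ℝ, 0 < t → ∀ z : ℂ, z.im < 0 → ∀ j : ℕ,
      Integrable (fun x : ℝ × ℝ => (f x : ℂ) / (((x.1 : ℂ) - z) + t * B x) ^ j) →
      ∫ x : ℝ × ℝ, (f x : ℂ) / (((x.1 : ℂ) - z) + t * B x) ^ (j + 1) = 0 := by
    have H3' : ∀ᵐ t : ℝ, ∀ j : ℕ,
        Integrable (fun x : ℝ × ℝ => f x / (1 + |x.1 + (t * σ) * x.2|) ^ j) →
        ∀ z : ℂ, z.im ≠ 0 →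
          ∫ x : ℝ × ℝ, (f x : ℂ) / (((x.1 + (t * σ) * x.2 : ℝ) : ℂ) - z) ^ (j + 1) = 0 := by
      rcases hσs with rfl | rfl
      · simpa only [mul_one] using H3
      · have := (Measure.measurePreserving_neg (volume : Measure ℝ)).quasiMeasurePreserving.ae H3
        filter_upwards [this] with t ht
        have e3 : t * -1 = -t := by ring
        rw [e3]
        exact ht
    filter_upwards [H3'] with t ht ht0 z hz j hj
    set w : ℂ := z + ((t * σ : ℝ) : ℂ) * z₂ with hw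
    have hwim : w.im = z.im - t * (-(σ * z₂.im)) := by
      simp only [hw]
      rw [Complex.add_im, Complex.im_ofReal_mul]
      ring
    have hwneg : w.im < 0 := by
      rw [hwim]
      have := mul_pos ht0 hσ2
      linarith
    have hform : ∀ x : ℝ × ℝ, ((x.1 : ℂ) - z) + t * B x =
        ((x.1 + (t * σ) * x.2 : ℝ) : ℂ) - w := by
      intro x
      simp only [hw, hB]
      push_cast
      ring
    simp_rw [hform] at hj ⊢
    exact ht j (back hf _ (hqm (t * σ)) j w hwneg.ne hj) w hwneg.ne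
  have key := var_zero2 (μ := (volume : Measure (ℝ × ℝ))) (f := fun x => (f x : ℂ))
    (q := fun x => x.1) (B := B) hfm measurable_fst hBm hσ2 hBi K h0 Kn hclosed V hcover hn hV hzero
    z₁ hz₁
  have e : ∀ x : ℝ × ℝ, (f x : ℂ) / (((x.2 : ℂ) - z₂) ^ K * ((x.1 : ℂ) - z₁)) =
      ((f x : ℂ) / ((B x) ^ K * ((x.1 : ℂ) - z₁))) * (σ : ℂ) ^ K := by
    intro x
    simp only [hB]
    rw [mul_pow, div_eq_mul_inv, div_eq_mul_inv, mul_inv, mul_inv, mul_inv]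
    have : (σ : ℂ) ^ K ≠ 0 := pow_ne_zero _ hσc
    field_simp
  simp_rw [e]
  rw [integral_mul_const, key, zero_mul]

theorem star_all2 (f : ℝ × ℝ → ℝ) (hf : Measurable f)
    (H1 : ∀ t : ℝ, (∃ k : ℕ, Integrable (fun x : ℝ × ℝ => f x / (1 + |x.1 + t * x.2|) ^ k)) ∨
      NearInt f t)
    (K : ℕ) (H2 : Integrable (fun x : ℝ × ℝ => f x / (1 + |x.2|) ^ K))
    (H3 : ∀ᵐ t : ℝ, ∀ j : ℕ, Integrable (fun x : ℝ × ℝ => f x / (1 + |x.1 + t * x.2|) ^ j) →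
      ∀ z : ℂ, z.im ≠ 0 → ∫ x : ℝ × ℝ, (f x : ℂ) / (((x.1 + t * x.2 : ℝ) : ℂ) - z) ^ (j + 1) = 0)
    (z₁ z₂ : ℂ) (hz₁ : z₁.im ≠ 0) (hz₂ : z₂.im ≠ 0) :
    ∫ x : ℝ × ℝ, (f x : ℂ) / (((x.2 : ℂ) - z₂) ^ K * ((x.1 : ℂ) - z₁)) = 0 := by
  rcases lt_or_gt_of_ne hz₁ with h | h
  · exact star_neg2 f hf H1 K H2 H3 z₁ z₂ h hz₂
  · have h1 := star_neg2 f hf H1 K H2 H3 (conj z₁) (conj z₂) (by simpa using h)
      (by simpa using hz₂)
    have h2 := congrArg conj h1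
    rw [← integral_conj, map_zero] at h2
    rw [← h2]
    congr 1
    funext x
    simp only [map_div₀, map_mul, map_pow, map_sub, Complex.conj_conj, Complex.conj_ofReal]

end U506.RT
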