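import Pool.Agent.U506.RT.Q

/-! From slopes to angles. -/

set_option autoImplicit false
open MeasureTheory Set Filter Topology
open scoped ENNReal

namespace U506.RT

/-- The integral of `|f| / (1 + |x · α|) ^ k` over the plane. -/
noncomputable def GG (f : ℝ × ℝ → ℝ) (k : ℕ) (α : ℝ) : ℝ≥0∞ :=
  ∫⁻ x : ℝ × ℝ, ‖f x / (1 + |x.1 * Real.cos α + x.2 * Real.sin α|) ^ k‖ₑ

lemma GG_measurable {f : ℝ × ℝ → ℝ} (hf : Measurable f) (k : ℕ) : Measurable (GG f k) := by
  apply Measurable.lintegral_prod_right' (f := fun y : ℝ × (ℝ × ℝ) =>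
      ‖f y.2 / (1 + |y.2.1 * Real.cos y.1 + y.2.2 * Real.sin y.1|) ^ k‖ₑ)
  apply Measurable.enorm
  apply (hf.comp measurable_snd).div
  apply Measurable.pow_const
  apply Measurable.add measurable_const
  exact (((measurable_fst.comp measurable_snd).mul (Real.measurable_cos.comp measurable_fst)).add
    ((measurable_snd.comp measurable_snd).mul (Real.measurable_sin.comp measurable_fst))).norm

lemma sin_arctan_eq (t : ℝ) : Real.sin (Real.arctan t) = t * Real.cos (Real.arctan t) := by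
  have hc : 0 < Real.cos (Real.arctan t) := Real.cos_arctan_pos t
  have := Real.tan_arctan t
  rw [Real.tan_eq_sin_div_cos, div_eq_iff hc.ne'] at this
  exact this

lemma slope_norm_le (f : ℝ × ℝ → ℝ) (t : ℝ) (k : ℕ) (x : ℝ × ℝ) :
    ‖f x / (1 + |x.1 + t * x.2|) ^ k‖ ≤
      ‖f x / (1 + |x.1 * Real.cos (Real.arctan t) + x.2 * Real.sin (Real.arctan t)|) ^ k‖ := by
  have hc : 0 < Real.cos (Real.arctan t) := Real.cos_arctan_pos t
  have hc1 : Real.cos (Real.arctan t) ≤ 1 := Real.cos_le_one _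
  have h2 : x.1 * Real.cos (Real.arctan t) + x.2 * Real.sin (Real.arctan t) =
      Real.cos (Real.arctan t) * (x.1 + t * x.2) := by
    rw [sin_arctan_eq]
    ring
  rw [h2, abs_mul, abs_of_pos hc]
  have h3 : Real.cos (Real.arctan t) * |x.1 + t * x.2| ≤ |x.1 + t * x.2| :=
    mul_le_of_le_one_left (abs_nonneg _) hc1
  rw [norm_div, norm_div, norm_pow, norm_pow,
    Real.norm_of_nonneg (by positivity : (0:ℝ) ≤ 1 + |x.1 + t * x.2|),
    Real.norm_of_nonneg (by positivity :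
      (0:ℝ) ≤ 1 + Real.cos (Real.arctan t) * |x.1 + t * x.2|)]
  apply div_le_div_of_nonneg_left (norm_nonneg _) (by positivity)
  gcongr

lemma near_of_angle {f : ℝ × ℝ → ℝ} (t : ℝ) (k : ℕ) (δ : ℝ) (hδ : 0 < δ)
    (h : ∫⁻ α in Ioo (Real.arctan t - δ) (Real.arctan t + δ), GG f k α < ⊤) : NearInt f t := by
  have hcont : ContinuousAt Real.arctan t := Real.continuous_arctan.continuousAt
  rw [Metric.continuousAt_iff] at hcont
  obtain ⟨η₀, hη₀, hη⟩ := hcont δ hδ
  set η : ℝ := min η₀ 1 with hηdef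
  have hηp : 0 < η := lt_min hη₀ one_pos
  set T : Set ℝ := Ioo (t - η) (t + η) with hT
  have himg : Real.arctan '' T ⊆ Ioo (Real.arctan t - δ) (Real.arctan t + δ) := by
    rintro _ ⟨s, hs, rfl⟩
    have hd : dist s t < η₀ := by
      rw [Real.dist_eq, abs_lt]
      have := min_le_left η₀ (1:ℝ)
      constructor <;> linarith [hs.1, hs.2]
    have h2 := hη hd
    rw [Real.dist_eq, abs_lt] at h2
    exact ⟨by linarith [h2.1], by linarith [h2.2]⟩
  have hchg := lintegral_image_eq_lintegral_abs_deriv_mul (s := T) (f := Real.arctan)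
    (f' := fun s => 1 / (1 + s ^ 2)) measurableSet_Ioo
    (fun s _ => (Real.hasDerivAt_arctan s).hasDerivWithinAt) (Real.arctan_injective.injOn) (GG f k)
  set c : ℝ := 1 + (|t| + 1) ^ 2 with hc
  have hcp : 0 < c := by positivity
  refine ⟨k, η, hηp, ?_⟩
  have hle : ∫⁻ s in T, ∫⁻ x : ℝ × ℝ, ‖f x / (1 + |x.1 + s * x.2|) ^ k‖ₑ ≤
      ∫⁻ s in T, ENNReal.ofReal c * (ENNReal.ofReal |1 / (1 + s ^ 2)| * GG f k (Real.arctan s)) := by
    apply setLIntegral_mono' measurableSet_Ioo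
    intro s hs
    have h1 : ∫⁻ x : ℝ × ℝ, ‖f x / (1 + |x.1 + s * x.2|) ^ k‖ₑ ≤ GG f k (Real.arctan s) := by
      apply lintegral_mono
      intro x
      rw [enorm_le_iff_norm_le]
      exact slope_norm_le f s k x
    have h2 : (1:ℝ≥0∞) ≤ ENNReal.ofReal c * ENNReal.ofReal |1 / (1 + s ^ 2)| := by
      rw [← ENNReal.ofReal_mul hcp.le, ENNReal.one_le_ofReal, abs_of_pos (by positivity),
        mul_one_div, le_div_iff₀ (by positivity), one_mul]
      have h3 : |s| ≤ |t| + 1 := by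
        have h4 : |s - t| ≤ 1 := by
          rw [abs_le]
          have := min_le_right η₀ (1:ℝ)
          constructor <;> linarith [hs.1, hs.2]
        have h5 := abs_add_le (s - t) t
        rw [sub_add_cancel] at h5
        linarith
      have h6 : s ^ 2 ≤ (|t| + 1) ^ 2 := by
        rw [← sq_abs s]
        gcongr
      linarith
    calc ∫⁻ x : ℝ × ℝ, ‖f x / (1 + |x.1 + s * x.2|) ^ k‖ₑ ≤ 1 * GG f k (Real.arctan s) := by
          rw [one_mul]; exact h1
      _ ≤ (ENNReal.ofReal c * ENNReal.ofReal |1 / (1 + s ^ 2)|) * GG f k (Real.arctan s) := by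
          gcongr
      _ = _ := by rw [mul_assoc]
  refine lt_of_le_of_lt hle ?_
  rw [lintegral_const_mul' _ _ ENNReal.ofReal_ne_top, ← hchg]
  exact ENNReal.mul_lt_top ENNReal.ofReal_lt_top (lt_of_le_of_lt (lintegral_mono_set himg) h)

lemma ae_arctan {P : ℝ → Prop} (h : ∀ᵐ θ : ℝ, P θ) : ∀ᵐ t : ℝ, P (Real.arctan t) := by
  rw [ae_iff] at h ⊢
  have hsub : {t : ℝ | ¬ P (Real.arctan t)} ⊆
      Real.tan '' ({θ | ¬ P θ} ∩ Ioo (-(Real.pi / 2)) (Real.pi / 2)) := by
    intro t ht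
    exact ⟨Real.arctan t, ⟨ht, Real.neg_pi_div_two_lt_arctan t, Real.arctan_lt_pi_div_two t⟩,
      Real.tan_arctan t⟩
  refine measure_mono_null hsub ?_
  apply addHaar_image_eq_zero_of_differentiableOn_of_addHaar_eq_zero
  · intro θ hθ
    have hc : Real.cos θ ≠ 0 := (Real.cos_pos_of_mem_Ioo hθ.2).ne'
    exact (Real.differentiableAt_tan.2 hc).differentiableWithinAt
  · exact measure_mono_null inter_subset_left h

/-- The theorem with two good coordinate directions. -/
theorem radon_axes (f : ℝ × ℝ → ℝ) (hf : Continuous f)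
    (h0 : ∃ k : ℕ, Integrable (fun x : ℝ × ℝ => f x / (1 + |x.1|) ^ k))
    (hπ : ∃ k : ℕ, Integrable (fun x : ℝ × ℝ => f x / (1 + |x.2|) ^ k))
    (hint : ∀ θ : ℝ, (∃ k : ℕ, Integrable
      (fun x : ℝ × ℝ => f x / (1 + |x.1 * Real.cos θ + x.2 * Real.sin θ|) ^ k)) ∨
      ∃ k : ℕ, ∃ δ > 0, ∫⁻ α in Ioo (θ - δ) (θ + δ), GG f k α < ⊤)
    (hR : ∀ᵐ θ : ℝ, ∀ᵐ p : ℝ,
      ∫ t : ℝ, f (p * Real.cos θ - t * Real.sin θ, p * Real.sin θ + t * Real.cos θ) = 0) :
    f = 0 := by
  have hm := hf.measurable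
  obtain ⟨k, hk⟩ : ∃ k : ℕ, Integrable (fun x : ℝ × ℝ => f x / (1 + |x.2|) ^ (k + 1)) := by
    obtain ⟨k, hk⟩ := hπ
    exact ⟨k, dom_pow hm (fun x => x.2) measurable_snd k (k + 1) (by omega) hk⟩
  have hqm : ∀ t : ℝ, Measurable (fun x : ℝ × ℝ => x.1 + t * x.2) := fun t =>
    measurable_fst.add (measurable_snd.const_mul t)
  have hH1 : ∀ t : ℝ, (∃ k : ℕ, Integrable (fun x : ℝ × ℝ => f x / (1 + |x.1 + t * x.2|) ^ k)) ∨
      NearInt f t := by
    intro t
    rcases hint (Real.arctan t) with ⟨k, h1⟩ | ⟨k, δ, hδ, h1⟩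
    · left
      refine ⟨k, ?_⟩
      refine h1.mono (hm.div ((measurable_const.add (hqm t).norm).pow_const _)).aestronglyMeasurable ?_
      exact Eventually.of_forall (fun x => slope_norm_le f t k x)
    · exact Or.inr (near_of_angle t k δ hδ h1)
  obtain ⟨k₁, hk₁⟩ := h0
  refine plane_zero_var f hf k k₁ hk₁ hk (star_all2 f hm hH1 (k + 1) hk ?_)
  filter_upwards [ae_arctan hR] with t hRt j hj z hz
  have hc : 0 < Real.cos (Real.arctan t) := Real.cos_arctan_pos t
  have hs : Real.sin (Real.arctan t) = t * Real.cos (Real.arctan t) := sin_arctan_eq t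
  obtain ⟨e, he, hex⟩ := exists_rot (Real.arctan t)
  have hI : Integrable (fun x : ℝ × ℝ =>
      (f x : ℂ) / (((x.1 + t * x.2 : ℝ) : ℂ) - z) ^ (j + 1)) :=
    integrable_div_pow hm (fun x => x.1 + t * x.2) (hqm t) (j + 1)
      (dom_pow hm _ (hqm t) j (j + 1) (by omega) hj) z hz
  have hIe := he.integrable_comp_emb e.measurableEmbedding |>.2 hI
  rw [← he.integral_comp e.measurableEmbedding]
  have key : ∀ x : ℝ × ℝ, (e x).1 + t * (e x).2 = x.1 / Real.cos (Real.arctan t) := by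
    intro x
    rw [hex]
    simp only
    have h1 := Real.sin_sq_add_cos_sq (Real.arctan t)
    rw [eq_div_iff hc.ne']
    have h2 : (x.1 * Real.cos (Real.arctan t) - x.2 * Real.sin (Real.arctan t) +
        t * (x.1 * Real.sin (Real.arctan t) + x.2 * Real.cos (Real.arctan t))) *
          Real.cos (Real.arctan t) =
        x.1 * (Real.cos (Real.arctan t) ^ 2 + (t * Real.cos (Real.arctan t)) * Real.sin (Real.arctan t))
        + x.2 * Real.cos (Real.arctan t) * (t * Real.cos (Real.arctan t) - Real.sin (Real.arctan t)) := by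
      ring
    rw [h2, ← hs, sub_self, mul_zero, add_zero]
    linear_combination x.1 * h1
  have h3 : ∀ x : ℝ × ℝ, ((f (e x) : ℂ) / ((((e x).1 + t * (e x).2 : ℝ) : ℂ) - z) ^ (j + 1)) =
      (f (x.1 * Real.cos (Real.arctan t) - x.2 * Real.sin (Real.arctan t),
        x.1 * Real.sin (Real.arctan t) + x.2 * Real.cos (Real.arctan t)) : ℂ) /
        (((x.1 / Real.cos (Real.arctan t) : ℝ) : ℂ) - z) ^ (j + 1) := by
    intro x
    rw [key, hex]
  have hIe' : Integrable (fun x : ℝ × ℝ =>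
      (f (x.1 * Real.cos (Real.arctan t) - x.2 * Real.sin (Real.arctan t),
        x.1 * Real.sin (Real.arctan t) + x.2 * Real.cos (Real.arctan t)) : ℂ) /
        (((x.1 / Real.cos (Real.arctan t) : ℝ) : ℂ) - z) ^ (j + 1)) (volume.prod volume) :=
    hIe.congr (Eventually.of_forall (fun x => h3 x))
  simp_rw [h3]
  rw [Measure.volume_eq_prod, integral_prod _ hIe']
  have h4 : ∀ᵐ p : ℝ, ∫ s : ℝ, (f (p * Real.cos (Real.arctan t) - s * Real.sin (Real.arctan t),
        p * Real.sin (Real.arctan t) + s * Real.cos (Real.arctan t)) : ℂ) /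
        (((p / Real.cos (Real.arctan t) : ℝ) : ℂ) - z) ^ (j + 1) = 0 := by
    filter_upwards [hRt] with p hp
    rw [integral_div, integral_complex_ofReal, hp]
    simp
  rw [integral_congr_ae h4]
  exact integral_zero _ _

lemma trig_key (θ θ₀ : ℝ) (x : ℝ × ℝ) :
    (x.1 * Real.cos θ₀ - x.2 * Real.sin θ₀) * Real.cos (θ + θ₀) +
      (x.1 * Real.sin θ₀ + x.2 * Real.cos θ₀) * Real.sin (θ + θ₀) =
    x.1 * Real.cos θ + x.2 * Real.sin θ := by
  rw [Real.cos_add, Real.sin_add]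
  have h := Real.sin_sq_add_cos_sq θ₀
  linear_combination (x.1 * Real.cos θ + x.2 * Real.sin θ) * h

/-- **The Radon transform is injective when near each direction the projections are tempered,
pointwise or in the mean.** -/
theorem radon_final (f : ℝ × ℝ → ℝ) (hf : Continuous f)
    (hint : ∀ θ : ℝ, (∃ k : ℕ, Integrable
      (fun x : ℝ × ℝ => f x / (1 + |x.1 * Real.cos θ + x.2 * Real.sin θ|) ^ k)) ∨
      ∃ k : ℕ, ∃ δ > 0, ∫⁻ α in Ioo (θ - δ) (θ + δ), GG f k α < ⊤)
    (hR : ∀ᵐ θ : ℝ, ∀ᵐ p : ℝ,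
      ∫ t : ℝ, f (p * Real.cos θ - t * Real.sin θ, p * Real.sin θ + t * Real.cos θ) = 0) :
    f = 0 := by
  have hm := hf.measurable
  have hgm : ∀ (k : ℕ) (θ : ℝ), Measurable
      (fun x : ℝ × ℝ => f x / (1 + |x.1 * Real.cos θ + x.2 * Real.sin θ|) ^ k) := fun k θ =>
    hm.div ((measurable_const.add
      ((measurable_fst.mul_const _).add (measurable_snd.mul_const _)).norm).pow_const k)
  set F : Set ℝ := {θ | ¬ ∃ k : ℕ, Integrable
      (fun x : ℝ × ℝ => f x / (1 + |x.1 * Real.cos θ + x.2 * Real.sin θ|) ^ k)} with hF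
  have hFnull : volume F = 0 := by
    apply measure_null_of_locally_null
    intro θ hθ
    rcases hint θ with h | ⟨k, δ, hδ, h⟩
    · exact absurd h hθ
    · refine ⟨F ∩ Ioo (θ - δ) (θ + δ), inter_mem_nhdsWithin _
        (Ioo_mem_nhds (by linarith) (by linarith)), ?_⟩
      have hae := ae_lt_top' (GG_measurable hm k).aemeasurable h.ne
      rw [ae_restrict_iff' measurableSet_Ioo, ae_iff] at hae
      refine measure_mono_null ?_ hae
      rintro α ⟨hα1, hα2⟩ hcon
      exact hα1 ⟨k, (hgm k α).aestronglyMeasurable, hcon hα2⟩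
  have hae1 : ∀ᵐ θ : ℝ, θ ∉ F := by
    rw [ae_iff]
    simpa using hFnull
  have hae2 : ∀ᵐ θ : ℝ, θ + Real.pi / 2 ∉ F :=
    (measurePreserving_add_right (volume : Measure ℝ) (Real.pi / 2)).quasiMeasurePreserving.ae hae1
  obtain ⟨θ₀, hθ1, hθ2⟩ := (hae1.and hae2).exists
  obtain ⟨e, he, hex⟩ := exists_rot θ₀
  have hdot : ∀ (θ : ℝ) (x : ℝ × ℝ), (e x).1 * Real.cos (θ + θ₀) + (e x).2 * Real.sin (θ + θ₀) =
      x.1 * Real.cos θ + x.2 * Real.sin θ := by
    intro θ x
    rw [hex]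
    exact trig_key θ θ₀ x
  set f' : ℝ × ℝ → ℝ := fun x => f (e x) with hf'
  have hf'c : Continuous f' := by
    have : f' = fun x : ℝ × ℝ => f (x.1 * Real.cos θ₀ - x.2 * Real.sin θ₀,
        x.1 * Real.sin θ₀ + x.2 * Real.cos θ₀) := by
      funext x
      simp only [hf', hex]
    rw [this]
    exact hf.comp (by fun_prop)
  have hint1 : ∀ θ : ℝ, θ + θ₀ ∉ F → ∃ k : ℕ, Integrable
      (fun x : ℝ × ℝ => f' x / (1 + |x.1 * Real.cos θ + x.2 * Real.sin θ|) ^ k) := by
    intro θ hθ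
    rw [hF] at hθ
    have hθ' := not_not.1 hθ
    clear hθ
    rename' hθ' => hθ
    obtain ⟨k, hk⟩ := hθ
    refine ⟨k, ?_⟩
    have h1 := (he.integrable_comp_emb e.measurableEmbedding).2 hk
    refine h1.congr (Eventually.of_forall (fun x => ?_))
    simp only [Function.comp, hf', hdot]
  have hGG : ∀ (k : ℕ) (α : ℝ), GG f' k α = GG f k (α + θ₀) := by
    intro k α
    have h1 := he.lintegral_comp_emb e.measurableEmbedding
      (fun y : ℝ × ℝ => ‖f y / (1 + |y.1 * Real.cos (α + θ₀) + y.2 * Real.sin (α + θ₀)|) ^ k‖ₑ)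
    unfold GG
    rw [← h1]
    simp only [hf', hdot]
  have hint' : ∀ θ : ℝ, (∃ k : ℕ, Integrable
      (fun x : ℝ × ℝ => f' x / (1 + |x.1 * Real.cos θ + x.2 * Real.sin θ|) ^ k)) ∨
      ∃ k : ℕ, ∃ δ > 0, ∫⁻ α in Ioo (θ - δ) (θ + δ), GG f' k α < ⊤ := by
    intro θ
    by_cases hθ : θ + θ₀ ∈ F
    · rcases hint (θ + θ₀) with h | ⟨k, δ, hδ, h⟩
      · exact absurd h hθ
      · right
        refine ⟨k, δ, hδ, ?_⟩
        have e1 := (measurePreserving_add_right (volume : Measure ℝ) θ₀).setLIntegral_comp_preimage_emb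
          (measurableEmbedding_addRight θ₀) (GG f k) (Ioo (θ + θ₀ - δ) (θ + θ₀ + δ))
        have e2 : (fun x : ℝ => x + θ₀) ⁻¹' (Ioo (θ + θ₀ - δ) (θ + θ₀ + δ)) =
            Ioo (θ - δ) (θ + δ) := by
          ext s
          simp only [mem_preimage, mem_Ioo]
          constructor
          · rintro ⟨h1, h2⟩; constructor <;> linarith
          · rintro ⟨h1, h2⟩; constructor <;> linarith
        rw [e2] at e1
        simp_rw [hGG]
        rw [e1]
        exact h
    · exact Or.inl (hint1 θ hθ)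
  have hR' : ∀ᵐ θ : ℝ, ∀ᵐ p : ℝ,
      ∫ t : ℝ, f' (p * Real.cos θ - t * Real.sin θ, p * Real.sin θ + t * Real.cos θ) = 0 := by
    have := (measurePreserving_add_right (volume : Measure ℝ) θ₀).quasiMeasurePreserving.ae hR
    filter_upwards [this] with θ hθ
    filter_upwards [hθ] with p hp
    rw [← hp]
    congr 1
    funext t
    simp only [hf', hex]
    congr 1
    rw [Real.cos_add, Real.sin_add]
    apply Prod.ext
    · simp only
      ring
    · simp only
      ring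
  have h0 : ∃ k : ℕ, Integrable (fun x : ℝ × ℝ => f' x / (1 + |x.1|) ^ k) := by
    obtain ⟨k, hk⟩ := hint1 0 (by rw [zero_add]; exact hθ1)
    refine ⟨k, ?_⟩
    simpa only [Real.cos_zero, Real.sin_zero, mul_one, mul_zero, add_zero] using hk
  have hπ : ∃ k : ℕ, Integrable (fun x : ℝ × ℝ => f' x / (1 + |x.2|) ^ k) := by
    obtain ⟨k, hk⟩ := hint1 (Real.pi / 2) (by rw [add_comm]; exact hθ2)
    refine ⟨k, ?_⟩
    simpa only [Real.cos_pi_div_two, Real.sin_pi_div_two, mul_one, mul_zero, zero_add] using hk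
  have hz := radon_axes f' hf'c h0 hπ hint' hR'
  funext y
  have := congrFun hz (e.symm y)
  simp only [hf', MeasurableEquiv.apply_symm_apply] at this
  exact this

end U506.RT
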