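import Pool.Agent.U506.RT.R

/-! One-sided growth conditions. -/

set_option autoImplicit false
open MeasureTheory Set Filter Topology
open scoped ENNReal

namespace U506.RT

lemma lintegral_pm {g : ℝ → ℝ} (hg : Integrable g) (h0 : ∫ t, g t = 0) (σ : ℝ)
    (hσ : σ = 1 ∨ σ = -1) :
    ∫⁻ t, ‖g t‖ₑ ≤ 2 * ∫⁻ t, ENNReal.ofReal (σ * g t) := by
  have e1 := integral_eq_lintegral_pos_part_sub_lintegral_neg_part hg
  rw [h0] at e1
  have hfin : ∫⁻ t, ‖g t‖ₑ < ⊤ := hg.2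
  have hP : ∫⁻ t, ENNReal.ofReal (g t) ≠ ⊤ := by
    refine ((lintegral_mono (fun t => ?_)).trans_lt hfin).ne
    rw [Real.enorm_eq_ofReal_abs]
    exact ENNReal.ofReal_le_ofReal (le_abs_self _)
  have hN : ∫⁻ t, ENNReal.ofReal (-g t) ≠ ⊤ := by
    refine ((lintegral_mono (fun t => ?_)).trans_lt hfin).ne
    rw [Real.enorm_eq_ofReal_abs]
    exact ENNReal.ofReal_le_ofReal (neg_le_abs _)
  have hPN : ∫⁻ t, ENNReal.ofReal (g t) = ∫⁻ t, ENNReal.ofReal (-g t) := by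
    rw [← ENNReal.toReal_eq_toReal_iff' hP hN]
    linarith
  have hsum : ∫⁻ t, ‖g t‖ₑ = (∫⁻ t, ENNReal.ofReal (g t)) + ∫⁻ t, ENNReal.ofReal (-g t) := by
    rw [← lintegral_add_left' hg.aemeasurable.ennreal_ofReal]
    apply lintegral_congr
    intro t
    rw [Real.enorm_eq_ofReal_abs]
    rcases le_total 0 (g t) with h | h
    · rw [abs_of_nonneg h, ENNReal.ofReal_of_nonpos (neg_nonpos.2 h), add_zero]
    · rw [abs_of_nonpos h, ENNReal.ofReal_of_nonpos h, zero_add]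
  rcases hσ with rfl | rfl
  · simp only [one_mul]
    rw [hsum, ← hPN, two_mul]
  · simp only [neg_mul, one_mul]
    rw [hsum, hPN, two_mul]

lemma fubini_rot (θ : ℝ) {F : ℝ × ℝ → ℝ≥0∞} (hF : Measurable F) :
    ∫⁻ x : ℝ × ℝ, F x =
      ∫⁻ p : ℝ, ∫⁻ t : ℝ, F (p * Real.cos θ - t * Real.sin θ, p * Real.sin θ + t * Real.cos θ) := by
  obtain ⟨e, he, hex⟩ := exists_rot θ
  rw [← he.lintegral_comp hF, Measure.volume_eq_prod, lintegral_prod]
  · apply lintegral_congr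
    intro p
    apply lintegral_congr
    intro t
    rw [hex]
  · exact (hF.comp e.measurable).aemeasurable

lemma onesided_le {f : ℝ × ℝ → ℝ} (hf : Measurable f) (θ σ : ℝ) (hσ : σ = 1 ∨ σ = -1) (k : ℕ)
    (hR : ∀ᵐ p : ℝ,
      Integrable (fun t : ℝ => f (p * Real.cos θ - t * Real.sin θ, p * Real.sin θ + t * Real.cos θ)) ∧
      ∫ t : ℝ, f (p * Real.cos θ - t * Real.sin θ, p * Real.sin θ + t * Real.cos θ) = 0) :
    GG f k θ ≤ 2 * GG (fun x => max (σ * f x) 0) k θ := by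
  have hden : Measurable (fun x : ℝ × ℝ =>
      (1 + |x.1 * Real.cos θ + x.2 * Real.sin θ|) ^ k) :=
    ((measurable_const.add
      ((measurable_fst.mul_const _).add (measurable_snd.mul_const _)).norm).pow_const k)
  have m1 : Measurable (fun x : ℝ × ℝ =>
      ‖f x / (1 + |x.1 * Real.cos θ + x.2 * Real.sin θ|) ^ k‖ₑ) := (hf.div hden).enorm
  have m2 : Measurable (fun x : ℝ × ℝ =>
      ‖max (σ * f x) 0 / (1 + |x.1 * Real.cos θ + x.2 * Real.sin θ|) ^ k‖ₑ) :=
    (((measurable_const.mul hf).max measurable_const).div hden).enorm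
  have f1 := fubini_rot θ m1
  have f2 := fubini_rot θ m2
  unfold GG
  rw [f1, f2, ← lintegral_const_mul' _ _ (by simp)]
  apply lintegral_mono_ae
  filter_upwards [hR] with p hp
  have hline : ∀ t : ℝ, (p * Real.cos θ - t * Real.sin θ) * Real.cos θ +
      (p * Real.sin θ + t * Real.cos θ) * Real.sin θ = p := by
    intro t
    have h := Real.sin_sq_add_cos_sq θ
    linear_combination p * h
  simp only [hline]
  have hc : ∀ y : ℝ, ‖y / (1 + |p|) ^ k‖ₑ = ‖y‖ₑ * ‖((1 + |p|) ^ k)⁻¹‖ₑ := by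
    intro y
    rw [div_eq_mul_inv, enorm_mul]
  simp only [hc]
  have hcfin : ‖((1 + |p|) ^ k)⁻¹‖ₑ ≠ ⊤ := enorm_ne_top
  rw [lintegral_mul_const' _ _ hcfin, lintegral_mul_const' _ _ hcfin, ← mul_assoc]
  gcongr
  refine (lintegral_pm hp.1 hp.2 σ hσ).trans ?_
  gcongr with t
  rw [Real.enorm_eq_ofReal_abs]
  exact ENNReal.ofReal_le_ofReal ((le_max_left _ _).trans (le_abs_self _))

/-- **Injectivity with a one-sided growth condition for each direction.** -/
theorem radon_onesided (f : ℝ × ℝ → ℝ) (hf : Continuous f)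
    (hR : ∀ θ : ℝ, ∀ᵐ p : ℝ,
      Integrable (fun t : ℝ => f (p * Real.cos θ - t * Real.sin θ, p * Real.sin θ + t * Real.cos θ)) ∧
      ∫ t : ℝ, f (p * Real.cos θ - t * Real.sin θ, p * Real.sin θ + t * Real.cos θ) = 0)
    (hint : ∀ θ : ℝ, ∃ σ : ℝ, (σ = 1 ∨ σ = -1) ∧ ((∃ k : ℕ, Integrable
      (fun x : ℝ × ℝ => max (σ * f x) 0 / (1 + |x.1 * Real.cos θ + x.2 * Real.sin θ|) ^ k)) ∨
      ∃ k : ℕ, ∃ δ > 0, ∫⁻ α in Ioo (θ - δ) (θ + δ), GG (fun x => max (σ * f x) 0) k α < ⊤)) :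
    f = 0 := by
  have hm := hf.measurable
  apply radon_final f hf
  · intro θ
    obtain ⟨σ, hσ, h | ⟨k, δ, hδ, h⟩⟩ := hint θ
    · left
      obtain ⟨k, hk⟩ := h
      refine ⟨k, ?_, ?_⟩
      · exact (hm.div ((measurable_const.add
          ((measurable_fst.mul_const _).add (measurable_snd.mul_const _)).norm).pow_const
            k)).aestronglyMeasurable
      · have h1 := onesided_le hm θ σ hσ k (hR θ)
        have h2 : GG (fun x => max (σ * f x) 0) k θ < ⊤ := hk.2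
        exact h1.trans_lt (ENNReal.mul_lt_top (by simp) h2)
    · right
      refine ⟨k, δ, hδ, ?_⟩
      calc ∫⁻ α in Ioo (θ - δ) (θ + δ), GG f k α
          ≤ ∫⁻ α in Ioo (θ - δ) (θ + δ), 2 * GG (fun x => max (σ * f x) 0) k α :=
            lintegral_mono (fun α => onesided_le hm α σ hσ k (hR α))
        _ = 2 * ∫⁻ α in Ioo (θ - δ) (θ + δ), GG (fun x => max (σ * f x) 0) k α :=
            lintegral_const_mul' _ _ (by simp)
        _ < ⊤ := ENNReal.mul_lt_top (by simp) h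
  · exact Eventually.of_forall (fun θ => (hR θ).mono (fun p hp => hp.2))

end U506.RT
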